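import Pool.Agent.SPH.RG.Api
import Pool.Agent.SPH.Sub

/-!
# Project SPH, root germs: embeddings of small table germs

`jl` is the list of the images of the elements `0, …, N0 - 1` of a table germ: the image of `x` is
the named element `el (j1 x)` with the complement `el (j2 x)`.
-/

namespace Pool.Agent.SPH.RG

/-- the images -/
structure JD where
  /-- the list of the images -/
  jl : List (List ℕ × List ℕ)
  /-- the power of `τ` which fixes the images -/
  k : ℕ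
  /-- the number of elements of the orbits of `τ ^ k` -/
  r : ℕ

namespace JD

section Defs

variable (J : JD) (D : RD) (A : AD)

/-- the sequence of the image -/
def j1 (i : ℕ) : List ℕ := (J.jl.getD i ([], [])).1

/-- the sequence of the complement -/
def j2 (i : ℕ) : List ℕ := (J.jl.getD i ([], [])).2

/-- the mask of the image -/
def jm (i : ℕ) : ℕ := D.am (J.j2 i)

/-- the check of the bounds -/
def chk0 : Bool := an (Nat.beq (J.j1 0).length 0) (an (Nat.beq (J.j2 (A.D.N - 1)).length 0)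
  (D.fuB (J.j1 (A.D.N - 1)) (J.j2 (A.D.N - 1))))

/-- the checks at `i` -/
def chkI (i : ℕ) : Bool :=
  an (D.fuB (J.j1 i) (J.j2 i)) (an (D.fxB J.k (J.j1 i) (J.j2 i)) (allB A.D.N fun j =>
    an (Nat.beq (Nat.land (J.jm D i) (J.jm D j)) (J.jm D (A.D.mt i j)))
      (an (cond (Nat.beq i j) true (cond (Nat.beq (J.jm D i) (J.jm D j)) false true))
        (cond (A.D.le i j) (D.muB (J.j1 i) (J.j1 (A.D.q i j)) (J.j1 j) (J.j2 j)) true))))

/-- an atom of the small germ is below the join of the orbit of the atom `i` -/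
def chkA (i : ℕ) : Bool :=
  exL (upB A.D.N fun x => Nat.ble 1 x) fun x => D.clL (D.orb J.k J.r i) (J.j1 x)

/-- all the checks -/
structure Ok : Prop where
  c0 : J.chk0 D A = true
  cI : allB A.D.N (J.chkI D A) = true
  cA : allB D.N (J.chkA D A) = true

end Defs

variable {J : JD} {D : RD} {A : AD} {h : D.Ok} (hj : (D.rsys h).L.HasJoin) (hA : A.Ok)

/-- the map -/
noncomputable def jj (J : JD) (x : AD.SS hA) : Sim hj := RD.el hj (J.j1 x.i)

theorem jj_fu (hO : J.Ok D A) (x : AD.SS hA) : D.fuB (J.j1 x.i) (J.j2 x.i) = true := by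
  have h1 : J.chkI D A x.i = true := allB_spec hO.cI x.i x.lt
  exact (an_spec h1).1

private theorem e1_bit (a k : ℕ) : CD.bit a k = a.testBit k := by
  rw [Nat.testBit_eq_decide_div_mod_eq]
  show Nat.beq ((a >>> k) % 2) 1 = _
  rw [Nat.shiftRight_eq_div_pow]
  cases hd : Nat.beq (a / 2 ^ k % 2) 1 with
  | true => exact (decide_eq_true (Nat.eq_of_beq_eq_true hd)).symm
  | false => exact (decide_eq_false (Nat.ne_of_beq_eq_false hd)).symm

private theorem e1_lt (D : RD) (l : List ℕ) : D.am l < 2 ^ D.N := by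
  induction l with
  | nil =>
    have h1 : D.am [] = 2 ^ D.N - 1 := rfl
    have h2 : 0 < 2 ^ D.N := Nat.two_pow_pos _
    omega
  | cons u l ih =>
    have h1 : D.am (u :: l) = D.zS u &&& D.am l := rfl
    rw [h1]
    exact lt_of_le_of_lt Nat.and_le_right ih

/-- a mask `am` is `< 2 ^ N`, and it is determined by the element (`at_le_el`) -/
theorem jm_inj {l₁ l₂ l₁' l₂' : List ℕ} (h1 : D.fuB l₁ l₂ = true) (h2 : D.fuB l₁' l₂' = true)
    (e : RD.el hj l₁ = RD.el hj l₁') : D.am l₂ = D.am l₂' := by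
  apply Nat.eq_of_testBit_eq
  intro i
  by_cases hi : i < D.N
  · have h3 := RD.at_le_el hj h1 hi
    have h4 := RD.at_le_el hj h2 hi
    rw [← e, h3, e1_bit, e1_bit] at h4
    exact Bool.eq_iff_iff.2 h4
  · have h3 : 2 ^ D.N ≤ 2 ^ i := Nat.pow_le_pow_right (by omega) (by omega)
    rw [Nat.testBit_lt_two_pow (lt_of_lt_of_le (e1_lt D l₂) h3),
      Nat.testBit_lt_two_pow (lt_of_lt_of_le (e1_lt D l₂') h3)]

/-- `W [] = 1`; the complement of the last element is `[]` -/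
theorem jj_bot (hO : J.Ok D A) : jj hj hA J ⊥ = ⊥ := by
  have h1 : J.j1 0 = [] := List.eq_nil_of_length_eq_zero (Nat.eq_of_beq_eq_true (an_spec hO.c0).1)
  show RD.el hj (J.j1 0) = ⊥
  rw [h1]
  apply Sim.ext'
  rw [RD.el_v hj (l := []) rfl, Sim.bot_v, RSys.W_nil]

/-- `el l₁` with `fuB l₁ []` is `c` (`exc_full`) -/
theorem jj_top (hO : J.Ok D A) : jj hj hA J ⊤ = ⊤ := by
  have h1 := (an_spec (an_spec hO.c0).2).2
  have h2 : J.j2 (A.D.N - 1) = [] :=
    List.eq_nil_of_length_eq_zero (Nat.eq_of_beq_eq_true (an_spec (an_spec hO.c0).2).1)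
  rw [h2] at h1
  obtain ⟨h3, h4, h5, h6⟩ := RD.fu_ex h1
  rw [List.append_nil] at h6
  show RD.el hj (J.j1 (A.D.N - 1)) = ⊤
  apply Sim.ext'
  rw [RD.el_v hj h3, Sim.top_v]
  exact (D.rsys h).exc_full (RD.ex_spec h h3) h6

theorem jj_inj (hO : J.Ok D A) : Function.Injective (jj hj hA J) := by
  intro x y e
  have h1 : J.jm D x.i = J.jm D y.i := jm_inj hj (jj_fu hA hO x) (jj_fu hA hO y) e
  have h2 : J.chkI D A x.i = true := allB_spec hO.cI x.i x.lt
  have h3 := allB_spec (an_spec (an_spec h2).2).2 y.i y.lt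
  have h4 := (an_spec (an_spec h3).2).1
  rw [h1, Nat.beq_refl, cond_true] at h4
  apply TD.El.ext'
  cases h5 : Nat.beq x.i y.i with
  | true => exact Nat.eq_of_beq_eq_true h5
  | false =>
    rw [h5] at h4
    exact absurd h4 (by simp)

private theorem SRGI3_chk (hO : J.Ok D A) {i j : ℕ} (hi : i < A.D.N) (hj' : j < A.D.N) :
    D.fuB (J.j1 i) (J.j2 i) = true ∧
      Nat.beq (Nat.land (J.jm D i) (J.jm D j)) (J.jm D (A.D.mt i j)) = true ∧
      (A.D.le i j = true → D.muB (J.j1 i) (J.j1 (A.D.q i j)) (J.j1 j) (J.j2 j) = true) := by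
  have h1 : an (D.fuB (J.j1 i) (J.j2 i)) (an (D.fxB J.k (J.j1 i) (J.j2 i)) (allB A.D.N fun j =>
    an (Nat.beq (Nat.land (J.jm D i) (J.jm D j)) (J.jm D (A.D.mt i j)))
      (an (cond (Nat.beq i j) true (cond (Nat.beq (J.jm D i) (J.jm D j)) false true))
        (cond (A.D.le i j) (D.muB (J.j1 i) (J.j1 (A.D.q i j)) (J.j1 j) (J.j2 j)) true)))) = true :=
    allB_spec hO.cI i hi
  obtain ⟨h2, h3⟩ := an_spec h1
  obtain ⟨_, h4⟩ := an_spec h3
  obtain ⟨h5, h6⟩ := an_spec (allB_spec h4 j hj')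
  obtain ⟨_, h7⟩ := an_spec h6
  refine ⟨h2, h5, fun h8 => ?_⟩
  rw [h8, cond_true] at h7
  exact h7

/-- `RD.inf_el` -/
theorem jj_inf (hO : J.Ok D A) (x y : AD.SS hA) :
    jj hj hA J (x ⊓ y) = jj hj hA J x ⊓ jj hj hA J y := by
  have h1 := SRGI3_chk hO x.lt y.lt
  have h2 := SRGI3_chk hO y.lt y.lt
  have h3 := SRGI3_chk hO (x ⊓ y).lt y.lt
  exact (RD.inf_el hj h1.1 h2.1 h3.1 h1.2.1).symm

/-- `RD.el_mu`, `RD.q_el` -/
theorem jj_q (hO : J.Ok D A) {x y : AD.SS hA} (hxy : x ≤ y) :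
    (LG.germ hj).q (jj hj hA J x) (jj hj hA J y) = jj hj hA J ((AD.EE hA).q x y) := by
  have h1 := (SRGI3_chk hO x.lt y.lt).2.2 hxy
  have h2 := RD.el_mu hj h1
  have h3 := RD.q_el hj (RD.fu_ex (an_spec h1).1).1
  unfold jj
  rw [TD.El.q_i hxy, ← h2]
  exact h3.2

/-- the embedding -/
noncomputable def emb (hO : J.Ok D A) : GEmb (AD.EE hA) (LG.germ hj) where
  j := jj hj hA J
  bot := jj_bot hj hA hO
  top := jj_top hj hA hO
  inj := jj_inj hj hA hO
  inf := jj_inf hj hA hO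
  q := jj_q hj hA hO

/-- `RD.fx_el` -/
theorem emb_fx (hO : J.Ok D A) (x : AD.SS hA) :
    (LG.germ hj).tau^[J.k] ((emb hj hA hO).j x) = (emb hj hA hO).j x :=
  RD.fx_el hj (an_spec (an_spec (allB_spec hO.cI x.i x.lt)).2).1

/-- an atom `el [i]` is below `s`, its orbit is below `s` (`RD.orb_le`), so `jj x` is below `s`
for some `x ≠ ⊥` (`RD.cl_at`, `RD.el_le`) -/
theorem emb_ex (hO : J.Ok D A) {s : Sim hj} (hs : s ≠ ⊥) (h1 : (LG.germ hj).tau^[J.k] s = s) :
    ∃ x : AD.SS hA, x ≠ ⊥ ∧ (emb hj hA hO).j x ≤ s := by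
  obtain ⟨i, hi, h2⟩ := RD.ex_at hj hs
  obtain ⟨a, ha, h3⟩ := exL_spec (allB_spec hO.cA i hi)
  obtain ⟨h4, h5⟩ := mem_upB_iff.1 ha
  have h6 : 1 ≤ a := Nat.le_of_ble_eq_true h5
  refine ⟨⟨a, h4⟩, ?_, ?_⟩
  · intro e
    have h7 : a = 0 := congrArg TD.El.i e
    omega
  · have h8 : D.fuB (J.j1 a) (J.j2 a) = true := (an_spec (allB_spec hO.cI a h4)).1
    show RD.el hj (J.j1 a) ≤ s
    rw [RD.el_le hj (RD.fu_ex h8).1]
    exact RD.cl_at hj (RD.orb_le hj hi h1 h2) h3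

end JD

end Pool.Agent.SPH.RG
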