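import Pool.Agent.SPH.RG.Api
import Pool.Agent.SPH.Fix

/-!
# Project SPH, root germs: the fixed simple elements of a power of `τ`
-/

namespace Pool.Agent.SPH.RG

namespace RD

section Defs

variable (D : RD)

/-- some element of the list satisfies `p` -/
def exP (xs : List (List ℕ × List ℕ)) (p : List ℕ → List ℕ → Bool) : Bool :=
  List.rec false (fun q _ r => cond (p q.1 q.2) true r) xs

/-- all elements of the list satisfy `p` -/
def alP (xs : List (List ℕ × List ℕ)) (p : List ℕ → List ℕ → Bool) : Bool :=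
  List.rec true (fun q _ r => cond (p q.1 q.2) r false) xs

/-- The elements of `xs` have the rank `ρ` and are fixed by `τ ^ k`; the join of the orbit of
every atom is `⊤` or above an element of `xs`. -/
def tcB (k r ρ : ℕ) (xs : List (List ℕ × List ℕ)) : Bool :=
  an (alP xs fun l m => an (D.fxB k l m) (Nat.beq l.length ρ))
    (allB D.N fun i => cond (Nat.beq (D.ucl (D.orb k r i)) 0) true
      (exP xs fun l _ => D.clL (D.orb k r i) l))

/-- `K^[j] (el l)`, as a pair -/
def kp (j : ℕ) (l m : List ℕ) : List ℕ × List ℕ :=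
  Nat.rec (fun l m => (l, m)) (fun _ f l m => f m (l.map D.ta)) j l m

/-- `K^[j] (el l) = el l'` for some `j < b` -/
def kxB (b : ℕ) (l m l' m' : List ℕ) : Bool :=
  cond (allB b fun j => cond (D.eqB (D.kp j l m).1 (D.kp j l m).2 l' m') false true) false true

/-- the checks of a block -/
def blB (k r ρ c b : ℕ) (l m : List ℕ) (xs : List (List ℕ × List ℕ)) : Bool :=
  an (Nat.beq D.n (2 * ρ)) (an (Nat.blt 0 ρ) (an (Nat.blt 0 k) (an (D.tcB k r ρ xs)
    (an (alP xs fun l m => alP xs fun l' m' => D.kxB b l m l' m')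
      (an (D.fxB k l m) (an (Nat.beq l.length ρ)
        (an (D.eqB m (l.map D.ta) (D.mvL c l) (D.mvL c m))
          (allB k fun j => cond (Nat.beq j 0) true
            (cond (Nat.beq (D.am (D.mvL j m)) (D.am m)) false true)))))))))

end Defs

variable {D : RD} {h : D.Ok} (hj : (D.rsys h).L.HasJoin)

theorem exP_spec {xs : List (List ℕ × List ℕ)} {p : List ℕ → List ℕ → Bool}
    (hc : exP xs p = true) : ∃ q ∈ xs, p q.1 q.2 = true := by
  induction xs with
  | nil => exact absurd (show false = true from hc) Bool.false_ne_true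
  | cons q xs ih =>
    have h1 : cond (p q.1 q.2) true (exP xs p) = true := hc
    cases h2 : p q.1 q.2 with
    | true => exact ⟨q, List.mem_cons_self, h2⟩
    | false =>
      rw [h2, cond_false] at h1
      obtain ⟨q', h3, h4⟩ := ih h1
      exact ⟨q', List.mem_cons_of_mem _ h3, h4⟩

theorem alP_spec {xs : List (List ℕ × List ℕ)} {p : List ℕ → List ℕ → Bool}
    (hc : alP xs p = true) : ∀ q ∈ xs, p q.1 q.2 = true := by
  induction xs with
  | nil => exact fun q hq => absurd hq List.not_mem_nil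
  | cons q xs ih =>
    have h1 : cond (p q.1 q.2) (alP xs p) false = true := hc
    cases h2 : p q.1 q.2 with
    | true =>
      rw [h2, cond_true] at h1
      intro q' hq'
      rcases List.mem_cons.1 hq' with rfl | hq'
      · exact h2
      · exact ih h1 q' hq'
    | false =>
      rw [h2, cond_false] at h1
      exact absurd h1 (by decide)

private theorem J1_low {k r ρ : ℕ} {xs : List (List ℕ × List ℕ)} (hc : D.tcB k r ρ xs = true)
    {z : Sim hj} (hz : (LG.germ hj).tau^[k] z = z) (h0 : z ≠ ⊥) (h1 : z ≠ ⊤) :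
    ∃ q ∈ xs, el hj q.1 ≤ z ∧ (LG.germ hj).rk (el hj q.1) = ρ := by
  obtain ⟨hA, hB⟩ := an_spec hc
  obtain ⟨i, hi, hiz⟩ := ex_at hj h0
  have h2 := allB_spec hB i hi
  have h3 := orb_le hj (k := k) (r := r) hi hz hiz
  cases h4 : Nat.beq (D.ucl (D.orb k r i)) 0 with
  | true => exact absurd (cl_top hj h3 h4) h1
  | false =>
    rw [h4, cond_false] at h2
    obtain ⟨q, hq, h5⟩ := exP_spec h2
    obtain ⟨h6, h7⟩ := an_spec (alP_spec hA q hq)
    have h8 : D.exB q.1 = true := (fu_ex (an_spec (an_spec h6).2).1).1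
    refine ⟨q, hq, (el_le hj h8).2 (cl_at hj h3 h5), ?_⟩
    rw [rk_el hj h8, Nat.eq_of_beq_eq_true h7]

/-- Let `x` be fixed by `τ ^ k`, `x ≠ ⊥`, `⊤`.  An atom `el [i]` is below `x`, and so is its orbit
(`orb_le`); so `x` is above an element `y` of `xs` (`cl_top`, `cl_at`, `el_le`).  Also `K x` is
fixed and `≠ ⊥`, `⊤`, so it is above an element of `xs`.  The ranks: `rk x ≥ ρ`, `rk (K x) ≥ ρ` and
`rk x + rk (K x) = n = 2 ρ`, so `rk x = ρ` and `x = y`. -/
theorem T_of {k r ρ : ℕ} {xs : List (List ℕ × List ℕ)} (hc : D.tcB k r ρ xs = true)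
    (hn : D.n = 2 * ρ) (hρ : 0 < ρ) {x : Sim hj} (hx : x ∈ (LG.germ hj).T k) :
    ∃ q ∈ xs, x = el hj q.1 ∧ (LG.germ hj).rk x = ρ := by
  obtain ⟨h1, h2, h3⟩ := hx
  obtain ⟨q, hq, h4, h5⟩ := J1_low hj hc h1 h2 h3
  have hK : (LG.germ hj).tau^[k] ((LG.germ hj).K x) = (LG.germ hj).K x := by
    have hcm : Function.Commute (LG.germ hj).tau (LG.germ hj).K := fun y =>
      (LG.germ hj).tau_K y
    rw [hcm.iterate_left k x, h1]
  have hK0 : (LG.germ hj).K x ≠ ⊥ := fun e =>
    h3 ((LG.germ hj).K_bij.1 (e.trans (LG.germ hj).K_top.symm))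
  have hK1 : (LG.germ hj).K x ≠ ⊤ := fun e =>
    h2 ((LG.germ hj).K_bij.1 (e.trans (LG.germ hj).K_bot.symm))
  obtain ⟨q', -, h6, h7⟩ := J1_low hj hc hK hK0 hK1
  have h8 : (LG.germ hj).rk ⊤ = (LG.germ hj).rk x + (LG.germ hj).rk ((LG.germ hj).K x) :=
    (LG.germ hj).rk_q le_top
  have h9 : (LG.germ hj).rk ⊤ = D.n := (D.rsys h).r_c
  have h10 := (LG.germ hj).rk_le h4
  have h11 := (LG.germ hj).rk_le h6
  have h12 : (LG.germ hj).rk x = ρ := by omega
  refine ⟨q, hq, ?_, h12⟩
  by_contra h13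
  have h14 := (LG.germ hj).rk_lt (lt_of_le_of_ne h4 (fun e => h13 e.symm))
  omega

private theorem fr_an {a b : Bool} (h1 : a = true) (h2 : b = true) : an a b = true := by
  rw [h1, h2]
  rfl

private theorem fr_allL {l : List ℕ} {p : ℕ → Bool} (hp : ∀ i ∈ l, p i = true) :
    allL l p = true := by
  induction l with
  | nil => rfl
  | cons a l ih =>
    show cond (p a) (allL l p) false = true
    rw [hp a List.mem_cons_self, cond_true]
    exact ih fun i hi => hp i (List.mem_cons_of_mem _ hi)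

private theorem fr_exB_iff {l : List ℕ} : D.exB l = true ↔
    (∀ i ∈ l, i < D.N) ∧ l.Pairwise (fun i j => CD.bit (D.zS j) i = true) := by
  induction l with
  | nil => exact ⟨fun _ => ⟨fun i hi => absurd hi List.not_mem_nil, List.Pairwise.nil⟩,
      fun _ => rfl⟩
  | cons i l ih =>
    constructor
    · intro hl
      have h1 : an (Nat.blt i D.N) (an (allL l fun j => CD.bit (D.zS j) i) (D.exB l)) = true := hl
      obtain ⟨h2, h3⟩ := an_spec h1
      obtain ⟨h4, h5⟩ := an_spec h3
      obtain ⟨h6, h7⟩ := ih.1 h5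
      refine ⟨?_, List.pairwise_cons.2 ⟨fun j hj => allL_spec h4 j hj, h7⟩⟩
      intro j hj
      rcases List.mem_cons.1 hj with rfl | hj
      · exact Nat.le_of_ble_eq_true h2
      · exact h6 j hj
    · rintro ⟨h1, h2⟩
      obtain ⟨h3, h4⟩ := List.pairwise_cons.1 h2
      show an (Nat.blt i D.N) (an (allL l fun j => CD.bit (D.zS j) i) (D.exB l)) = true
      exact fr_an (Nat.ble_eq_true_of_le (h1 i List.mem_cons_self))
        (fr_an (fr_allL h3) (ih.2 ⟨fun j hj => h1 j (List.mem_cons_of_mem _ hj), h4⟩))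

include hj in
/-- `exB (m ++ l.map ta)`: the pairs inside `m` and inside `l.map ta` (`tau_el`) are clear.  Let
`i ∈ l`, `j ∈ m`: `el [j] ≤ el m`, and `el [ta i] ≤ tau (el l) = K (K (el l)) = K (el m)`
(`tau_el`, `K_el`), so `E (β (ta i)) (β j) = 0` by `RSys.le_iff_E` (for `x = W m`). -/
theorem fu_rot {l m : List ℕ} (hl : D.fuB l m = true) : D.fuB m (l.map D.ta) = true := by
  obtain ⟨h1, h2, h3, h4⟩ := fu_ex hl
  obtain ⟨h5, h6⟩ := tau_el hj h1
  have hK : (LG.germ hj).K (el hj m) = el hj (l.map D.ta) := by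
    rw [← K_el hj hl]
    exact h6
  have hv : ((D.rsys h).W m)⁻¹ * (D.rsys h).L.c = (D.rsys h).W (l.map D.ta) := by
    have e1 : (Sim.q (el hj m) ⊤).v = (el hj (l.map D.ta)).v := congrArg Sim.v hK
    rw [Sim.q_v le_top, Sim.top_v, el_v hj h2, el_v hj h5] at e1
    exact e1
  have hm := ex_spec h h2
  have hl' := ex_spec h h5
  have b2 := fr_exB_iff.1 h2
  have b5 := fr_exB_iff.1 h5
  have hex : D.exB (m ++ l.map D.ta) = true := by
    refine fr_exB_iff.2 ⟨?_, List.pairwise_append.2 ⟨b2.2, b5.2, ?_⟩⟩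
    · intro i hi
      rcases List.mem_append.1 hi with hi | hi
      · exact b2.1 i hi
      · exact b5.1 i hi
    · intro i hi u hu
      refine (zS_iff h (b5.1 u hu) (b2.1 i hi)).2 ?_
      have c1 : (D.rsys h).L.Le ((D.rsys h).t i) ((D.rsys h).W m) :=
        ((D.rsys h).W_le hm ((D.rsys h).exc_mem hm).1).1 ((D.rsys h).L.le_refl _) i hi
      have c2 : (D.rsys h).L.Le ((D.rsys h).t u) ((D.rsys h).W (l.map D.ta)) :=
        ((D.rsys h).W_le hl' ((D.rsys h).exc_mem hl').1).1 ((D.rsys h).L.le_refl _) u hu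
      refine ((D.rsys h).le_iff_E ((D.rsys h).exc_mem hm).1 (b2.1 i hi)).1 c1 u (b5.1 u hu) ?_
      rw [hv]
      exact c2
  refine fr_an hex ?_
  have e : (m ++ l.map D.ta).length = D.n := by
    rw [List.length_append, List.length_map, add_comm, ← List.length_append]
    exact h4
  rw [e]
  exact Nat.beq_refl _

/-- `K_el`, `fu_rot` -/
theorem kp_spec {l m : List ℕ} (hl : D.fuB l m = true) (j : ℕ) :
    (LG.germ hj).K^[j] (el hj l) = el hj (D.kp j l m).1 := by
  induction j generalizing l m with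
  | zero => rfl
  | succ j ih =>
    rw [Function.iterate_succ_apply, K_el hj hl, ih (fu_rot hj hl)]
    rfl

/-- two elements of the same rank, one below the other, are equal -/
theorem two_of {k r ρ : ℕ} {xs : List (List ℕ × List ℕ)} (hc : D.tcB k r ρ xs = true)
    (hn : D.n = 2 * ρ) (hρ : 0 < ρ) : (LG.germ hj).Two k := by
  intro x hx y hy hxy
  obtain ⟨-, -, -, h1⟩ := T_of hj hc hn hρ hx
  obtain ⟨-, -, -, h2⟩ := T_of hj hc hn hρ hy
  by_contra h3
  have h4 := (LG.germ hj).rk_lt (lt_of_le_of_ne hxy h3)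
  omega

private theorem j3_allB {n : ℕ} {p : ℕ → Bool} (hp : allB n p = false) : ∃ j < n, p j = false := by
  induction n with
  | zero => exact absurd hp (by simp [allB])
  | succ n ih =>
    have h' : cond (p n) (allB n p) false = false := hp
    cases hq : p n with
    | false => exact ⟨n, Nat.lt_succ_self n, hq⟩
    | true =>
      rw [hq, cond_true] at h'
      obtain ⟨j, h1, h2⟩ := ih h'
      exact ⟨j, Nat.lt_succ_of_lt h1, h2⟩

private theorem j3_kx {b : ℕ} {l m l' m' : List ℕ} (hc : D.kxB b l m l' m' = true) :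
    ∃ j, D.eqB (D.kp j l m).1 (D.kp j l m).2 l' m' = true := by
  have h1 : cond (allB b fun j => cond (D.eqB (D.kp j l m).1 (D.kp j l m).2 l' m') false true)
    false true = true := hc
  have h2 : (allB b fun j => cond (D.eqB (D.kp j l m).1 (D.kp j l m).2 l' m') false true) = false := by
    cases h3 : (allB b fun j => cond (D.eqB (D.kp j l m).1 (D.kp j l m).2 l' m') false true) with
    | false => rfl
    | true =>
      rw [h3] at h1
      exact absurd h1 (by simp)
  obtain ⟨j, -, h4⟩ := j3_allB h2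
  refine ⟨j, ?_⟩
  cases h5 : D.eqB (D.kp j l m).1 (D.kp j l m).2 l' m' with
  | true => rfl
  | false =>
    rw [h5] at h4
    exact absurd h4 (by simp)

private theorem j3_bit (a k : ℕ) : CD.bit a k = a.testBit k := by
  rw [Nat.testBit_eq_decide_div_mod_eq]
  show Nat.beq ((a >>> k) % 2) 1 = _
  rw [Nat.shiftRight_eq_div_pow]
  cases hd : Nat.beq (a / 2 ^ k % 2) 1 with
  | true => exact (decide_eq_true (Nat.eq_of_beq_eq_true hd)).symm
  | false => exact (decide_eq_false (Nat.ne_of_beq_eq_false hd)).symm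

private theorem j3_lt (D : RD) (l : List ℕ) : D.am l < 2 ^ D.N := by
  induction l with
  | nil =>
    show 2 ^ D.N - 1 < 2 ^ D.N
    have := Nat.two_pow_pos D.N
    omega
  | cons u l ih =>
    show D.zS u &&& D.am l < 2 ^ D.N
    exact lt_of_le_of_lt Nat.and_le_right ih

private theorem j3_am {l m l' m' : List ℕ} (h1 : D.fuB l m = true) (h2 : D.fuB l' m' = true)
    (e : el hj l = el hj l') : D.am m = D.am m' := by
  apply Nat.eq_of_testBit_eq
  intro i
  rw [← j3_bit, ← j3_bit]
  by_cases hi : i < D.N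
  · have h3 := at_le_el hj h1 hi
    have h4 := at_le_el hj h2 hi
    rw [e] at h3
    have h5 := h3.symm.trans h4
    cases h6 : CD.bit (D.am m) i with
    | true => exact (h5.1 h6).symm
    | false =>
      cases h7 : CD.bit (D.am m') i with
      | false => rfl
      | true =>
        rw [h5.2 h7] at h6
        exact absurd h6 (by simp)
  · have h8 : 2 ^ D.N ≤ 2 ^ i := Nat.pow_le_pow_right (by norm_num) (by omega)
    rw [j3_bit, j3_bit, Nat.testBit_lt_two_pow (lt_of_lt_of_le (j3_lt D m) h8),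
      Nat.testBit_lt_two_pow (lt_of_lt_of_le (j3_lt D m') h8)]

/-- `faithful` as in `TD.blk_of` (`Idx.lean`): `shz n a = a`, so `shz j a = tau^[j % n] a`; if
`τ^[i] (el l) = el l`, `0 < i < k`, then the masks of the atoms are equal (`at_le_el`; the masks `am`
are `< 2 ^ N`) -/
theorem blk_of {k r ρ c b : ℕ} {l m : List ℕ} {xs : List (List ℕ × List ℕ)}
    (hc : D.blB k r ρ c b l m xs = true) :
    Frame.Blk (LG.germ hj) k (el hj l) (c : ℤ) := by
  obtain ⟨c1, hc⟩ := an_spec hc
  obtain ⟨c2, hc⟩ := an_spec hc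
  obtain ⟨c3, hc⟩ := an_spec hc
  obtain ⟨c4, hc⟩ := an_spec hc
  obtain ⟨c5, hc⟩ := an_spec hc
  obtain ⟨c6, hc⟩ := an_spec hc
  obtain ⟨c7, hc⟩ := an_spec hc
  obtain ⟨c8, c9⟩ := an_spec hc
  have hn : D.n = 2 * ρ := Nat.eq_of_beq_eq_true c1
  have hρ : 0 < ρ := Nat.le_of_ble_eq_true c2
  have hk : 0 < k := Nat.le_of_ble_eq_true c3
  have hlen : l.length = ρ := Nat.eq_of_beq_eq_true c7
  have hnat : ∀ (k : ℕ) (x : Sim hj), (LG.germ hj).shz (k : ℤ) x = (LG.germ hj).tau^[k] x := by
    intro k x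
    induction k with
    | zero => exact (LG.germ hj).shz_zero x
    | succ k ih =>
      rw [Nat.cast_succ, (LG.germ hj).shz_succ, ih, Function.iterate_succ_apply']
  have hfu : D.fuB l m = true := (an_spec (an_spec c6).2).1
  obtain ⟨hl, hm, hlm, hlm'⟩ := fu_ex hfu
  have hmlen : m.length = ρ := by
    rw [List.length_append, hn, hlen] at hlm'
    omega
  have hfx : (LG.germ hj).tau^[k] (el hj l) = el hj l := fx_el hj c6
  have hmem : el hj l ∈ (LG.germ hj).T k := by
    refine ⟨hfx, ?_, ?_⟩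
    · intro e
      have h1 := rk_el hj hl
      rw [e, (LG.germ hj).rk_bot] at h1
      omega
    · intro e
      have h1 := K_el hj hfu
      have h2 := rk_el hj hm
      rw [← h1, e, (LG.germ hj).K_top, (LG.germ hj).rk_bot] at h2
      omega
  refine ⟨two_of hj c4 hn hρ, ?_, hmem, ?_, ?_⟩
  · intro x hx y hy
    obtain ⟨q, hq, hxq, -⟩ := T_of hj c4 hn hρ hx
    obtain ⟨q', hq', hyq, -⟩ := T_of hj c4 hn hρ hy
    have h1 := alP_spec (alP_spec c5 q hq) q' hq'
    obtain ⟨j, h2⟩ := j3_kx h1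
    have h3 : D.fuB q.1 q.2 = true := by
      have h4 := alP_spec (an_spec c4).1 q hq
      exact (an_spec (an_spec (an_spec h4).1).2).1
    refine ⟨j, ?_⟩
    rw [hxq, hyq, kp_spec hj h3 j, el_eq hj h2]
  · rw [hnat, K_el hj hfu, (tau_iter_el hj hl c).2]
    exact el_eq hj c8
  · intro j hjj
    have hfix : (LG.germ hj).shz (k : ℤ) (el hj l) = el hj l := by
      rw [hnat, hfx]
    have hfix' : (LG.germ hj).shz (-(k : ℤ)) (el hj l) = el hj l := by
      have h1 := (LG.germ hj).shz_add (-(k : ℤ)) k (el hj l)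
      rw [hfix, neg_add_cancel, (LG.germ hj).shz_zero] at h1
      exact h1.symm
    have hall : ∀ q : ℤ, (LG.germ hj).shz ((k : ℤ) * q) (el hj l) = el hj l := by
      intro q
      induction q using Int.induction_on with
      | zero => rw [mul_zero, (LG.germ hj).shz_zero]
      | succ q ih =>
        rw [show (k : ℤ) * ((q : ℤ) + 1) = (k : ℤ) * q + k by ring, (LG.germ hj).shz_add, hfix, ih]
      | pred q ih =>
        rw [show (k : ℤ) * (-(q : ℤ) - 1) = (k : ℤ) * (-(q : ℤ)) + -(k : ℤ) by ring,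
          (LG.germ hj).shz_add, hfix', ih]
    have hk' : (0 : ℤ) < k := by exact_mod_cast hk
    have h0 : 0 ≤ j % (k : ℤ) := Int.emod_nonneg j hk'.ne'
    have h1 : j % (k : ℤ) < k := Int.emod_lt_of_pos j hk'
    obtain ⟨i, hi⟩ := Int.eq_ofNat_of_zero_le h0
    have hik : i < k := by
      rw [hi] at h1
      exact_mod_cast h1
    have h2 : (LG.germ hj).shz (i : ℤ) (el hj l) = el hj l := by
      have e : j = (i : ℤ) + (k : ℤ) * (j / k) := by
        rw [← hi]
        exact (Int.emod_add_mul_ediv j k).symm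
      rw [e, (LG.germ hj).shz_add, hall] at hjj
      exact hjj
    have hi0 : i = 0 := by
      by_contra hne
      have h3 := allB_spec c9 i hik
      have h6 : Nat.beq i 0 = false := by
        cases h7 : Nat.beq i 0 with
        | false => rfl
        | true => exact absurd (Nat.eq_of_beq_eq_true h7) hne
      rw [h6, cond_false] at h3
      rw [hnat, (tau_iter_el hj hl i).2] at h2
      have h8 : D.fuB (D.mvL i l) (D.mvL i m) = true := by
        have h9 := (tau_iter_el hj hlm i).1
        have h10 : D.mvL i (l ++ m) = D.mvL i l ++ D.mvL i m := List.map_append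
        rw [h10] at h9
        have h11 : (D.mvL i l ++ D.mvL i m).length = D.n := by
          rw [← h10]
          unfold mvL
          rw [List.length_map, hlm']
        show cond (D.exB (D.mvL i l ++ D.mvL i m))
          (Nat.beq (D.mvL i l ++ D.mvL i m).length D.n) false = true
        rw [h9, h11, Nat.beq_refl]
        rfl
      have h12 := j3_am hj h8 hfu h2
      rw [h12, Nat.beq_refl, cond_true] at h3
      exact absurd h3 (by simp)
    rw [hi0] at hi
    exact Int.dvd_of_emod_eq_zero (by rw [hi]; rfl)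

end RD

end Pool.Agent.SPH.RG
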