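import Pool.Agent.SPH.RG.Gcl
import Pool.Agent.SPH.RG.Emb
import Pool.Agent.SPH.RG.Blk
import Pool.Agent.SPH.Fx
import Pool.Agent.SPH.Uni

/-!
# Project SPH, root germs: the frame of the Artin group, and the final theorem for two centralisers
-/

namespace Pool.Agent.SPH.RG

open Pool.Agent.Helper7.AG Pool.Agent.HT

namespace RD

variable {D : RD} (h : D.Ok)

/-- `RC.exists_pre`, `Pre.exists_frame`; `δ = g (el [0, …, n - 1])` is the product of the
generators (`g_el`, and `exc_full` for `List.range n`) -/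
theorem exists_frame (hp : ∀ a ∈ D.rp, ∃ l, D.roB a l 0 = true)
    {M : CoxeterMatrix (Fin D.n)} {cox : ℕ → ℕ → ℕ} {l : List CD.Stp} {A0 A1 R1 : ℕ}
    (hc : D.Ck M cox l A0 A1 R1) (hf : D.fuB (List.range D.n) [] = true) :
    ∃ (L : Lattice (Artin M)) (F : Frame (LG.germ (hasJoin h hp)) (Artin M)),
      (∀ k : Fin D.n, F.g (el (hasJoin h hp) [(k : ℕ)]) = PresentedGroup.of k) ∧
        (∀ k, F.len (PresentedGroup.of k) = 1) ∧ F.δ = coxEl M := by
  obtain ⟨P, hPg, hPl⟩ := (rc h hp hc).exists_pre (hasJoin h hp)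
  obtain ⟨L, F, hg, hl⟩ := P.exists_frame
  have hk : ∀ k : Fin D.n, (k : ℕ) < D.N := fun k => lt_of_lt_of_le k.2 h.hn
  have hof : ∀ k : Fin D.n, F.g (el (hasJoin h hp) [(k : ℕ)]) = PresentedGroup.of k := by
    intro k
    rw [hg]
    refine hPg k _ ?_
    rw [el_at (hasJoin h hp) (hk k)]
    rfl
  refine ⟨L, F, hof, ?_, ?_⟩
  · intro k
    rw [hl]
    exact hPl k
  · obtain ⟨h1, _, h2, h3⟩ := fu_ex hf
    have h4 : el (hasJoin h hp) (List.range D.n) = ⊤ := by
      apply Sim.ext'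
      rw [el_v (hasJoin h hp) h1]
      rfl
    have h5 := g_el (hasJoin h hp) F h1
    rw [h4, F.g_top] at h5
    rw [h5]
    unfold coxEl
    congr 1
    rw [List.ofFn_eq_map, ← List.map_coe_finRange_eq_range, List.map_map]
    exact List.map_congr_left fun k _ => hof k

/-- the checks that `el l` is moved by `τ ^ i`, `0 < i < k` -/
def mvB (D : RD) (k : ℕ) (l m : List ℕ) : Bool :=
  allB k fun i => cond (Nat.beq i 0) true (an (D.fuB (D.mvL i l) (D.mvL i m))
    (cond (Nat.beq (D.am (D.mvL i m)) (D.am m)) false true))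

theorem moved_el (hj : (D.rsys h).L.HasJoin) {k : ℕ} {l m : List ℕ} (hf : D.fuB l m = true)
    (hc : D.mvB k l m = true) (i : ℕ) (h1 : 0 < i) (h2 : i < k) :
    (LG.germ hj).tau^[i] (el hj l) ≠ el hj l := by
  intro e
  have h3 := allB_spec hc i h2
  have h4 : Nat.beq i 0 = false := by
    cases h5 : Nat.beq i 0 with
    | false => rfl
    | true =>
      have := Nat.eq_of_beq_eq_true h5
      omega
  rw [h4] at h3
  obtain ⟨h5, h6⟩ := an_spec h3
  rw [(tau_iter_el hj (fu_ex hf).1 i).2] at e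
  have h7 := JD.jm_inj hj h5 hf e
  rw [h7, Nat.beq_refl] at h6
  exact absurd h6 (by decide)

end RD

/-- `br_of`: `s t s = t s t`, so `t = (s t) s (s t)⁻¹` -/
theorem isConj_three {T : Type*} {M : CoxeterMatrix T} {s t : T} (h : M s t = 3) :
    IsConj (PresentedGroup.of s : Artin M) (PresentedGroup.of t) := by
  have h1 := (br_of (M := M) s t).2.1 h
  refine isConj_iff.2 ⟨PresentedGroup.of s * PresentedGroup.of t, ?_⟩
  rw [h1]
  group

end Pool.Agent.SPH.RG
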