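import Pool.Agent.SPH.RG.Api
import Pool.Agent.SPH.Gen
import Pool.Agent.SPH.Idx

/-!
# Project SPH, root germs: generation certificates

The named elements have numbers: the element number `i` is `el (s1 i)` with the complement
`el (s2 i)`.  `tr` is a list of triples `(x, q, z)` of numbers with `x q = z`.
-/

namespace Pool.Agent.SPH.RG

open Pool.Agent.Helper7.AG

/-- the data of a generation certificate -/
structure GD where
  /-- the named elements -/
  nm : List (List ℕ × List ℕ)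
  /-- the products -/
  tr : List (ℕ × ℕ × ℕ)
  /-- the numbers of the generators -/
  ga : ℕ → ℕ
  /-- the numbers of the elements `δ s⁻¹` -/
  gb : ℕ → ℕ

namespace GD

variable (C : GD) (D : RD)

/-- the sequence of an element -/
def s1 (i : ℕ) : List ℕ := (C.nm.getD i ([], [])).1

/-- the sequence of the complement -/
def s2 (i : ℕ) : List ℕ := (C.nm.getD i ([], [])).2

/-- the number of elements -/
def nN : ℕ := C.nm.length

/-- the product, from the list of triples -/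
def tm (x q : ℕ) : ℕ :=
  List.rec 0 (fun p _ r => cond (an (Nat.beq p.1 x) (Nat.beq p.2.1 q)) p.2.2 r) C.tr

/-- `x q` is the element `tm x q` -/
def le (q x : ℕ) : Bool := D.muB (C.s1 x) (C.s1 q) (C.s1 (C.tm x q)) (C.s2 (C.tm x q))

/-- the element is fixed by `τ ^ n1` or by `τ ^ n2` -/
def fx (n1 n2 x : ℕ) : Bool :=
  cond (D.fxB n1 (C.s1 x) (C.s2 x)) true (D.fxB n2 (C.s1 x) (C.s2 x))

/-- the list is `[k]` -/
def isS (l : List ℕ) (k : ℕ) : Bool :=
  List.rec false (fun i l _ => an (Nat.beq i k) (List.rec true (fun _ _ _ => false) l)) l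

theorem isS_spec {l : List ℕ} {k : ℕ} (h : isS l k = true) : l = [k] := by
  cases l with
  | nil => exact absurd h (by simp [isS])
  | cons i l =>
    have h1 : an (Nat.beq i k) (List.rec true (fun _ _ _ => false) l : Bool) = true := h
    obtain ⟨h2, h3⟩ := an_spec h1
    cases l with
    | nil => rw [Nat.eq_of_beq_eq_true h2]
    | cons j l => exact absurd h3 (by simp)

/-- the generators `s` and the elements `δ s⁻¹` are in the mask `Z` -/
def fin (Z : ℕ) : Bool := allB D.n fun k => an (CD.bit Z (C.ga k)) (an (CD.bit Z (C.gb k))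
  (an (isS (C.s1 (C.ga k)) k) (an (isS (C.s2 (C.gb k)) k)
    (D.fuB (C.s1 (C.gb k)) (C.s2 (C.gb k))))))

variable {C D} {h : D.Ok} (hj : (D.rsys h).L.HasJoin)

/-- the element with a number -/
noncomputable def gN {G : Type*} [Group G] [Lattice G] (C : GD) (F : Frame (LG.germ hj) G)
    (i : ℕ) : G := F.g (RD.el hj (C.s1 i))

variable {G : Type*} [Group G] [Lattice G] (F : Frame (LG.germ hj) G)

/-- `RD.g_mu` -/
theorem gN_mul (x : ℕ) (_ : x < C.nN) (q : ℕ) (_ : q < C.nN) (e : C.le D q x = true) :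
    gN hj C F (C.tm x q) = gN hj C F x * gN hj C F q :=
  (RD.g_mu hj F e).symm

/-- `RD.fx_el`, `g_mem_Cn` -/
theorem gN_fx {n1 n2 : ℕ} (x : ℕ) (_ : x < C.nN) (e : C.fx D n1 n2 x = true) :
    gN hj C F x ∈ F.Cn n1 ⊔ F.Cn n2 := by
  have e' : cond (D.fxB n1 (C.s1 x) (C.s2 x)) true (D.fxB n2 (C.s1 x) (C.s2 x)) = true := e
  cases hc : D.fxB n1 (C.s1 x) (C.s2 x) with
  | true =>
    exact (le_sup_left : F.Cn n1 ≤ F.Cn n1 ⊔ F.Cn n2) (F.g_mem_Cn.2 (RD.fx_el hj hc))
  | false =>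
    rw [hc] at e'
    exact (le_sup_right : F.Cn n2 ≤ F.Cn n1 ⊔ F.Cn n2) (F.g_mem_Cn.2 (RD.fx_el hj e'))

private theorem fin_spec {Z : ℕ} (hz : C.fin D Z = true) {k : ℕ} (hk : k < D.n) :
    CD.bit Z (C.ga k) = true ∧ CD.bit Z (C.gb k) = true ∧ C.s1 (C.ga k) = [k] ∧
      C.s2 (C.gb k) = [k] ∧ D.fuB (C.s1 (C.gb k)) (C.s2 (C.gb k)) = true := by
  obtain ⟨h1, h2⟩ := an_spec (allB_spec hz k hk)
  obtain ⟨h3, h4⟩ := an_spec h2
  obtain ⟨h5, h6⟩ := an_spec h4
  obtain ⟨h7, h8⟩ := an_spec h6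
  exact ⟨h1, h3, isS_spec h5, isS_spec h7, h8⟩

/-- as `AD.gen_two` -/
theorem gen_two {M : CoxeterMatrix (Fin D.n)} [Lattice (Artin M)]
    (F : Frame (LG.germ hj) (Artin M))
    (hg : ∀ k : Fin D.n, F.g (RD.el hj [(k : ℕ)]) = PresentedGroup.of k)
    {n1 n2 Z0 Z1 : ℕ} {k0 : Fin D.n} {l : List Gen.Stp}
    (hr : Gen.run C.nN (fun x => x) (C.le D) C.tm (C.fx D n1 n2) Z0 Z1 l 0
      (CD.ins 0 (C.ga k0)) = true)
    (hz : C.fin D Z1 = true) (u : Artin M) :
    u ∈ F.Cn n1 ⊔ F.Cn n2 ∨ u * (PresentedGroup.of k0)⁻¹ ∈ F.Cn n1 ⊔ F.Cn n2 := by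
  have ga : ∀ k : Fin D.n, gN hj C F (C.ga k) = PresentedGroup.of k := by
    intro k
    unfold gN
    rw [(fin_spec hz k.2).2.2.1]
    exact hg k
  have hI : Gen.Inv (F.Cn n1 ⊔ F.Cn n2) (PresentedGroup.of k0 : Artin M) (gN hj C F) Z0 Z1 := by
    refine Gen.run_sound (gN_mul hj F) (gN_fx hj F) ⟨?_, ?_⟩ hr
    · intro x hx
      rw [CD.bit_zero] at hx
      exact absurd hx (by simp)
    · intro x hx
      rcases CD.bit_ins.1 hx with e | e
      · rw [← e, ga k0, mul_inv_cancel]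
        exact Subgroup.one_mem _
      · rw [CD.bit_zero] at e
        exact absurd e (by simp)
  refine Gen.two (W := Set.range fun k : Fin D.n => (PresentedGroup.of k : Artin M))
    (PresentedGroup.closure_range_of _) ?_ u
  rintro _ ⟨k, rfl⟩
  obtain ⟨h1, h2, -, h4, h5⟩ := fin_spec hz k.2
  have h6 := hI.2 _ h1
  rw [ga k] at h6
  refine ⟨h6, gN hj C F (C.gb k), hI.2 _ h2, ?_⟩
  have h7 := F.g_K (RD.el hj (C.s1 (C.gb k)))
  rw [RD.K_el hj h5, h4, hg k] at h7
  change gN hj C F (C.gb k) * PresentedGroup.of k ∈ _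
  unfold gN
  rw [h7]
  exact (le_sup_left : F.Cn n1 ≤ F.Cn n1 ⊔ F.Cn n2) (F.δ_mem_Cn n1)

end GD

end Pool.Agent.SPH.RG
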