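import Pool.Agent.SPH.RG.Dat1

/-!
# Project SPH, root germs: no diagram automorphisms, by a search
-/

namespace Pool.Agent.SPH.RG

namespace RD

variable (D : RD)

/-- `l = [σ (k - 1), …, σ 0]` is the list of the first values of a map, `K = l.length`; the value
`x` at `K` is compatible with the form -/
def coB (K x : ℕ) (l : List ℕ) : Bool :=
  List.rec true (fun y l' r => an (Nat.beq (Nat.add (D.bp x y) (D.bm K l'.length))
    (Nat.add (D.bp K l'.length) (D.bm x y))) r) l

/-- the list is `[k - 1, …, 0]` -/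
def idB (l : List ℕ) : Bool := List.rec true (fun y l' r => an (Nat.beq y l'.length) r) l

/-- all the compatible extensions of the list `l` by `k` values are trivial -/
def auB (k : ℕ) : List ℕ → Bool :=
  Nat.rec (fun l => idB l)
    (fun _ r l => allB D.n fun x => cond (D.coB l.length x l) (r (x :: l)) true) k

variable {D}

/-- the list `[s (k - 1), …, s 0]` -/
private def lsG13 (s : ℕ → ℕ) : ℕ → List ℕ
  | 0 => []
  | k + 1 => s k :: lsG13 s k

private theorem lsG13_length (s : ℕ → ℕ) : ∀ k, (lsG13 s k).length = k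
  | 0 => rfl
  | k + 1 => by
    rw [lsG13, List.length_cons, lsG13_length s k]

private theorem an_G13 {a b : Bool} (h1 : a = true) (h2 : b = true) : an a b = true := by
  subst h1 h2
  rfl

private theorem coB_G13 {K x : ℕ} (s : ℕ → ℕ) : ∀ j,
    (∀ i < j, D.bp x (s i) + D.bm K i = D.bp K i + D.bm x (s i)) →
      D.coB K x (lsG13 s j) = true
  | 0, _ => rfl
  | j + 1, h => by
    have h1 : D.coB K x (lsG13 s (j + 1)) =
        an (Nat.beq (Nat.add (D.bp x (s j)) (D.bm K (lsG13 s j).length))
          (Nat.add (D.bp K (lsG13 s j).length) (D.bm x (s j)))) (D.coB K x (lsG13 s j)) := rfl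
    rw [h1, lsG13_length]
    exact an_G13 (Nat.beq_eq.mpr (h j (by omega))) (coB_G13 s j fun i hi => h i (by omega))

private theorem idB_G13 (s : ℕ → ℕ) : ∀ j, idB (lsG13 s j) = true → ∀ i < j, s i = i
  | 0, _ => fun i hi => absurd hi (by omega)
  | j + 1, h => by
    have h1 : idB (lsG13 s (j + 1)) =
        an (Nat.beq (s j) (lsG13 s j).length) (idB (lsG13 s j)) := rfl
    rw [h1, lsG13_length] at h
    obtain ⟨h2, h3⟩ := an_spec h
    intro i hi
    rcases Nat.lt_succ_iff_lt_or_eq.1 hi with h4 | h4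
    · exact idB_G13 s j h3 i h4
    · subst h4
      exact Nat.eq_of_beq_eq_true h2

/-- For `k ≤ n` let `l k = [σ (k - 1), …, σ 0]` (`l (k + 1) = σ k :: l k`).  By induction on `k`,
`auB (n - k) (l k) = true` (`coB` by `symB_be`); for `k = n` this is `idB (l n) = true`. -/
theorem noaut_of (h : D.edB = true) (hc : D.auB D.n [] = true) (σ : Fin D.n → Fin D.n)
    (hσ : ∀ i j, symB D.eF (D.be (σ i)) (D.be (σ j)) = symB D.eF (D.be i) (D.be j)) :
    ∀ i, σ i = i := by
  obtain ⟨s, hs⟩ : ∃ s : ℕ → ℕ, ∀ i (hi : i < D.n), s i = σ ⟨i, hi⟩ :=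
    ⟨fun i => if hi : i < D.n then σ ⟨i, hi⟩ else 0, fun i hi => dif_pos hi⟩
  have hco : ∀ k < D.n, D.coB k (s k) (lsG13 s k) = true := by
    intro k hk
    refine coB_G13 s k fun i hi => ?_
    have h1 := hσ ⟨k, hk⟩ ⟨i, by omega⟩
    rw [← hs k hk, ← hs i (by omega), symB_be h, symB_be h] at h1
    have h2 : ((D.bp (s k) (s i) + D.bm k i : ℕ) : ℚ) = ((D.bp k i + D.bm (s k) (s i) : ℕ) : ℚ) := by
      push_cast
      linarith
    exact_mod_cast h2
  have hau : ∀ k, k ≤ D.n → D.auB (D.n - k) (lsG13 s k) = true := by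
    intro k
    induction k with
    | zero => exact fun _ => hc
    | succ k ih =>
      intro hk
      have h1 := ih (by omega)
      obtain ⟨m, hm⟩ : ∃ m, D.n - k = m + 1 := ⟨D.n - (k + 1), by omega⟩
      have hm' : D.n - (k + 1) = m := by omega
      rw [hm] at h1
      have h2 : D.auB (m + 1) (lsG13 s k) = allB D.n fun x =>
          cond (D.coB (lsG13 s k).length x (lsG13 s k)) (D.auB m (x :: lsG13 s k)) true := rfl
      rw [h2] at h1
      have hlt : s k < D.n := by
        rw [hs k (by omega)]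
        exact (σ ⟨k, by omega⟩).2
      have h3 : cond (D.coB (lsG13 s k).length (s k) (lsG13 s k))
          (D.auB m (s k :: lsG13 s k)) true = true := allB_spec h1 (s k) hlt
      rw [lsG13_length, hco k (by omega)] at h3
      rw [hm']
      exact h3
  have h1 : idB (lsG13 s D.n) = true := by
    have h2 := hau D.n le_rfl
    rw [Nat.sub_self] at h2
    exact h2
  intro i
  have h2 := idB_G13 s D.n h1 i.1 i.2
  rw [hs i.1 i.2] at h2
  exact Fin.ext h2

end RD

end Pool.Agent.SPH.RG
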