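import Pool.Agent.SPH.RG.Gcl

/-!
# Project SPH, root germs: generation certificates with one mask
-/

namespace Pool.Agent.SPH.RG

open Pool.Agent.Helper7.AG

namespace GD

variable {C : GD} {D : RD} {h : D.Ok} (hj : (D.rsys h).L.HasJoin)

/-- the generators are in the mask `Z` -/
def fin1 (C : GD) (D : RD) (Z : ℕ) : Bool :=
  allB D.n fun k => an (CD.bit Z (C.ga k)) (isS (C.s1 (C.ga k)) k)

/-- a subgroup which contains `Cn n1` and the named element with the number `i0` is everything -/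
theorem gen_one {M : CoxeterMatrix (Fin D.n)} [Lattice (Artin M)]
    (F : Frame (LG.germ hj) (Artin M))
    (hg : ∀ k : Fin D.n, F.g (RD.el hj [(k : ℕ)]) = PresentedGroup.of k)
    {n1 Z0 Z1 i0 : ℕ} {l : List Gen.Stp}
    (hr : Gen.run C.nN (fun x => x) (C.le D) C.tm (C.fx D n1 n1) Z0 Z1 l (CD.ins 0 i0) 0 = true)
    (hz : C.fin1 D Z0 = true) {U : Subgroup (Artin M)} (hU : F.Cn n1 ≤ U)
    (h0 : F.g (RD.el hj (C.s1 i0)) ∈ U) : U = ⊤ := by
  have hI : Gen.Inv U (1 : Artin M) (gN hj C F) Z0 Z1 := by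
    refine Gen.run_sound (gN_mul hj F) (fun x hx e => ?_) ⟨?_, ?_⟩ hr
    · have h1 := gN_fx hj F x hx e
      rw [sup_idem] at h1
      exact hU h1
    · intro x hx
      rcases CD.bit_ins.1 hx with e | e
      · rw [← e]
        exact h0
      · rw [CD.bit_zero] at e
        exact absurd e (by simp)
    · intro x hx
      rw [CD.bit_zero] at hx
      exact absurd hx (by simp)
  rw [eq_top_iff, ← PresentedGroup.closure_range_of, Subgroup.closure_le]
  rintro _ ⟨k, rfl⟩
  obtain ⟨h1, h2⟩ := an_spec (allB_spec hz k k.2)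
  have h3 := hI.1 _ h1
  unfold gN at h3
  rw [isS_spec h2, hg k] at h3
  exact h3

end GD

end Pool.Agent.SPH.RG
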