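import Pool.Agent.SPH.RG.Api
import Pool.Agent.SPH.RG.Asm
import Pool.Agent.SPH.Pl7

/-!
# Project SPH, root germs: certificates for the operators `t ↦ u⁻¹ (u ⊔ t)`, and rewriting of words
-/

namespace Pool.Agent.SPH.RG

/-- a step of a certificate: the number of the condition, the intermediate atoms, the new atoms -/
abbrev LSt : Type := ℕ × List (List ℕ) × List ℕ

/-- a rewriting step: `pre ++ l ++ post` becomes `pre ++ l' ++ post`; `c` is the complement -/
structure RW where
  /-- before -/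
  pre : List ℕ
  /-- the part which is replaced -/
  l : List ℕ
  /-- the new part -/
  l' : List ℕ
  /-- after -/
  post : List ℕ
  /-- the complement of `l` and of `l'` -/
  c : List ℕ

/-- equality of lists -/
def beqL : List ℕ → List ℕ → Bool
  | [], [] => true
  | i :: l, j :: l' => an (Nat.beq i j) (beqL l l')
  | _, _ => false

theorem beqL_spec : ∀ {l l' : List ℕ}, beqL l l' = true → l = l'
  | [], [], _ => rfl
  | i :: l, j :: l', h => by
    obtain ⟨h1, h2⟩ := an_spec (show an (Nat.beq i j) (beqL l l') = true from h)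
    rw [Nat.eq_of_beq_eq_true h1, beqL_spec h2]
  | [], _ :: _, h => absurd h (by simp [beqL])
  | _ :: _, [], h => absurd h (by simp [beqL])

namespace RD

section Defs

variable (D : RD)

/-- the atoms `js` are below `u⁻¹ (u ⊔ x)`, `u = el lu`, if the atoms `A` are below `x` -/
def fjB (lu A js : List ℕ) : Bool :=
  allL js fun j => an (D.exB (lu ++ [j])) (D.clL (lu ++ A) [j])

/-- the same for a list of elements `u`, with the atoms in all steps -/
def chB : List (List ℕ) → List (List ℕ) → List ℕ → Bool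
  | [], [], _ => true
  | lu :: us, J :: Js, A => an (D.fjB lu A J) (chB us Js J)
  | _, _, _ => false

/-- the conditions: `(p, r, us)` stands for `fs us (τ ^ p x) ≤ τ ^ r x` -/
def cdB (cs : List (ℕ × ℕ × List (List ℕ))) (st : LSt) (A : List ℕ) : Bool :=
  an (D.chB (cs.getD st.1 (0, 0, [])).2.2
      (st.2.1 ++ [D.mvL (cs.getD st.1 (0, 0, [])).2.1 st.2.2])
      (D.mvL (cs.getD st.1 (0, 0, [])).1 A))
    (allL st.2.2 fun i => Nat.blt i D.N)

/-- some element of the list satisfies `p` -/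
def exL (gs : List (List ℕ)) (p : List ℕ → Bool) : Bool :=
  List.rec false (fun g _ r => cond (p g) true r) gs

/-- run a list of steps: the atoms of an element of `gs` are reached -/
def lpB (cs : List (ℕ × ℕ × List (List ℕ))) (gs : List (List ℕ)) : List LSt → List ℕ → Bool
  | [], A => exL gs fun g => D.clL A g
  | st :: l, A => an (D.cdB cs st A) (lpB cs gs l (A ++ st.2.2))

/-- all the certificates -/
def loB (cs : List (ℕ × ℕ × List (List ℕ))) (gs : List (List ℕ)) (ce : List (List LSt)) : Bool :=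
  allB D.N fun i => D.lpB cs gs (ce.getD i []) [i]

/-- equality of words by a list of rewriting steps -/
def rwB : List RW → List ℕ → List ℕ → Bool
  | [], w, w' => beqL w w'
  | s :: r, w, w' => an (beqL w (s.pre ++ (s.l ++ s.post))) (an (D.fuB s.l s.c)
      (an (D.fuB s.l' s.c) (rwB r (s.pre ++ (s.l' ++ s.post)) w')))

/-- `K (el l) ⊓ el l = ⊥`, where `K (el l) = el m`, `K (el m) = el m'` -/
def kiB (l m m' b : List ℕ) : Bool :=
  an (D.fuB l m) (an (D.fuB m m') (an (D.fuB [] b)
    (Nat.beq (Nat.land (D.am m') (D.am m)) (D.am b))))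

end Defs

variable {D : RD} {h : D.Ok} (hj : (D.rsys h).L.HasJoin)

theorem el_nil : el hj [] = (⊥ : Sim hj) := by
  apply Sim.ext'
  rw [el_v hj (rfl : D.exB [] = true), Sim.bot_v, RSys.W_nil]

theorem exL_spec {gs : List (List ℕ)} {p : List ℕ → Bool} (hc : exL gs p = true) :
    ∃ g ∈ gs, p g = true := by
  induction gs with
  | nil => exact absurd (show false = true from hc) Bool.false_ne_true
  | cons g gs ih =>
    have h1 : cond (p g) true (exL gs p) = true := hc
    cases h2 : p g with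
    | true => exact ⟨g, List.mem_cons_self, h2⟩
    | false =>
      rw [h2, cond_false] at h1
      obtain ⟨g', h3, h4⟩ := ih h1
      exact ⟨g', List.mem_cons_of_mem _ h3, h4⟩

private theorem lo_ex (h : D.Ok) {l : List ℕ} {j : ℕ} (hl : D.exB (l ++ [j]) = true) :
    (∀ i ∈ l, i < D.N) ∧ j < D.N ∧ D.exB [j] = true := by
  have h1 := ex_spec h hl
  have hjN : j < D.N := h1.1 j (List.mem_append_right _ (List.mem_singleton.2 rfl))
  refine ⟨fun i hi => h1.1 i (List.mem_append_left _ hi), hjN, ?_⟩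
  have h2 : Nat.blt j D.N = true := Nat.ble_eq_true_of_le hjN
  show an (Nat.blt j D.N) (an (allL [] fun j' => CD.bit (D.zS j') j) true) = true
  rw [h2]
  rfl

private theorem lo_left {l l' : List ℕ} (hl : D.exB (l ++ l') = true) : D.exB l = true := by
  induction l with
  | nil => rfl
  | cons i l ih =>
    have h1 : an (Nat.blt i D.N)
        (an (allL (l ++ l') fun j => CD.bit (D.zS j) i) (D.exB (l ++ l'))) = true := hl
    obtain ⟨h2, h3⟩ := an_spec h1
    obtain ⟨h4, h5⟩ := an_spec h3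
    have h6 : (allL l fun j => CD.bit (D.zS j) i) = true := by
      have h7 := allL_spec h4
      clear ih h1 h2 h3 h4 h5 hl
      induction l with
      | nil => rfl
      | cons k l ih =>
        show cond (CD.bit (D.zS k) i) (allL l fun j => CD.bit (D.zS j) i) false = true
        rw [h7 k List.mem_cons_self, cond_true]
        exact ih fun j hj => h7 j (List.mem_cons_of_mem _ hj)
    show an (Nat.blt i D.N) (an (allL l fun j => CD.bit (D.zS j) i) (D.exB l)) = true
    rw [h2, h6, ih h5]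
    rfl

theorem fj_spec {lu A js : List ℕ} (hc : D.fjB lu A js = true) {x : Sim hj}
    (hA : ∀ i ∈ A, i < D.N ∧ el hj [i] ≤ x) :
    ∀ j ∈ js, j < D.N ∧ el hj [j] ≤ (LG.germ hj).q (el hj lu) (el hj lu ⊔ x) := by
  intro j hjs
  obtain ⟨h1, h2⟩ := an_spec (allL_spec hc j hjs)
  obtain ⟨h3, h4, h5⟩ := lo_ex h h1
  have h6 : D.exB lu = true := lo_left h1
  obtain ⟨h7, h8⟩ := q_el hj h1
  refine ⟨h4, ?_⟩
  rw [← h8]
  have hlu : ∀ i ∈ lu, el hj [i] ≤ el hj lu := (el_le hj h6).1 le_rfl
  have hB : ∀ i ∈ lu ++ A, i < D.N ∧ el hj [i] ≤ el hj lu ⊔ x := by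
    intro i hi
    rcases List.mem_append.1 hi with hi | hi
    · exact ⟨h3 i hi, (hlu i hi).trans le_sup_left⟩
    · exact ⟨(hA i hi).1, (hA i hi).2.trans le_sup_right⟩
  have h9 : el hj (lu ++ [j]) ≤ el hj lu ⊔ x := by
    rw [el_le hj h1]
    intro i hi
    rcases List.mem_append.1 hi with hi | hi
    · exact (hlu i hi).trans le_sup_left
    · exact cl_at hj hB h2 i hi
  exact (LG.germ hj).q_mono h7 h9

theorem ch_spec {us : List (List ℕ)} : ∀ {Js : List (List ℕ)} {T A : List ℕ} {x : Sim hj},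
    D.chB us (Js ++ [T]) A = true → (∀ i ∈ A, i < D.N ∧ el hj [i] ≤ x) →
    ∀ j ∈ T, j < D.N ∧ el hj [j] ≤ (LG.germ hj).fs (us.map (el hj)) x := by
  induction us with
  | nil =>
    intro Js T A x hc _
    cases Js with
    | nil => exact absurd hc (by simp [chB])
    | cons J Js => exact absurd hc (by simp [chB])
  | cons lu us ih =>
    intro Js T A x hc hA
    cases Js with
    | nil =>
      obtain ⟨h1, h2⟩ := an_spec (show an (D.fjB lu A T) (D.chB us [] T) = true from hc)
      cases us with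
      | nil => exact fj_spec hj h1 hA
      | cons lu' us => exact absurd h2 (by simp [chB])
    | cons J Js =>
      obtain ⟨h1, h2⟩ := an_spec
        (show an (D.fjB lu A J) (D.chB us (Js ++ [T]) J) = true from hc)
      exact ih h2 (fj_spec hj h1 hA)

theorem el_tau {i : ℕ} (hi : i < D.N) (k : ℕ) :
    itN D.ta k i < D.N ∧ (LG.germ hj).tau^[k] (el hj [i]) = el hj [itN D.ta k i] := by
  have hex : D.exB [i] = true := by
    have h2 : Nat.blt i D.N = true := Nat.ble_eq_true_of_le hi
    show an (Nat.blt i D.N) (an (allL [] fun j' => CD.bit (D.zS j') i) true) = true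
    rw [h2]
    rfl
  obtain ⟨h1, h2⟩ := tau_iter_el hj hex k
  exact ⟨(ex_spec h h1).1 _ (List.mem_singleton.2 rfl), h2⟩

theorem cd_spec {cs : List (ℕ × ℕ × List (List ℕ))} {st : LSt} {A : List ℕ}
    (hc : D.cdB cs st A = true) {x : Sim hj}
    (hx : ∀ c ∈ cs, (LG.germ hj).fs (c.2.2.map (el hj)) ((LG.germ hj).tau^[c.1] x) ≤
      (LG.germ hj).tau^[c.2.1] x)
    (hA : ∀ i ∈ A, i < D.N ∧ el hj [i] ≤ x) :
    ∀ j ∈ A ++ st.2.2, j < D.N ∧ el hj [j] ≤ x := by
  obtain ⟨h1, h2⟩ := an_spec hc
  intro j hjm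
  rcases List.mem_append.1 hjm with hjm | hjm
  · exact hA j hjm
  have hjN : j < D.N := Nat.le_of_ble_eq_true (allL_spec h2 j hjm)
  refine ⟨hjN, ?_⟩
  set c := cs.getD st.1 (0, 0, []) with hcd
  have hm : Monotone (LG.germ hj).tau := fun _ _ h => (LG.germ hj).tau_mono h
  have h3 : ∀ i ∈ D.mvL c.1 A, i < D.N ∧ el hj [i] ≤ (LG.germ hj).tau^[c.1] x := by
    intro i hi
    obtain ⟨i', hi', rfl⟩ := List.mem_map.1 hi
    obtain ⟨h4, h5⟩ := el_tau hj (hA i' hi').1 c.1
    refine ⟨h4, ?_⟩
    rw [← h5]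
    exact hm.iterate c.1 (hA i' hi').2
  have hmem : c ∈ cs ∨ c.2.2 = [] := by
    by_cases hlt : st.1 < cs.length
    · left
      rw [hcd, List.getD_eq_getElem _ _ hlt]
      exact List.getElem_mem hlt
    · right
      rw [hcd, List.getD_eq_default _ _ (by omega)]
  rcases hmem with hmem | hmem
  · have h4 := ch_spec hj h1 h3 (itN D.ta c.2.1 j) (List.mem_map.2 ⟨j, hjm, rfl⟩)
    have h5 := h4.2.trans (hx c hmem)
    rw [← (el_tau hj hjN c.2.1).2] at h5
    clear_value c
    clear h1 h3 hx hmem h4 hcd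
    generalize c.2.1 = n at h5
    induction n with
    | zero => exact h5
    | succ n ih =>
      rw [Function.iterate_succ_apply', Function.iterate_succ_apply',
        (LG.germ hj).tau_le_iff] at h5
      exact ih h5
  · rw [hmem] at h1
    cases hst : st.2.1 with
    | nil =>
      rw [hst] at h1
      exact absurd h1 (by simp [chB])
    | cons J Js =>
      rw [hst] at h1
      exact absurd h1 (by simp [chB])

theorem lp_spec {cs : List (ℕ × ℕ × List (List ℕ))} {gs : List (List ℕ)} {x : Sim hj}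
    (hx : ∀ c ∈ cs, (LG.germ hj).fs (c.2.2.map (el hj)) ((LG.germ hj).tau^[c.1] x) ≤
      (LG.germ hj).tau^[c.2.1] x) {l : List LSt} : ∀ {A : List ℕ},
    D.lpB cs gs l A = true → (∀ i ∈ A, i < D.N ∧ el hj [i] ≤ x) →
    ∃ g ∈ gs, ∀ j ∈ g, el hj [j] ≤ x := by
  induction l with
  | nil =>
    intro A hc hA
    obtain ⟨g, h1, h2⟩ := exL_spec (show (exL gs fun g => D.clL A g) = true from hc)
    exact ⟨g, h1, cl_at hj hA h2⟩
  | cons st l ih =>
    intro A hc hA
    obtain ⟨h1, h2⟩ := an_spec (show an (D.cdB cs st A) (D.lpB cs gs l (A ++ st.2.2)) = true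
      from hc)
    exact ih h2 (cd_spec hj h1 hx hA)

theorem lo_spec {cs : List (ℕ × ℕ × List (List ℕ))} {gs : List (List ℕ)} {ce : List (List LSt)}
    (hc : D.loB cs gs ce = true) {x : Sim hj} (h0 : x ≠ ⊥)
    (hx : ∀ c ∈ cs, (LG.germ hj).fs (c.2.2.map (el hj)) ((LG.germ hj).tau^[c.1] x) ≤
      (LG.germ hj).tau^[c.2.1] x) : ∃ g ∈ gs, ∀ j ∈ g, el hj [j] ≤ x := by
  obtain ⟨i, hi, h1⟩ := ex_at hj h0
  refine lp_spec hj hx (allB_spec hc i hi) ?_
  intro j hjm
  rw [List.mem_singleton.1 hjm]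
  exact ⟨hi, h1⟩

theorem ki_spec {l m m' b : List ℕ} (hc : D.kiB l m m' b = true) :
    (LG.germ hj).K (el hj l) ⊓ el hj l = ⊥ := by
  obtain ⟨h1, hc⟩ := an_spec hc
  obtain ⟨h2, hc⟩ := an_spec hc
  obtain ⟨h3, h4⟩ := an_spec hc
  rw [K_el hj h1, inf_el hj h2 h1 h3 h4, el_nil]

section Fr

variable {G : Type*} [Group G] [Lattice G] (F : Frame (LG.germ hj) G)

/-- the value of a word -/
noncomputable def wv (w : List ℕ) : G := (w.map fun i => F.g (el hj [i])).prod

theorem wv_append (w w' : List ℕ) : wv hj F (w ++ w') = wv hj F w * wv hj F w' := by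
  unfold wv
  rw [List.map_append, List.prod_append]

theorem wv_el {l : List ℕ} (hl : D.exB l = true) : wv hj F l = F.g (el hj l) :=
  (g_el hj F hl).symm

theorem wv_one (i : ℕ) : wv hj F [i] = F.g (el hj [i]) := by
  unfold wv
  rw [List.map_cons, List.map_nil, List.prod_cons, List.prod_nil, mul_one]

theorem rw_spec {r : List RW} : ∀ {w w' : List ℕ}, D.rwB r w w' = true →
    wv hj F w = wv hj F w' := by
  induction r with
  | nil =>
    intro w w' hc
    rw [beqL_spec (show beqL w w' = true from hc)]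
  | cons s r ih =>
    intro w w' hc
    obtain ⟨h1, hc⟩ := an_spec (show an (beqL w (s.pre ++ (s.l ++ s.post)))
      (an (D.fuB s.l s.c) (an (D.fuB s.l' s.c) (D.rwB r (s.pre ++ (s.l' ++ s.post)) w')))
        = true from hc)
    obtain ⟨h2, hc⟩ := an_spec hc
    obtain ⟨h3, h4⟩ := an_spec hc
    have h5 : el hj s.l = el hj s.l' := by
      have h6 : D.muB [] s.l s.l' s.c = true := by
        show an (D.fuB s.l s.c) (D.fuB s.l' s.c) = true
        rw [h2, h3]
        rfl
      exact el_mu hj (l₁ := []) (l := s.l) (l' := s.l') (l₂' := s.c) h6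
    rw [← ih h4, beqL_spec h1, wv_append, wv_append, wv_append, wv_append,
      wv_el hj F (fu_ex h2).1, wv_el hj F (fu_ex h3).1, h5]

end Fr

end RD

namespace GD

open Pool.Agent.Helper7.AG

variable (C : GD) (D : RD)

/-- the element is fixed by `τ ^ k`, or it is the atom `s` -/
def fx1 (k s x : ℕ) : Bool := cond (D.fxB k (C.s1 x) (C.s2 x)) true (isS (C.s1 x) s)

/-- the generators are in the mask `Z` -/
def fin1 (Z : ℕ) : Bool := allB D.n fun k => an (CD.bit Z (C.ga k)) (isS (C.s1 (C.ga k)) k)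

variable {C D} {h : D.Ok} (hj : (D.rsys h).L.HasJoin)

/-- the centraliser of `δ ^ k` and the atom `s` generate the group -/
theorem gen_sub {M : CoxeterMatrix (Fin D.n)} [Lattice (Artin M)]
    (F : Frame (LG.germ hj) (Artin M))
    (hg : ∀ k : Fin D.n, F.g (RD.el hj [(k : ℕ)]) = PresentedGroup.of k)
    {k s Z0 Z1 : ℕ} {l : List Gen.Stp}
    (hr : Gen.run C.nN (fun x => x) (C.le D) C.tm (C.fx1 D k s) Z0 Z1 l 0 0 = true)
    (hz : C.fin1 D Z0 = true) : F.Cn k ⊔ Subgroup.closure {F.g (RD.el hj [s])} = ⊤ := by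
  set U := F.Cn k ⊔ Subgroup.closure {F.g (RD.el hj [s])} with hU
  have hfx : ∀ x < C.nN, C.fx1 D k s x = true → gN hj C F x ∈ U := by
    intro x _ e
    have e' : cond (D.fxB k (C.s1 x) (C.s2 x)) true (isS (C.s1 x) s) = true := e
    cases hc : D.fxB k (C.s1 x) (C.s2 x) with
    | true =>
      exact (le_sup_left : F.Cn k ≤ U) (F.g_mem_Cn.2 (RD.fx_el hj hc))
    | false =>
      rw [hc, cond_false] at e'
      refine (le_sup_right : Subgroup.closure {F.g (RD.el hj [s])} ≤ U)
        (Subgroup.subset_closure ?_)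
      unfold gN
      rw [isS_spec e']
      rfl
  have hI : Gen.Inv U (1 : Artin M) (gN hj C F) Z0 Z1 := by
    refine Gen.run_sound (gN_mul hj F) hfx ⟨?_, ?_⟩ hr
    · intro x hx
      rw [CD.bit_zero] at hx
      exact absurd hx (by simp)
    · intro x hx
      rw [CD.bit_zero] at hx
      exact absurd hx (by simp)
  rw [← top_le_iff, ← PresentedGroup.closure_range_of, Subgroup.closure_le]
  rintro _ ⟨i, rfl⟩
  obtain ⟨h1, h2⟩ := an_spec (allB_spec hz i i.2)
  have h3 := hI.1 _ h1
  unfold gN at h3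
  rw [isS_spec h2, hg i] at h3
  exact h3

end GD

end Pool.Agent.SPH.RG
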