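import Pool.Agent.SPH.RG.Dat4
import Pool.Agent.SPH.Frame

/-!
# Project SPH, root germs: named simple elements

`el l` is the simple element `W l` of an exceptional sequence `l`; `el [i]` is the `i`-th atom.
A sequence `l₁ ++ l₂` which is exceptional of length `n` (`fuB l₁ l₂`) describes `el l₁`
together with `K (el l₁) = el l₂`, and `am l₂` is the mask of the atoms below `el l₁`.
`ucl A` is the mask of the atoms `u` with `E (β u) (β i) = 0` for all `i ∈ A`.
-/

namespace Pool.Agent.SPH.RG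

namespace RD

section Defs

variable (D : RD)

/-- the mask of the common zeros `s` of `E (β u) (β s)`, `u ∈ l` -/
def am (l : List ℕ) : ℕ := List.rec (Nat.sub (Nat.pow 2 D.N) 1) (fun u _ r => Nat.land (D.zS u) r) l

/-- the mask of the common zeros `u` of `E (β u) (β i)`, `i ∈ A` -/
def ucl (A : List ℕ) : ℕ :=
  List.rec (Nat.sub (Nat.pow 2 D.N) 1) (fun i _ r => Nat.land (D.zU i) r) A

/-- full exceptional sequences -/
def fuB (l₁ l₂ : List ℕ) : Bool :=
  an (D.exB (l₁ ++ l₂)) (Nat.beq (l₁ ++ l₂).length D.n)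

/-- the elements of `l` are in the closure of `A` -/
def clL (A l : List ℕ) : Bool :=
  allL l fun j => an (Nat.blt j D.N) (Nat.beq (Nat.land (D.ucl A) (D.zU j)) (D.ucl A))

/-- `r` elements of the orbit of `i` under `τ ^ k` -/
def orb (k r i : ℕ) : List ℕ :=
  Nat.rec (fun _ => []) (fun _ f i => i :: f (itN D.ta k i)) r i

/-- the sequence `l` moved by `τ ^ k` -/
def mvL (k : ℕ) (l : List ℕ) : List ℕ := l.map fun i => itN D.ta k i

/-- `el l₁` and `el l₁'` are equal, with complements `l₂`, `l₂'` -/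
def eqB (l₁ l₂ l₁' l₂' : List ℕ) : Bool :=
  an (D.fuB l₁ l₂) (an (D.fuB l₁' l₂') (Nat.beq (D.am l₂) (D.am l₂')))

/-- `el l₁` is fixed by `τ ^ k` -/
def fxB (k : ℕ) (l₁ l₂ : List ℕ) : Bool := D.eqB (D.mvL k l₁) (D.mvL k l₂) l₁ l₂

/-- `el l₁ * el l = el l'`, where `l₂'` is the complement of `l'` -/
def muB (l₁ l l' l₂' : List ℕ) : Bool := an (D.fuB (l₁ ++ l) l₂') (D.fuB l' l₂')

end Defs

variable {D : RD} {h : D.Ok} (hj : (D.rsys h).L.HasJoin)

open Classical in
/-- the simple element of an exceptional sequence -/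
noncomputable def el (l : List ℕ) : Sim hj :=
  if e : (D.rsys h).Exc l then ⟨(D.rsys h).W l, ((D.rsys h).exc_mem e).1⟩ else ⊥

theorem el_v {l : List ℕ} (hl : D.exB l = true) : (el hj l).v = (D.rsys h).W l := by
  unfold el
  rw [dif_pos (ex_spec h hl)]

/-- `ex_spec`, `exc_mem` -/
theorem rk_el {l : List ℕ} (hl : D.exB l = true) : (LG.germ hj).rk (el hj l) = l.length := by
  show (D.rsys h).L.r (el hj l).v = l.length
  rw [el_v hj hl]
  exact ((D.rsys h).exc_mem (ex_spec h hl)).2.1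

private theorem h1_single {i : ℕ} (hi : i < D.N) : D.exB [i] = true := by
  show an (Nat.blt i D.N) true = true
  have h1 : Nat.blt i D.N = true := Nat.ble_eq_true_of_le hi
  rw [h1]
  rfl

theorem el_at {i : ℕ} (hi : i < D.N) : el hj [i] = RC.at' hj hi := by
  apply Sim.ext'
  rw [el_v hj (h1_single hi)]
  show (D.rsys h).W [i] = (D.rsys h).t i
  rw [RSys.W_cons, RSys.W_nil, mul_one]

private theorem h1_an {a b : Bool} (h1 : a = true) (h2 : b = true) : an a b = true := by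
  rw [h1, h2]
  rfl

private theorem h1_allL {l : List ℕ} {p : ℕ → Bool} (hp : ∀ i ∈ l, p i = true) :
    allL l p = true := by
  induction l with
  | nil => rfl
  | cons a l ih =>
    show cond (p a) (allL l p) false = true
    rw [hp a List.mem_cons_self, cond_true]
    exact ih fun i hi => hp i (List.mem_cons_of_mem _ hi)

private theorem h1_exB_iff {l : List ℕ} : D.exB l = true ↔
    (∀ i ∈ l, i < D.N) ∧ l.Pairwise (fun i j => CD.bit (D.zS j) i = true) := by
  induction l with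
  | nil => exact ⟨fun _ => ⟨fun i hi => absurd hi List.not_mem_nil, List.Pairwise.nil⟩,
      fun _ => rfl⟩
  | cons i l ih =>
    constructor
    · intro hl
      have h1 : an (Nat.blt i D.N) (an (allL l fun j => CD.bit (D.zS j) i) (D.exB l)) = true := hl
      obtain ⟨h2, h3⟩ := an_spec h1
      obtain ⟨h4, h5⟩ := an_spec h3
      obtain ⟨h6, h7⟩ := ih.1 h5
      refine ⟨?_, List.pairwise_cons.2 ⟨fun j hj => allL_spec h4 j hj, h7⟩⟩
      intro j hj
      rcases List.mem_cons.1 hj with rfl | hj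
      · exact Nat.le_of_ble_eq_true h2
      · exact h6 j hj
    · rintro ⟨h1, h2⟩
      obtain ⟨h3, h4⟩ := List.pairwise_cons.1 h2
      show an (Nat.blt i D.N) (an (allL l fun j => CD.bit (D.zS j) i) (D.exB l)) = true
      exact h1_an (Nat.ble_eq_true_of_le (h1 i List.mem_cons_self))
        (h1_an (h1_allL h3) (ih.2 ⟨fun j hj => h1 j (List.mem_cons_of_mem _ hj), h4⟩))

theorem fu_ex {l₁ l₂ : List ℕ} (hl : D.fuB l₁ l₂ = true) :
    D.exB l₁ = true ∧ D.exB l₂ = true ∧ D.exB (l₁ ++ l₂) = true ∧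
      (l₁ ++ l₂).length = D.n := by
  obtain ⟨h1, h2⟩ := an_spec hl
  rw [h1_exB_iff] at h1
  obtain ⟨h3, h4⟩ := h1
  rw [List.pairwise_append] at h4
  refine ⟨h1_exB_iff.2 ⟨fun i hi => h3 i (List.mem_append_left _ hi), h4.1⟩,
    h1_exB_iff.2 ⟨fun i hi => h3 i (List.mem_append_right _ hi), h4.2.1⟩,
    h1_exB_iff.2 ⟨h3, List.pairwise_append.2 h4⟩, Nat.eq_of_beq_eq_true h2⟩

/-- `exists_t` -/
theorem ex_at {x : Sim hj} (hx : x ≠ ⊥) : ∃ i < D.N, el hj [i] ≤ x := by
  have h1 : x.v ≠ 1 := fun e => hx (Sim.ext' e)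
  obtain ⟨i, hi, h2⟩ := (D.rsys h).exists_t h1
  refine ⟨i, hi, ?_⟩
  rw [el_at hj hi]
  exact h2

/-- `ext_atoms` -/
theorem ext_at {x y : Sim hj} (e : ∀ i < D.N, el hj [i] ≤ x ↔ el hj [i] ≤ y) : x = y := by
  refine Sim.ext' ((D.rsys h).ext_atoms x.mem y.mem fun i hi => ?_)
  have h1 := e i hi
  rw [el_at hj hi] at h1
  exact h1

private theorem h2_at {i : ℕ} (hi : i < D.N) {y : Sim hj} :
    el hj [i] ≤ y ↔ (D.rsys h).L.Le ((D.rsys h).t i) y.v := by
  rw [el_at hj hi]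
  exact Iff.rfl

private theorem h2_bit (a k : ℕ) : CD.bit a k = a.testBit k := by
  rw [Nat.testBit_eq_decide_div_mod_eq]
  show Nat.beq ((a >>> k) % 2) 1 = _
  rw [Nat.shiftRight_eq_div_pow]
  cases hd : Nat.beq (a / 2 ^ k % 2) 1 with
  | true => exact (decide_eq_true (Nat.eq_of_beq_eq_true hd)).symm
  | false => exact (decide_eq_false (Nat.ne_of_beq_eq_false hd)).symm

private theorem h2_am (D : RD) {i : ℕ} (hi : i < D.N) (l : List ℕ) :
    CD.bit (D.am l) i = true ↔ ∀ u ∈ l, CD.bit (D.zS u) i = true := by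
  induction l with
  | nil =>
    have h1 : D.am [] = 2 ^ D.N - 1 := rfl
    rw [h1, h2_bit, Nat.testBit_two_pow_sub_one]
    simp [hi]
  | cons u l ih =>
    have h1 : D.am (u :: l) = D.zS u &&& D.am l := rfl
    rw [h1, h2_bit, Nat.testBit_and, Bool.and_eq_true, ← h2_bit, ← h2_bit, ih,
      List.forall_mem_cons]

/-- `W_le` -/
theorem el_le {l : List ℕ} (hl : D.exB l = true) {y : Sim hj} :
    el hj l ≤ y ↔ ∀ i ∈ l, el hj [i] ≤ y := by
  have hex := ex_spec h hl
  rw [Sim.le_def, el_v hj hl, (D.rsys h).W_le hex y.mem]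
  constructor
  · intro h1 i hi
    exact (h2_at hj (hex.1 i hi)).2 (h1 i hi)
  · intro h1 i hi
    exact (h2_at hj (hex.1 i hi)).1 (h1 i hi)

/-- `le_W`, `zS_iff`, `CD.bit a i = a.testBit i` -/
theorem at_le_el {l₁ l₂ : List ℕ} (hl : D.fuB l₁ l₂ = true) {i : ℕ} (hi : i < D.N) :
    el hj [i] ≤ el hj l₁ ↔ CD.bit (D.am l₂) i = true := by
  obtain ⟨h1, h2, h3, h4⟩ := fu_ex hl
  have hex := ex_spec h h3
  rw [h2_at hj hi, el_v hj h1, (D.rsys h).le_W hex h4 hi, h2_am D hi]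
  constructor
  · intro h5 u hu
    exact (zS_iff h (hex.1 u (List.mem_append_right _ hu)) hi).2 (h5 u hu)
  · intro h5 u hu
    exact (zS_iff h (hex.1 u (List.mem_append_right _ hu)) hi).1 (h5 u hu)

theorem el_le_el {l l₁ l₂ : List ℕ} (hl : D.exB l = true) (h1 : D.fuB l₁ l₂ = true)
    (h2 : (allL l fun i => CD.bit (D.am l₂) i) = true) : el hj l ≤ el hj l₁ := by
  rw [el_le hj hl]
  intro i hi
  exact (at_le_el hj h1 ((ex_spec h hl).1 i hi)).2 (allL_spec h2 i hi)

/-- `at_le_el`, `ext_at` -/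
theorem el_eq {l₁ l₂ l₁' l₂' : List ℕ} (hl : D.eqB l₁ l₂ l₁' l₂' = true) :
    el hj l₁ = el hj l₁' := by
  obtain ⟨h1, h2⟩ := an_spec hl
  obtain ⟨h3, h4⟩ := an_spec h2
  have h5 := Nat.eq_of_beq_eq_true h4
  refine ext_at hj fun i hi => ?_
  rw [at_le_el hj h1 hi, at_le_el hj h3 hi, h5]

private theorem h3_v {l : List ℕ} (e : (D.rsys h).Exc l) : (el hj l).v = (D.rsys h).W l := by
  unfold el
  rw [dif_pos e]

private theorem h3_fu {l₁ l₂ : List ℕ} (hl : D.fuB l₁ l₂ = true) :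
    (D.rsys h).Exc (l₁ ++ l₂) ∧ (l₁ ++ l₂).length = D.n := by
  obtain ⟨h1, h2⟩ := an_spec hl
  exact ⟨ex_spec h h1, Nat.eq_of_beq_eq_true h2⟩

/-- `exc_K` -/
theorem K_el {l₁ l₂ : List ℕ} (hl : D.fuB l₁ l₂ = true) :
    (LG.germ hj).K (el hj l₁) = el hj l₂ := by
  obtain ⟨h1, h2⟩ := h3_fu (h := h) hl
  apply Sim.ext'
  show (Sim.q (el hj l₁) ⊤).v = _
  rw [Sim.q_v le_top, Sim.top_v, h3_v hj ((D.rsys h).exc_left h1),
    h3_v hj ((D.rsys h).exc_right h1)]
  exact (D.rsys h).exc_K h1 h2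

/-- `W_append` and `Sim.q_v` (and `el l₁ ≤ el (l₁ ++ l₂)`: lengths) -/
theorem q_el {l₁ l₂ : List ℕ} (hl : D.exB (l₁ ++ l₂) = true) :
    el hj l₁ ≤ el hj (l₁ ++ l₂) ∧
      (LG.germ hj).q (el hj l₁) (el hj (l₁ ++ l₂)) = el hj l₂ := by
  have h1 := ex_spec h hl
  have h2 := (D.rsys h).exc_left h1
  have h3 := (D.rsys h).exc_right h1
  have e1 : ((D.rsys h).W l₁)⁻¹ * (D.rsys h).W (l₁ ++ l₂) = (D.rsys h).W l₂ := by
    rw [(D.rsys h).W_append, inv_mul_cancel_left]
  have h4 : el hj l₁ ≤ el hj (l₁ ++ l₂) := by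
    show (D.rsys h).L.r (el hj l₁).v +
      (D.rsys h).L.r ((el hj l₁).v⁻¹ * (el hj (l₁ ++ l₂)).v) = (D.rsys h).L.r (el hj (l₁ ++ l₂)).v
    rw [h3_v hj h1, h3_v hj h2, e1, ((D.rsys h).exc_mem h1).2.1, ((D.rsys h).exc_mem h2).2.1,
      ((D.rsys h).exc_mem h3).2.1, List.length_append]
  refine ⟨h4, ?_⟩
  apply Sim.ext'
  show (Sim.q (el hj l₁) (el hj (l₁ ++ l₂))).v = _
  rw [Sim.q_v h4, h3_v hj h1, h3_v hj h2, h3_v hj h3, e1]

/-- `W (l₁ ++ l) * W l₂' = c = W l' * W l₂'` -/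
theorem el_mu {l₁ l l' l₂' : List ℕ} (hl : D.muB l₁ l l' l₂' = true) :
    el hj (l₁ ++ l) = el hj l' := by
  obtain ⟨h1, h2⟩ := an_spec hl
  obtain ⟨h3, h4⟩ := h3_fu (h := h) h1
  obtain ⟨h5, h6⟩ := h3_fu (h := h) h2
  apply Sim.ext'
  rw [h3_v hj ((D.rsys h).exc_left h3), h3_v hj ((D.rsys h).exc_left h5)]
  have h7 := (D.rsys h).exc_full h3 h4
  have h8 := (D.rsys h).exc_full h5 h6
  rw [(D.rsys h).W_append] at h7 h8
  exact mul_right_cancel (h7.trans h8.symm)

private theorem h4_allL {l : List ℕ} {p : ℕ → Bool} (hp : ∀ i ∈ l, p i = true) :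
    allL l p = true := by
  induction l with
  | nil => rfl
  | cons a l ih =>
    show cond (p a) (allL l p) false = true
    rw [hp a List.mem_cons_self, ih fun i hi => hp i (List.mem_cons_of_mem _ hi)]
    rfl

/-- the twist preserves the exceptional pairs -/
private theorem h4_E (h : D.Ok) {i j : ℕ} (hi : i < D.N) (hj : j < D.N)
    (hE : (D.rsys h).E ((D.rsys h).β j) ((D.rsys h).β i) = 0) :
    (D.rsys h).E ((D.rsys h).β (D.ta j)) ((D.rsys h).β (D.ta i)) = 0 := by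
  obtain ⟨m1, m2, m3, -⟩ := (D.rsys h).two_of hi hj hE
  have hi' := (w_spec h hi).1
  have hj' := (w_spec h hj).1
  have hW : (D.rsys h).W [i, j] = (D.rsys h).t i * (D.rsys h).t j := by
    rw [RSys.W_cons, RSys.W_cons, RSys.W_nil, mul_one]
  have hx : (D.rsys h).L.c⁻¹ * (D.rsys h).W [i, j] * (D.rsys h).L.c =
      (D.rsys h).t (D.ta i) * (D.rsys h).t (D.ta j) := by
    rw [← w_t h hi, ← w_t h hj, hW]
    group
  have n1 : (D.rsys h).L.Mem ((D.rsys h).t (D.ta i) * (D.rsys h).t (D.ta j)) := by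
    rw [← hx]
    exact (D.rsys h).L.mem_conj.2 m1
  have n2 : (D.rsys h).L.r ((D.rsys h).t (D.ta i) * (D.rsys h).t (D.ta j)) = 2 := by
    rw [← hx, LG.r_conj']
    exact m2
  have n3 : (D.rsys h).L.Le ((D.rsys h).t (D.ta i))
      ((D.rsys h).t (D.ta i) * (D.rsys h).t (D.ta j)) := by
    rw [← hx, ← w_t h hi]
    exact (D.rsys h).L.le_conj.2 m3
  obtain ⟨b, hb, -, e1, e2⟩ := (D.rsys h).two_eq n1 n2 hi' n3
  rw [inv_mul_cancel_left] at e2
  rw [(D.rsys h).t_inj hj' hb e2]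
  exact e1

private theorem h4_ex (h : D.Ok) {l : List ℕ} (hl : D.exB l = true) :
    D.exB (l.map D.ta) = true := by
  induction l with
  | nil => rfl
  | cons i l ih =>
    have h1 : an (Nat.blt i D.N) (an (allL l fun j => CD.bit (D.zS j) i) (D.exB l)) = true := hl
    obtain ⟨h2, h3⟩ := an_spec h1
    obtain ⟨h4, h5⟩ := an_spec h3
    have hi : i < D.N := Nat.le_of_ble_eq_true h2
    have hex := ex_spec h h5
    have h6 : Nat.blt (D.ta i) D.N = true := Nat.ble_eq_true_of_le (w_spec h hi).1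
    have h7 : (allL (l.map D.ta) fun j => CD.bit (D.zS j) (D.ta i)) = true := by
      apply h4_allL
      intro j' hj'
      obtain ⟨j, hj, rfl⟩ := List.mem_map.1 hj'
      have hjN := hex.1 j hj
      exact (zS_iff h (w_spec h hjN).1 (w_spec h hi).1).2
        (h4_E h hi hjN ((zS_iff h hjN hi).1 (allL_spec h4 j hj)))
    show an (Nat.blt (D.ta i) D.N) (an (allL (l.map D.ta) fun j => CD.bit (D.zS j) (D.ta i))
      (D.exB (l.map D.ta))) = true
    rw [h6, h7, ih h5]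
    rfl

private theorem h4_W (h : D.Ok) {l : List ℕ} (hl : ∀ i ∈ l, i < D.N) :
    (D.rsys h).L.c⁻¹ * (D.rsys h).W l * (D.rsys h).L.c = (D.rsys h).W (l.map D.ta) := by
  induction l with
  | nil => simp [RSys.W_nil]
  | cons i l ih =>
    have h1 := ih fun j hj => hl j (List.mem_cons_of_mem _ hj)
    rw [List.map_cons, RSys.W_cons, RSys.W_cons, ← h1, ← w_t h (hl i List.mem_cons_self)]
    group

private theorem h4_tau (x : Sim hj) :
    ((LG.germ hj).tau x).v = (D.rsys h).L.c⁻¹ * x.v * (D.rsys h).L.c := by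
  show (Sim.q (Sim.q x ⊤) ⊤).v = _
  rw [Sim.q_v le_top, Sim.q_v le_top, Sim.top_v, mul_inv_rev, inv_inv]

/-- `tau x = c⁻¹ x c`, `conj_t`... `(tw h).ta_t` -/
theorem tau_el {l : List ℕ} (hl : D.exB l = true) :
    D.exB (l.map D.ta) = true ∧ (LG.germ hj).tau (el hj l) = el hj (l.map D.ta) := by
  have h1 := h4_ex h hl
  refine ⟨h1, Sim.ext' ?_⟩
  rw [h4_tau, el_v hj hl, el_v hj h1]
  exact h4_W h (ex_spec h hl).1

theorem tau_iter_el {l : List ℕ} (hl : D.exB l = true) (k : ℕ) :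
    D.exB (D.mvL k l) = true ∧ (LG.germ hj).tau^[k] (el hj l) = el hj (D.mvL k l) := by
  induction k with
  | zero =>
    have h1 : D.mvL 0 l = l := List.map_id l
    rw [h1]
    exact ⟨hl, rfl⟩
  | succ k ih =>
    have h1 : D.mvL (k + 1) l = (D.mvL k l).map D.ta := by
      unfold mvL
      rw [List.map_map]
      rfl
    have h2 := tau_el hj ih.1
    rw [h1, Function.iterate_succ_apply', ih.2]
    exact h2

theorem fx_el {k : ℕ} {l₁ l₂ : List ℕ} (hl : D.fxB k l₁ l₂ = true) :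
    (LG.germ hj).tau^[k] (el hj l₁) = el hj l₁ := by
  have h1 : an (D.fuB (D.mvL k l₁) (D.mvL k l₂)) (an (D.fuB l₁ l₂)
    (Nat.beq (D.am (D.mvL k l₂)) (D.am l₂))) = true := hl
  have h2 : D.exB l₁ = true := (fu_ex (an_spec (an_spec h1).2).1).1
  rw [(tau_iter_el hj h2 k).2]
  exact el_eq hj hl

private theorem h5_bit (a k : ℕ) : CD.bit a k = a.testBit k := by
  rw [Nat.testBit_eq_decide_div_mod_eq]
  show Nat.beq ((a >>> k) % 2) 1 = _
  rw [Nat.shiftRight_eq_div_pow]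
  cases hd : Nat.beq (a / 2 ^ k % 2) 1 with
  | true => exact (decide_eq_true (Nat.eq_of_beq_eq_true hd)).symm
  | false => exact (decide_eq_false (Nat.ne_of_beq_eq_false hd)).symm

private theorem h5_land (a b k : ℕ) : CD.bit (Nat.land a b) k = true ↔
    CD.bit a k = true ∧ CD.bit b k = true := by
  rw [h5_bit, h5_bit, h5_bit]
  show (a &&& b).testBit k = true ↔ _
  rw [Nat.testBit_and, Bool.and_eq_true]

private theorem h5_ucl (A : List ℕ) {u : ℕ} (hu : u < D.N) :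
    CD.bit (D.ucl A) u = true ↔ ∀ i ∈ A, CD.bit (D.zU i) u = true := by
  induction A with
  | nil =>
    have e : CD.bit (D.ucl []) u = true := by
      rw [h5_bit]
      show (2 ^ D.N - 1).testBit u = true
      rw [Nat.testBit_two_pow_sub_one]
      exact decide_eq_true hu
    exact ⟨fun _ i hi => absurd hi List.not_mem_nil, fun _ => e⟩
  | cons i A ih =>
    show CD.bit (Nat.land (D.zU i) (D.ucl A)) u = true ↔ _
    rw [h5_land, ih]
    simp

private theorem h5_le {i : ℕ} (hi : i < D.N) {z : Sim hj} :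
    el hj [i] ≤ z ↔ (D.rsys h).L.Le ((D.rsys h).t i) z.v := by
  rw [el_at hj hi]
  exact Iff.rfl

/-- `le_of_cl`, `zU_iff` -/
theorem cl_at {A l : List ℕ} {z : Sim hj} (hA : ∀ i ∈ A, i < D.N ∧ el hj [i] ≤ z)
    (hc : D.clL A l = true) : ∀ j ∈ l, el hj [j] ≤ z := by
  intro j hjl
  obtain ⟨h1, h2⟩ := an_spec (allL_spec hc j hjl)
  have hjN : j < D.N := Nat.le_of_ble_eq_true h1
  have h3 : Nat.land (D.ucl A) (D.zU j) = D.ucl A := Nat.eq_of_beq_eq_true h2
  rw [h5_le hj hjN]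
  refine (D.rsys h).le_of_cl z.mem (A := A) (fun i hi => ⟨(hA i hi).1, ?_⟩) hjN ?_
  · exact (h5_le hj (hA i hi).1).1 (hA i hi).2
  · intro u hu hE
    have h4 : CD.bit (D.ucl A) u = true :=
      (h5_ucl A hu).2 fun i hi => (zU_iff h hu (hA i hi).1).2 (hE i hi)
    rw [← h3, h5_land] at h4
    exact (zU_iff h hu hjN).1 h4.2

/-- `eq_c_of_cl` -/
theorem cl_top {A : List ℕ} {z : Sim hj} (hA : ∀ i ∈ A, i < D.N ∧ el hj [i] ≤ z)
    (hc : Nat.beq (D.ucl A) 0 = true) : z = ⊤ := by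
  apply Sim.ext'
  refine (D.rsys h).eq_c_of_cl z.mem (A := A) (fun i hi => ⟨(hA i hi).1, ?_⟩) ?_
  · exact (h5_le hj (hA i hi).1).1 (hA i hi).2
  · intro u hu hE
    have h4 : CD.bit (D.ucl A) u = true :=
      (h5_ucl A hu).2 fun i hi => (zU_iff h hu (hA i hi).1).2 (hE i hi)
    rw [Nat.eq_of_beq_eq_true hc, CD.bit_zero] at h4
    exact absurd h4 (by simp)

/-- the atoms of the orbit of `i` are below a fixed element -/
theorem orb_le {k r i : ℕ} (hi : i < D.N) {z : Sim hj} (hz : (LG.germ hj).tau^[k] z = z)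
    (h1 : el hj [i] ≤ z) : ∀ j ∈ D.orb k r i, j < D.N ∧ el hj [j] ≤ z := by
  induction r generalizing i with
  | zero =>
    intro j hjm
    have e : D.orb k 0 i = [] := rfl
    rw [e] at hjm
    exact absurd hjm List.not_mem_nil
  | succ r ih =>
    intro j hjm
    have e : D.orb k (r + 1) i = i :: D.orb k r (itN D.ta k i) := rfl
    rw [e] at hjm
    rcases List.mem_cons.1 hjm with rfl | hjm
    · exact ⟨hi, h1⟩
    · have hex : D.exB [i] = true := by
        have h2 : Nat.blt i D.N = true := Nat.ble_eq_true_of_le hi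
        show an (Nat.blt i D.N) (an (allL [] fun j => CD.bit (D.zS j) i) true) = true
        rw [h2]
        rfl
      obtain ⟨h3, h4⟩ := tau_iter_el hj hex k
      have e2 : D.mvL k [i] = [itN D.ta k i] := rfl
      rw [e2] at h3 h4
      have hm : Monotone (LG.germ hj).tau := fun _ _ h => (LG.germ hj).tau_mono h
      refine ih ((ex_spec h h3).1 _ (List.mem_singleton.2 rfl)) ?_ j hjm
      rw [← h4, ← hz]
      exact hm.iterate k h1

/-- meets from the masks -/
theorem inf_el {l₁ l₂ l₁' l₂' l₁'' l₂'' : List ℕ} (h1 : D.fuB l₁ l₂ = true)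
    (h2 : D.fuB l₁' l₂' = true) (h3 : D.fuB l₁'' l₂'' = true)
    (h4 : Nat.beq (Nat.land (D.am l₂) (D.am l₂')) (D.am l₂'') = true) :
    el hj l₁ ⊓ el hj l₁' = el hj l₁'' := by
  have h5 := Nat.eq_of_beq_eq_true h4
  refine ext_at hj fun i hi => ?_
  rw [le_inf_iff, at_le_el hj h1 hi, at_le_el hj h2 hi, at_le_el hj h3 hi, ← h5, h5_land]

/-- if every orbit of atoms has the join `⊤` then only `⊥` and `⊤` are fixed by `τ` -/
theorem tau_triv (hc : (allB D.N fun i => Nat.beq (D.ucl (D.orb 1 D.m i)) 0) = true)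
    (x : Sim hj) (hx : (LG.germ hj).tau x = x) : x = ⊥ ∨ x = ⊤ := by
  by_cases h0 : x = ⊥
  · exact Or.inl h0
  · obtain ⟨i, hi, h1⟩ := ex_at hj h0
    exact Or.inr (cl_top hj (A := D.orb 1 D.m i) (orb_le hj (k := 1) (r := D.m) hi hx h1)
      (allB_spec hc i hi))

/-- `t_inj` -/
theorem exists_moved {w : ℕ} (hw : w < D.N)
    (hc : (allB D.m fun j => cond (Nat.beq j 0) true (cond (Nat.beq (itN D.ta j w) w) false true))
      = true) (j : ℕ) (h1 : 0 < j) (h2 : j < D.m) : ∃ x, (LG.germ hj).tau^[j] x ≠ x := by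
  have h3 := allB_spec hc j h2
  have h4 : Nat.beq j 0 = false := by
    cases h5 : Nat.beq j 0 with
    | true => exact absurd (Nat.eq_of_beq_eq_true h5) (by omega)
    | false => rfl
  rw [h4, cond_false] at h3
  have h6 : itN D.ta j w ≠ w := by
    intro h7
    rw [h7, Nat.beq_refl, cond_true] at h3
    exact absurd h3 (by simp)
  refine ⟨el hj [w], fun h7 => h6 ?_⟩
  have hex : D.exB [w] = true := h1_single hw
  obtain ⟨h8, h9⟩ := tau_iter_el hj hex j
  have e2 : D.mvL j [w] = [itN D.ta j w] := rfl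
  rw [e2] at h8 h9
  have h10 : itN D.ta j w < D.N := (ex_spec h h8).1 _ (List.mem_singleton.2 rfl)
  rw [h9] at h7
  have h11 := congrArg Sim.v h7
  rw [el_v hj h8, el_v hj hex, RSys.W_cons, RSys.W_cons, RSys.W_nil, mul_one, mul_one] at h11
  exact (D.rsys h).t_inj h10 hw h11

section Fr

variable {G : Type*} [Group G] [Lattice G] (F : Frame (LG.germ hj) G)

/-- `q_el`, `Frame.g_mul` -/
theorem g_append {l₁ l₂ : List ℕ} (hl : D.exB (l₁ ++ l₂) = true) :
    F.g (el hj (l₁ ++ l₂)) = F.g (el hj l₁) * F.g (el hj l₂) := by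
  obtain ⟨h1, h2⟩ := q_el hj hl
  have h3 := F.g_mul h1
  rw [h2] at h3
  exact h3.symm

theorem g_el {l : List ℕ} (hl : D.exB l = true) :
    F.g (el hj l) = (l.map fun i => F.g (el hj [i])).prod := by
  induction l with
  | nil =>
    have h1 : el hj [] = (⊥ : Sim hj) := by
      apply Sim.ext'
      rw [el_v hj hl, Sim.bot_v, RSys.W_nil]
    rw [h1, F.g_bot, List.map_nil, List.prod_nil]
  | cons i l ih =>
    have h1 : D.exB ([i] ++ l) = true := hl
    have h2 : D.exB l = true := (an_spec (an_spec h1).2).2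
    have h3 := g_append hj F h1
    rw [ih h2] at h3
    rw [List.map_cons, List.prod_cons]
    exact h3

theorem g_mu {l₁ l l' l₂' : List ℕ} (hl : D.muB l₁ l l' l₂' = true) :
    F.g (el hj l₁) * F.g (el hj l) = F.g (el hj l') := by
  have h1 : D.exB (l₁ ++ l) = true := (fu_ex (an_spec hl).1).1
  rw [← g_append hj F h1, el_mu hj hl]

end Fr

end RD

end Pool.Agent.SPH.RG
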