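import Pool.Agent.SPH.RG.Len

/-!
# Project SPH, root germs: the lattice property from pairs of atoms
(Björner, Edelman, Ziegler, and left translation)
-/

namespace Pool.Agent.SPH

namespace LG

variable {G : Type*} [Group G] (L : LG G)

/-- every simple element `≠ 1` is above an atom -/
def HasAtom : Prop := ∀ x, L.Mem x → x ≠ 1 → ∃ t, L.r t = 1 ∧ L.Le t x

/-- two atoms have a least upper bound -/
def AtomJoin : Prop :=
  ∀ a b, L.Mem a → L.Mem b → L.r a = 1 → L.r b = 1 → ∃ z, L.Mem z ∧ L.Le a z ∧ L.Le b z ∧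
    ∀ w, L.Mem w → L.Le a w → L.Le b w → L.Le z w

/-- Induction on `r c - r x`: any simple `y₁, y₂ ≥ x` have a least upper bound.  If `y₁ = x` or
`y₂ = x` this is clear.  Otherwise there are atoms `a₁ ≤ x⁻¹ y₁` and `a₂ ≤ x⁻¹ y₂`; let `j` be
their join; `j ≤ x⁻¹ c`, so `z = x j` is simple and it is the least upper bound of `x a₁` and
`x a₂` (`q_surj`, `q_mono`, `q_emb`).  By induction (for `x a₁`) `y₁` and `z` have a join `u`, and
(for `x a₂`) `u` and `y₂` have a join `v`; `v` is the join of `y₁` and `y₂`: an upper bound `w` is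
above `x a₁` and `x a₂`, so above `z`, so above `u`, so above `v`. -/
theorem join_above (h1 : L.HasAtom) (h2 : L.AtomJoin) (k : ℕ) : ∀ x, L.Mem x →
    L.r L.c ≤ L.r x + k → ∀ y₁ y₂, L.Mem y₁ → L.Mem y₂ → L.Le x y₁ → L.Le x y₂ →
    ∃ z, L.Mem z ∧ L.Le y₁ z ∧ L.Le y₂ z ∧
      ∀ w, L.Mem w → L.Le y₁ w → L.Le y₂ w → L.Le z w := by
  induction k with
  | zero =>
    intro x hx hk y₁ y₂ hy₁ hy₂ hxy₁ hxy₂
    have key : ∀ y, L.Mem y → L.Le x y → y = x := by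
      intro y hy hxy
      have e1 : L.r x + L.r (x⁻¹ * y) = L.r y := hxy
      have e2 : L.r y + L.r (y⁻¹ * L.c) = L.r L.c := hy
      have e3 : x⁻¹ * y = 1 := L.eq_one _ (by omega)
      exact (inv_mul_eq_one.1 e3).symm
    rw [key y₁ hy₁ hxy₁, key y₂ hy₂ hxy₂]
    exact ⟨x, hx, L.le_refl x, L.le_refl x, fun w _ h _ => h⟩
  | succ k ih =>
    intro x hx hk y₁ y₂ hy₁ hy₂ hxy₁ hxy₂
    by_cases e₁ : y₁ = x
    · subst e₁
      exact ⟨y₂, hy₂, hxy₂, L.le_refl y₂, fun w _ _ h => h⟩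
    by_cases e₂ : y₂ = x
    · subst e₂
      exact ⟨y₁, hy₁, L.le_refl y₁, hxy₁, fun w _ h _ => h⟩
    have main : ∀ y, L.Mem y → L.Le x y → y ≠ x → ∃ t, L.r t = 1 ∧ L.Mem t ∧
        L.Le t (x⁻¹ * L.c) ∧ L.Mem (x * t) ∧ L.Le x (x * t) ∧ L.Le (x * t) y ∧
        L.r (x * t) = L.r x + 1 := by
      intro y hy hxy hne
      have hm : L.Mem (x⁻¹ * y) := L.mem_q hxy hy
      obtain ⟨t, ht, htle⟩ := h1 (x⁻¹ * y) hm (fun e => hne (inv_mul_eq_one.1 e).symm)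
      have htc : L.Le t (x⁻¹ * L.c) := L.le_trans htle (L.q_mono hxy hy)
      obtain ⟨s1, s2⟩ := L.q_surj hx htc
      refine ⟨t, ht, L.mem_of_le htle hm, htc, s1, s2, ?_, ?_⟩
      · refine L.q_emb s2 hxy ?_
        rw [inv_mul_cancel_left]
        exact htle
      · have e1 : L.r x + L.r (x⁻¹ * (x * t)) = L.r (x * t) := s2
        rw [inv_mul_cancel_left, ht] at e1
        exact e1.symm
    obtain ⟨a₁, ra₁, ma₁, ca₁, mx₁, lx₁, ly₁, rx₁⟩ := main y₁ hy₁ hxy₁ e₁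
    obtain ⟨a₂, ra₂, ma₂, ca₂, mx₂, lx₂, ly₂, rx₂⟩ := main y₂ hy₂ hxy₂ e₂
    obtain ⟨j, mj, hj₁, hj₂, hj⟩ := h2 a₁ a₂ ma₁ ma₂ ra₁ ra₂
    have hmc : L.Mem (x⁻¹ * L.c) := L.mem_q hx L.mem_c
    have hjc : L.Le j (x⁻¹ * L.c) := hj _ hmc ca₁ ca₂
    obtain ⟨mz, lz⟩ := L.q_surj hx hjc
    have hz₁ : L.Le (x * a₁) (x * j) := by
      refine L.q_emb lx₁ lz ?_
      rw [inv_mul_cancel_left, inv_mul_cancel_left]
      exact hj₁
    have hz₂ : L.Le (x * a₂) (x * j) := by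
      refine L.q_emb lx₂ lz ?_
      rw [inv_mul_cancel_left, inv_mul_cancel_left]
      exact hj₂
    have hzl : ∀ w, L.Mem w → L.Le (x * a₁) w → L.Le (x * a₂) w → L.Le (x * j) w := by
      intro w hw w1 w2
      have hxw : L.Le x w := L.le_trans lx₁ w1
      have q1 := L.q_mono lx₁ w1
      have q2 := L.q_mono lx₂ w2
      rw [inv_mul_cancel_left] at q1 q2
      refine L.q_emb lz hxw ?_
      rw [inv_mul_cancel_left]
      exact hj _ (L.mem_q hxw hw) q1 q2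
    obtain ⟨u, mu, u1, u2, hu⟩ := ih (x * a₁) mx₁ (by omega) y₁ (x * j) hy₁ mz ly₁ hz₁
    obtain ⟨v, mv, v1, v2, hv⟩ := ih (x * a₂) mx₂ (by omega) u y₂ mu hy₂
      (L.le_trans hz₂ u2) ly₂
    refine ⟨v, mv, L.le_trans u1 v1, v2, ?_⟩
    intro w hw w1 w2
    refine hv w hw (hu w hw w1 ?_) w2
    exact hzl w hw (L.le_trans ly₁ w1) (L.le_trans ly₂ w2)

theorem hasJoin_of (h1 : L.HasAtom) (h2 : L.AtomJoin) : L.HasJoin := by
  intro x y hx hy
  exact L.join_above h1 h2 (L.r L.c) 1 L.mem_one (by omega) x y hx hy (L.one_le x) (L.one_le y)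

end LG

end Pool.Agent.SPH
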