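import Pool.Agent.SPH.RG.Thy

/-!
# Project SPH, root germs: joins and connectivity from pairs of atoms
-/

namespace Pool.Agent.SPH

namespace LG

variable {G : Type*} [Group G] (L : LG G)

/-- `a` and `b` have a least upper bound among the simple elements -/
def Jn (a b : G) : Prop :=
  ∃ z, L.Mem z ∧ L.Le a z ∧ L.Le b z ∧ ∀ w, L.Mem w → L.Le a w → L.Le b w → L.Le z w

/-- a step below `x`: two atoms `≤ x` below a simple element of length two -/
def Step (x p q : G) : Prop :=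
  L.Le p x ∧ L.Le q x ∧ L.r p = 1 ∧ L.r q = 1 ∧ p ≠ q ∧ ∃ y, L.Mem y ∧ L.r y = 2 ∧
    L.Le p y ∧ L.Le q y

/-- below every common upper bound the atoms `a` and `b` are joined by steps -/
def Cn (a b : G) : Prop :=
  ∀ x, L.Mem x → L.Le a x → L.Le b x → Relation.ReflTransGen (L.Step x) a b

/-- `(c⁻¹ x c)⁻¹ (c⁻¹ y c) = c⁻¹ (x⁻¹ y) c` -/
theorem le_conj {x y : G} : L.Le (L.c⁻¹ * x * L.c) (L.c⁻¹ * y * L.c) ↔ L.Le x y := by
  have e : (L.c⁻¹ * x * L.c)⁻¹ * (L.c⁻¹ * y * L.c) = L.c⁻¹ * (x⁻¹ * y) * L.c := by group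
  unfold Le
  rw [e, L.r_conj', L.r_conj', L.r_conj']

theorem mem_conj {x : G} : L.Mem (L.c⁻¹ * x * L.c) ↔ L.Mem x := by
  have h := L.le_conj (x := x) (y := L.c)
  rwa [inv_mul_cancel, one_mul] at h

/-- `c⁻¹ (c w c⁻¹) c = w` -/
private theorem conj_back (w : G) : L.c⁻¹ * (L.c * w * L.c⁻¹) * L.c = w := by
  group

private theorem mem_back {w : G} (h : L.Mem w) : L.Mem (L.c * w * L.c⁻¹) := by
  rw [← L.mem_conj, L.conj_back]
  exact h

private theorem le_back {a w : G} (h : L.Le (L.c⁻¹ * a * L.c) w) :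
    L.Le a (L.c * w * L.c⁻¹) := by
  rw [← L.le_conj, L.conj_back]
  exact h

/-- `z ↦ c⁻¹ z c` is a bijection with the inverse `z ↦ c z c⁻¹` -/
theorem Jn_conj {a b : G} (h : L.Jn a b) : L.Jn (L.c⁻¹ * a * L.c) (L.c⁻¹ * b * L.c) := by
  obtain ⟨z, hz, h1, h2, h3⟩ := h
  refine ⟨L.c⁻¹ * z * L.c, L.mem_conj.2 hz, L.le_conj.2 h1, L.le_conj.2 h2, ?_⟩
  intro w hw h4 h5
  have h6 := L.le_conj.2 (h3 _ (L.mem_back hw) (L.le_back h4) (L.le_back h5))
  rwa [L.conj_back] at h6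

theorem Cn_conj {a b : G} (h : L.Cn a b) : L.Cn (L.c⁻¹ * a * L.c) (L.c⁻¹ * b * L.c) := by
  intro x hx h1 h2
  have hk := h _ (L.mem_back hx) (L.le_back h1) (L.le_back h2)
  have key : ∀ p q : G, L.Step (L.c * x * L.c⁻¹) p q →
      L.Step x (L.c⁻¹ * p * L.c) (L.c⁻¹ * q * L.c) := by
    rintro p q ⟨hp, hq, rp, rq, hne, y, hy, ry, hpy, hqy⟩
    refine ⟨?_, ?_, ?_, ?_, ?_, L.c⁻¹ * y * L.c, L.mem_conj.2 hy, ?_, L.le_conj.2 hpy,
      L.le_conj.2 hqy⟩
    · have h3 := L.le_conj.2 hp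
      rwa [L.conj_back] at h3
    · have h3 := L.le_conj.2 hq
      rwa [L.conj_back] at h3
    · rw [L.r_conj', rp]
    · rw [L.r_conj', rq]
    · intro e
      exact hne (mul_left_cancel (mul_right_cancel e))
    · rw [L.r_conj', ry]
  clear h h2
  induction hk with
  | refl => exact Relation.ReflTransGen.refl
  | tail _ h4 ih => exact ih.tail (key _ _ h4)

end LG

namespace RG.RSys

variable {n N : ℕ} (R : RSys n N)

/-- the closure of two atoms -/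
def Cl (a b j : ℕ) : Prop :=
  ∀ u < N, R.E (R.β u) (R.β a) = 0 → R.E (R.β u) (R.β b) = 0 → R.E (R.β u) (R.β j) = 0

/-- `β i = β j` or `β i = - β j` is impossible for `i ≠ j` (`nonneg`, `inj`, and `β i ≠ 0`); the
reflection determines the line (`mv_t`). -/
theorem t_inj {i j : ℕ} (hi : i < N) (hj : j < N) (h : R.t i = R.t j) : i = j := by
  have h1 : R.β i ∈ Submodule.span ℚ {R.β j} := by
    rw [← R.mv_t hj, ← h, R.mv_t hi]
    exact Submodule.mem_span_singleton_self _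
  obtain ⟨a, ha⟩ := Submodule.mem_span_singleton.1 h1
  have h2 := R.norm i hi
  rw [← ha, map_smul, smul_eq_mul, map_smul, LinearMap.smul_apply, smul_eq_mul, R.norm j hj,
    mul_one] at h2
  rcases mul_self_eq_one_iff.1 h2 with rfl | rfl
  · rw [one_smul] at ha
    exact (R.inj j hj i hi ha).symm
  · exfalso
    have h3 : R.β j = 0 := by
      funext k
      have h4 := R.nonneg j hj k
      have h5 := R.nonneg i hi k
      rw [← ha, Pi.smul_apply, smul_eq_mul] at h5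
      rw [Pi.zero_apply]
      linarith
    have h6 := R.norm j hj
    rw [h3, map_zero] at h6
    exact zero_ne_one h6

/-- `z = W l₁`: `exc_mem`, `le_W`; it is the least upper bound by `W_le` and `le_of_cl` with
`A = [a, b]`. -/
theorem Jn_of {a b : ℕ} (ha : a < N) (hb : b < N) {l₁ l₂ : List ℕ} (h : R.Exc (l₁ ++ l₂))
    (hn : (l₁ ++ l₂).length = n)
    (h1 : ∀ u ∈ l₂, R.E (R.β u) (R.β a) = 0 ∧ R.E (R.β u) (R.β b) = 0)
    (h2 : ∀ i ∈ l₁, R.Cl a b i) : R.L.Jn (R.t a) (R.t b) := by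
  refine ⟨R.W l₁, (R.exc_mem (R.exc_left h)).1, (R.le_W h hn ha).2 fun u hu => (h1 u hu).1,
    (R.le_W h hn hb).2 fun u hu => (h1 u hu).2, ?_⟩
  intro w hw haw hbw
  rw [R.W_le (R.exc_left h) hw]
  intro i hi
  refine R.le_of_cl hw (A := [a, b]) ?_ (h.1 i (List.mem_append_left _ hi)) ?_
  · intro k hk
    rcases List.mem_cons.1 hk with rfl | hk
    · exact ⟨ha, haw⟩
    · rw [List.mem_singleton.1 hk]
      exact ⟨hb, hbw⟩
  · intro u hu he
    exact h2 i hi u hu (he a (by simp)) (he b (by simp))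

/-- Let `E (β j) (β i) = 0`, `i ≠ j`: `W [i, j]` is simple of length two and above `t i` and
`t j`.  (`W_le` with `y = W [i, j]`.) -/
theorem two_of {i j : ℕ} (hi : i < N) (hj : j < N) (h : R.E (R.β j) (R.β i) = 0) :
    R.L.Mem (R.W [i, j]) ∧ R.L.r (R.W [i, j]) = 2 ∧ R.L.Le (R.t i) (R.W [i, j]) ∧
      R.L.Le (R.t j) (R.W [i, j]) := by
  have hex : R.Exc [i, j] := by
    refine ⟨?_, ?_⟩
    · intro k hk
      rcases List.mem_cons.1 hk with rfl | hk
      · exact hi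
      · rw [List.mem_singleton.1 hk]
        exact hj
    · rw [List.pairwise_cons]
      refine ⟨?_, List.pairwise_singleton _ _⟩
      intro k hk
      rw [List.mem_singleton.1 hk]
      exact h
  obtain ⟨h1, h2, -⟩ := R.exc_mem hex
  have h3 := (R.W_le hex h1).1 (R.L.le_refl _)
  exact ⟨h1, h2, h3 i (by simp), h3 j (by simp)⟩

/-- the steps of the chain are `Step x` by `two_of`, `le_of_cl` (with `A = [a, b]`), `t_inj`
(`i = j` is impossible: `E (β i) (β i) = 1`) -/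
theorem Cn_of {a b : ℕ} (ha : a < N) (hb : b < N)
    (h : Relation.ReflTransGen (fun i j => i < N ∧ j < N ∧ R.Cl a b i ∧ R.Cl a b j ∧
      (R.E (R.β j) (R.β i) = 0 ∨ R.E (R.β i) (R.β j) = 0)) a b) :
    R.L.Cn (R.t a) (R.t b) := by
  intro x hx hax hbx
  have key : ∀ i, i < N → R.Cl a b i → R.L.Le (R.t i) x := by
    intro i hi hc
    refine R.le_of_cl hx (A := [a, b]) ?_ hi ?_
    · intro k hk
      rcases List.mem_cons.1 hk with rfl | hk
      · exact ⟨ha, hax⟩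
      · rw [List.mem_singleton.1 hk]
        exact ⟨hb, hbx⟩
    · intro u hu he
      exact hc u hu (he a (by simp)) (he b (by simp))
  refine Relation.ReflTransGen.lift R.t ?_ _ _ h
  rintro i j ⟨hi, hj, ci, cj, hE⟩
  refine ⟨key i hi ci, key j hj cj, R.r_t hi, R.r_t hj, ?_, ?_⟩
  · intro e
    have e' := R.t_inj hi hj e
    subst e'
    have h1 := R.norm i hi
    rcases hE with h2 | h2 <;> rw [h1] at h2 <;> norm_num at h2
  · rcases hE with h2 | h2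
    · obtain ⟨h3, h4, h5, h6⟩ := R.two_of hi hj h2
      exact ⟨_, h3, h4, h5, h6⟩
    · obtain ⟨h3, h4, h5, h6⟩ := R.two_of hj hi h2
      exact ⟨_, h3, h4, h6, h5⟩

/-- the twist on the numbers of the atoms, and representatives of its orbits -/
structure Tw where
  /-- the twist -/
  ta : ℕ → ℕ
  /-- its inverse -/
  ti : ℕ → ℕ
  /-- representatives -/
  rp : List ℕ
  ta_lt : ∀ i < N, ta i < N
  ti_lt : ∀ i < N, ti i < N
  ta_ti : ∀ i < N, ta (ti i) = i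
  ta_t : ∀ i < N, (R.L.c)⁻¹ * R.t i * R.L.c = R.t (ta i)
  rp_lt : ∀ a ∈ rp, a < N
  rep : ∀ a < N, ∃ k, ∃ a' ∈ rp, ta^[k] a' = a

variable {R}

/-- induction on the power of the twist -/
private theorem Tw.all_of (T : R.Tw) (P : ℕ → ℕ → Prop)
    (h1 : ∀ a < N, ∀ b < N, P a b → P (T.ta a) (T.ta b))
    (h : ∀ a ∈ T.rp, ∀ b < N, P a b) {a b : ℕ} (ha : a < N) (hb : b < N) : P a b := by
  have key : ∀ k : ℕ, ∀ a' ∈ T.rp, T.ta^[k] a' < N ∧ ∀ b < N, P (T.ta^[k] a') b := by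
    intro k
    induction k with
    | zero =>
      intro a' ha'
      exact ⟨T.rp_lt a' ha', fun b hb => h a' ha' b hb⟩
    | succ k ih =>
      intro a' ha'
      obtain ⟨h2, h3⟩ := ih a' ha'
      rw [Function.iterate_succ_apply']
      refine ⟨T.ta_lt _ h2, fun b hb => ?_⟩
      have h4 := h1 _ h2 _ (T.ti_lt b hb) (h3 _ (T.ti_lt b hb))
      rwa [T.ta_ti b hb] at h4
  obtain ⟨k, a', ha', rfl⟩ := T.rep a ha
  exact (key k a' ha').2 b hb

/-- `(a, b) = (ta^[k] a', ta^[k] b')` with `b' = ti^[k] b`; `Jn_conj` -/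
theorem Tw.Jn_all (T : R.Tw) (h : ∀ a ∈ T.rp, ∀ b < N, R.L.Jn (R.t a) (R.t b)) {a b : ℕ}
    (ha : a < N) (hb : b < N) : R.L.Jn (R.t a) (R.t b) := by
  refine T.all_of (fun a b => R.L.Jn (R.t a) (R.t b)) ?_ h ha hb
  intro a ha b hb h1
  have h2 := R.L.Jn_conj h1
  rwa [T.ta_t a ha, T.ta_t b hb] at h2

theorem Tw.Cn_all (T : R.Tw) (h : ∀ a ∈ T.rp, ∀ b < N, R.L.Cn (R.t a) (R.t b)) {a b : ℕ}
    (ha : a < N) (hb : b < N) : R.L.Cn (R.t a) (R.t b) := by
  refine T.all_of (fun a b => R.L.Cn (R.t a) (R.t b)) ?_ h ha hb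
  intro a ha b hb h1
  have h2 := R.L.Cn_conj h1
  rwa [T.ta_t a ha, T.ta_t b hb] at h2

/-- `eq_t`, `Jn_all` -/
theorem Tw.atomJoin (T : R.Tw) (h : ∀ a ∈ T.rp, ∀ b < N, R.L.Jn (R.t a) (R.t b)) :
    R.L.AtomJoin := by
  intro s t _ _ hs ht
  obtain ⟨a, ha, rfl⟩ := R.eq_t hs
  obtain ⟨b, hb, rfl⟩ := R.eq_t ht
  exact T.Jn_all h ha hb

theorem Tw.hasJoin (T : R.Tw) (h : ∀ a ∈ T.rp, ∀ b < N, R.L.Jn (R.t a) (R.t b)) :
    R.L.HasJoin := R.L.hasJoin_of R.hasAtom (T.atomJoin h)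

variable (R)

/-- Let `x` be simple of length two and `t a ≤ x`.  Then `(t a)⁻¹ x` has length one, so it is
`t b`; `t b ≤ (t a)⁻¹ x ≤ (t a)⁻¹ c`, so `E (β b) (β a) = 0` (`le_iff_E` for `x = t a`). -/
theorem two_eq {x : R.Gr} (hx : R.L.Mem x) (h : R.L.r x = 2) {a : ℕ} (ha : a < N)
    (h1 : R.L.Le (R.t a) x) : ∃ b < N, x = R.W [a, b] ∧ R.E (R.β b) (R.β a) = 0 ∧
      (R.t a)⁻¹ * x = R.t b := by
  have h2 : R.L.r (R.t a) + R.L.r ((R.t a)⁻¹ * x) = R.L.r x := h1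
  rw [R.r_t ha, h] at h2
  obtain ⟨b, hb, hy⟩ := R.eq_t (x := (R.t a)⁻¹ * x) (by omega)
  refine ⟨b, hb, ?_, ?_, hy⟩
  · rw [R.W_cons, R.W_cons, R.W_nil, mul_one, ← hy, mul_inv_cancel_left]
  · refine (R.le_iff_E (R.mem_t ha) ha).1 (R.L.le_refl _) b hb ?_
    have h3 := R.L.q_mono h1 hx
    rwa [hy] at h3

end RG.RSys

end Pool.Agent.SPH
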