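import Pool.Agent.SPH.RG.RSys
import Pool.Agent.SPH.Dat

/-!
# Project SPH, root germs: the data of a root system

`RD` are the data: the coordinates `rt i j` of the positive roots (natural numbers), the edges
`(i, j)`, `i < j`, of the diagram, and tables.  The Euler form is
`E v w = ∑ i, v i * w i - ∑ (i, j) ∈ ed, v i * w j`; for two roots it is `dot - crs`.
-/

namespace Pool.Agent.SPH.RG

/-- `f 0 + ⋯ + f (n - 1)` -/
def smB (n : ℕ) (f : ℕ → ℕ) : ℕ := Nat.rec 0 (fun i r => Nat.add (f i) r) n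

theorem smB_eq (n : ℕ) (f : ℕ → ℕ) : smB n f = ∑ i ∈ Finset.range n, f i := by
  induction n with
  | zero => rfl
  | succ n ih =>
    show f n + smB n f = _
    rw [ih, Finset.sum_range_succ, add_comm]

/-- the sum of `f` over a list of pairs -/
def smP (l : List (ℕ × ℕ)) (f : ℕ → ℕ → ℕ) : ℕ :=
  List.rec 0 (fun p _ r => Nat.add (f p.1 p.2) r) l

theorem smP_eq (l : List (ℕ × ℕ)) (f : ℕ → ℕ → ℕ) :
    smP l f = (l.map fun p => f p.1 p.2).sum := by
  induction l with
  | nil => rfl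
  | cons p l ih =>
    show f p.1 p.2 + smP l f = _
    rw [ih, List.map_cons, List.sum_cons]

/-- coordinates with a natural number as index -/
noncomputable def co {n : ℕ} (v : Fin n → ℚ) (i : ℕ) : ℚ := if h : i < n then v ⟨i, h⟩ else 0

theorem co_add {n : ℕ} (v w : Fin n → ℚ) (i : ℕ) : co (v + w) i = co v i + co w i := by
  unfold co
  split
  · rfl
  · rw [add_zero]

theorem co_smul {n : ℕ} (a : ℚ) (v : Fin n → ℚ) (i : ℕ) : co (a • v) i = a * co v i := by
  unfold co
  split
  · rfl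
  · rw [mul_zero]

/-- the value of the Euler form -/
noncomputable def eu {n : ℕ} (ed : List (ℕ × ℕ)) (v w : Fin n → ℚ) : ℚ :=
  ∑ i, v i * w i - (ed.map fun p => co v p.1 * co w p.2).sum

private theorem eu_map_add (ed : List (ℕ × ℕ)) (f g h : ℕ × ℕ → ℚ)
    (hf : ∀ p, f p = g p + h p) : (ed.map f).sum = (ed.map g).sum + (ed.map h).sum := by
  induction ed with
  | nil => simp
  | cons p l ih => rw [List.map_cons, List.map_cons, List.map_cons, List.sum_cons, List.sum_cons,
      List.sum_cons, ih, hf]; ring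

private theorem eu_map_mul (ed : List (ℕ × ℕ)) (a : ℚ) (f g : ℕ × ℕ → ℚ)
    (hf : ∀ p, f p = a * g p) : (ed.map f).sum = a * (ed.map g).sum := by
  induction ed with
  | nil => simp
  | cons p l ih => rw [List.map_cons, List.map_cons, List.sum_cons, List.sum_cons, ih, hf]; ring

theorem eu_add_left {n : ℕ} (ed : List (ℕ × ℕ)) (v v' w : Fin n → ℚ) :
    eu ed (v + v') w = eu ed v w + eu ed v' w := by
  unfold eu
  rw [eu_map_add ed (fun p => co (v + v') p.1 * co w p.2) (fun p => co v p.1 * co w p.2)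
    (fun p => co v' p.1 * co w p.2) (fun p => by rw [co_add]; ring)]
  simp only [Pi.add_apply, add_mul, Finset.sum_add_distrib]
  ring

theorem eu_smul_left {n : ℕ} (ed : List (ℕ × ℕ)) (a : ℚ) (v w : Fin n → ℚ) :
    eu ed (a • v) w = a • eu ed v w := by
  unfold eu
  rw [eu_map_mul ed a (fun p => co (a • v) p.1 * co w p.2) (fun p => co v p.1 * co w p.2)
    (fun p => by rw [co_smul]; ring)]
  simp only [Pi.smul_apply, smul_eq_mul, mul_sub, Finset.mul_sum, mul_assoc]

theorem eu_add_right {n : ℕ} (ed : List (ℕ × ℕ)) (v w w' : Fin n → ℚ) :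
    eu ed v (w + w') = eu ed v w + eu ed v w' := by
  unfold eu
  rw [eu_map_add ed (fun p => co v p.1 * co (w + w') p.2) (fun p => co v p.1 * co w p.2)
    (fun p => co v p.1 * co w' p.2) (fun p => by rw [co_add]; ring)]
  simp only [Pi.add_apply, mul_add, Finset.sum_add_distrib]
  ring

theorem eu_smul_right {n : ℕ} (ed : List (ℕ × ℕ)) (a : ℚ) (v w : Fin n → ℚ) :
    eu ed v (a • w) = a • eu ed v w := by
  unfold eu
  rw [eu_map_mul ed a (fun p => co v p.1 * co (a • w) p.2) (fun p => co v p.1 * co w p.2)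
    (fun p => by rw [co_smul]; ring)]
  simp only [Pi.smul_apply, smul_eq_mul, mul_sub, Finset.mul_sum, mul_left_comm]

/-- the Euler form -/
noncomputable def euF (n : ℕ) (ed : List (ℕ × ℕ)) : LinearMap.BilinForm ℚ (Fin n → ℚ) :=
  LinearMap.mk₂ ℚ (eu ed) (eu_add_left ed) (eu_smul_left ed) (eu_add_right ed)
    (eu_smul_right ed)

theorem euF_apply {n : ℕ} (ed : List (ℕ × ℕ)) (v w : Fin n → ℚ) :
    euF n ed v w = ∑ i, v i * w i - (ed.map fun p => co v p.1 * co w p.2).sum := rfl

/-- the data -/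
structure RD where
  /-- the rank -/
  n : ℕ
  /-- the number of positive roots -/
  N : ℕ
  /-- the edges -/
  ed : List (ℕ × ℕ)
  /-- the coordinates of the roots -/
  rt : ℕ → ℕ → ℕ
  /-- the reflection of the root `j` in the simple root `i`; `x + N` stands for `- β x` -/
  ck : ℕ → ℕ → ℕ
  /-- the root `j` is the reflection of the root `qk j` in the simple root `qi j` -/
  qi : ℕ → ℕ
  /-- see `qi` -/
  qk : ℕ → ℕ
  /-- half of the Coxeter number -/
  m : ℕ
  /-- the twist -/
  ta : ℕ → ℕ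
  /-- the inverse twist -/
  ti : ℕ → ℕ
  /-- representatives of the orbits of the twist -/
  rp : List ℕ
  /-- the mask of the `s` with `E (β u) (β s) = 0` -/
  zS : ℕ → ℕ
  /-- the mask of the `u` with `E (β u) (β s) = 0` -/
  zU : ℕ → ℕ
  /-- the conjugates `u⁻¹ t u` -/
  d : ℕ → ℕ → ℕ

namespace RD

variable (D : RD)

/-- the roots -/
def be (i : ℕ) : Fin D.n → ℚ := fun j => (D.rt i j : ℚ)

/-- the Euler form -/
noncomputable def eF : LinearMap.BilinForm ℚ (Fin D.n → ℚ) := euF D.n D.ed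

/-- the first part of the Euler form -/
def dot (u s : ℕ) : ℕ := smB D.n fun i => Nat.mul (D.rt u i) (D.rt s i)

/-- the second part of the Euler form -/
def crs (u s : ℕ) : ℕ := smP D.ed fun i j => Nat.mul (D.rt u i) (D.rt s j)

/-- the positive part of the invariant form -/
def bp (u s : ℕ) : ℕ := Nat.add (D.dot u s) (D.dot s u)

/-- the negative part of the invariant form -/
def bm (u s : ℕ) : ℕ := Nat.add (D.crs u s) (D.crs s u)

/-- `E (β u) (β s) = 0` -/
def z (u s : ℕ) : Bool := Nat.beq (D.dot u s) (D.crs u s)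

/-- `β k` is the reflection of `β j` in `β i` -/
def rf1 (j i k : ℕ) : Bool := allB D.n fun l =>
  Nat.beq (Nat.add (D.rt k l) (Nat.mul (D.bp j i) (D.rt i l)))
    (Nat.add (D.rt j l) (Nat.mul (D.bm j i) (D.rt i l)))

/-- `- β k` is the reflection of `β j` in `β i` -/
def rf2 (j i k : ℕ) : Bool := allB D.n fun l =>
  Nat.beq (Nat.add (D.rt k l) (Nat.add (D.rt j l) (Nat.mul (D.bm j i) (D.rt i l))))
    (Nat.mul (D.bp j i) (D.rt i l))

/-- all the edges are in the range -/
def edB : Bool := List.rec true (fun p _ r => an (Nat.blt p.1 D.n) (an (Nat.blt p.2 D.n) r)) D.ed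

variable {D}

private theorem edB_aux (n : ℕ) (l : List (ℕ × ℕ))
    (h : (List.rec true (fun p _ r => an (Nat.blt p.1 n) (an (Nat.blt p.2 n) r)) l : Bool) =
      true) : ∀ p ∈ l, p.1 < n ∧ p.2 < n := by
  induction l with
  | nil => intro p hp; simp at hp
  | cons q l ih =>
    intro p hp
    obtain ⟨h1, h2⟩ := an_spec h
    obtain ⟨h3, h4⟩ := an_spec h2
    rcases List.mem_cons.mp hp with rfl | hp
    · exact ⟨by simpa [Nat.blt_eq] using h1, by simpa [Nat.blt_eq] using h3⟩
    · exact ih h4 p hp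

theorem edB_spec (h : D.edB = true) : ∀ p ∈ D.ed, p.1 < D.n ∧ p.2 < D.n :=
  edB_aux D.n D.ed h

/-- `co (be u) i = rt u i` for `i < n`; `smB_eq`, `smP_eq`, `Finset.sum_range` -/
theorem eF_be (h : D.edB = true) (u s : ℕ) :
    D.eF (D.be u) (D.be s) = (D.dot u s : ℚ) - D.crs u s := by
  have hd : (D.dot u s : ℚ) = ∑ i, D.be u i * D.be s i := by
    show ((smB D.n fun i => Nat.mul (D.rt u i) (D.rt s i) : ℕ) : ℚ) = _
    rw [smB_eq, Finset.sum_range]
    push_cast
    refine Finset.sum_congr rfl fun i _ => ?_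
    show ((D.rt u i * D.rt s i : ℕ) : ℚ) = _
    rw [Nat.cast_mul]
    rfl
  have hc : (D.crs u s : ℚ) =
      (D.ed.map fun p => co (D.be u) p.1 * co (D.be s) p.2).sum := by
    show ((smP D.ed fun i j => Nat.mul (D.rt u i) (D.rt s j) : ℕ) : ℚ) = _
    rw [smP_eq, Nat.cast_list_sum, List.map_map]
    congr 1
    refine List.map_congr_left fun p hp => ?_
    obtain ⟨h1, h2⟩ := edB_spec h p hp
    show ((D.rt u p.1 * D.rt s p.2 : ℕ) : ℚ) = _
    rw [Nat.cast_mul, co, co, dif_pos h1, dif_pos h2]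
    rfl
  rw [hd, hc]
  rfl

theorem symB_be (h : D.edB = true) (u s : ℕ) :
    symB D.eF (D.be u) (D.be s) = (D.bp u s : ℚ) - D.bm u s := by
  rw [symB_apply, eF_be h, eF_be h]
  show _ = ((D.dot u s + D.dot s u : ℕ) : ℚ) - ((D.crs u s + D.crs s u : ℕ) : ℚ)
  push_cast
  ring

theorem z_iff (h : D.edB = true) (u s : ℕ) :
    D.z u s = true ↔ D.eF (D.be u) (D.be s) = 0 := by
  rw [eF_be h, sub_eq_zero, Nat.cast_inj]
  show Nat.beq _ _ = true ↔ _
  rw [Nat.beq_eq]

theorem rf1_spec (h : D.edB = true) {j i k : ℕ} (hc : D.rf1 j i k = true) :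
    rfl' D.eF (D.be i) (D.be j) = D.be k := by
  funext l
  have h1 : D.rt k l + D.bp j i * D.rt i l = D.rt j l + D.bm j i * D.rt i l :=
    Nat.eq_of_beq_eq_true (allB_spec hc l.1 l.2)
  have h2 : (D.rt k l : ℚ) + D.bp j i * D.rt i l = D.rt j l + D.bm j i * D.rt i l := by
    exact_mod_cast h1
  show (D.rt j l : ℚ) - symB D.eF (D.be j) (D.be i) * (D.rt i l : ℚ) = (D.rt k l : ℚ)
  rw [symB_be h]
  linear_combination -h2

theorem rf2_spec (h : D.edB = true) {j i k : ℕ} (hc : D.rf2 j i k = true) :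
    rfl' D.eF (D.be i) (D.be j) = -D.be k := by
  funext l
  have h1 : D.rt k l + (D.rt j l + D.bm j i * D.rt i l) = D.bp j i * D.rt i l :=
    Nat.eq_of_beq_eq_true (allB_spec hc l.1 l.2)
  have h2 : (D.rt k l : ℚ) + (D.rt j l + D.bm j i * D.rt i l) = D.bp j i * D.rt i l := by
    exact_mod_cast h1
  show (D.rt j l : ℚ) - symB D.eF (D.be j) (D.be i) * (D.rt i l : ℚ) = -(D.rt k l : ℚ)
  rw [symB_be h]
  linear_combination h2

end RD

end Pool.Agent.SPH.RG
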