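import Pool.Agent.SPH.RG.Dat1
import Pool.Agent.SPH.AdChk

/-!
# Project SPH, root germs: the root system of the data
-/

namespace Pool.Agent.SPH.RG

namespace RD

variable (D : RD)

/-- the vector with the signed number `x` -/
noncomputable def sv (x : ℕ) : Fin D.n → ℚ := if x < D.N then D.be x else -D.be (x - D.N)

/-- the signed number of the negative -/
def ng (x : ℕ) : ℕ := cond (Nat.blt x D.N) (Nat.add x D.N) (Nat.sub x D.N)

/-- the reflection of the vector with the signed number `x` in the simple root `i` -/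
def rs (i x : ℕ) : ℕ := cond (Nat.blt x D.N) (D.ck i x) (D.ng (D.ck i (Nat.sub x D.N)))

/-- the Coxeter element on signed numbers: the reflections `n - 1, …, 0` in this order -/
def cs (x : ℕ) : ℕ := (List.range D.n).foldr (fun i x => D.rs i x) x

/-- the checks of the root `j` -/
def chkR (j : ℕ) : Bool :=
  an (cond (Nat.blt j D.n) (allB D.n fun l => Nat.beq (D.rt j l) (cond (Nat.beq j l) 1 0)) (
      an (Nat.blt (D.qi j) D.n) (an (Nat.blt (D.qk j) j) (D.rf1 (D.qk j) (D.qi j) j))))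
    (an (Nat.beq (D.dot j j) (Nat.add (D.crs j j) 1))
      (an (cond (Nat.beq (smB D.n (D.rt j)) 1) (Nat.blt j D.n) true)
        (allB j fun i => cond (allB D.n fun l => Nat.beq (D.rt i l) (D.rt j l)) false true)))

/-- the checks of the simple root `i` -/
def chkI (i : ℕ) : Bool :=
  an (allB i fun j => D.z i j)
    (an (Nat.beq (smB D.N fun j => D.bp j i) (Nat.add 2 (smB D.N fun j => D.bm j i)))
      (an (Nat.beq (itN D.cs D.m i) (Nat.add D.N i))
        (allB D.N fun j => cond (Nat.blt (D.ck i j) D.N) (D.rf1 j i (D.ck i j))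
          (an (Nat.blt (D.ck i j) (Nat.add D.N D.N)) (D.rf2 j i (Nat.sub (D.ck i j) D.N))))))

/-- `E (β b) (β k) = ∓ E (β k) (β a)` for all simple `β k` -/
def tq (a b : ℕ) : Bool :=
  cond (allB D.n fun k => Nat.beq (Nat.add (D.dot b k) (D.dot k a))
    (Nat.add (D.crs b k) (D.crs k a))) true
    (allB D.n fun k => Nat.beq (Nat.add (D.dot b k) (D.crs k a))
      (Nat.add (D.crs b k) (D.dot k a)))

/-- the checks of the twist at `i` -/
def chkW (i : ℕ) : Bool :=
  an (Nat.blt (D.ta i) D.N) (an (Nat.blt (D.ti i) D.N) (an (Nat.beq (D.ta (D.ti i)) i)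
    (an (D.tq i (D.ta i)) (exL D.rp fun a => itx D.ta (Nat.add D.m 1) a i))))

/-- the checks of the masks at `u` -/
def chkZ (u : ℕ) : Bool :=
  an (Nat.blt (D.zU u) (Nat.pow 2 D.N)) (allB D.N fun s =>
    an (cond (CD.bit (D.zS u) s) (D.z u s) (cond (D.z u s) false true))
      (cond (CD.bit (D.zU s) u) (D.z u s) (cond (D.z u s) false true)))

/-- the data are correct -/
structure Ok : Prop where
  hn : D.n ≤ D.N
  m_pos : 0 < D.m
  ed : D.edB = true
  pos : ∀ v, v ≠ 0 → 0 < D.eF v v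
  noaut : ∀ σ : Fin D.n → Fin D.n,
    (∀ i j, symB D.eF (D.be (σ i)) (D.be (σ j)) = symB D.eF (D.be i) (D.be j)) → ∀ i, σ i = i
  R : allB D.N D.chkR = true
  I : allB D.n D.chkI = true
  W : allB D.N D.chkW = true
  rp : allL D.rp (fun a => Nat.blt a D.N) = true
  Z : allB D.N D.chkZ = true

namespace Ok

variable {D} (h : D.Ok)

include h

private theorem g4_chk {j : ℕ} (hj : j < D.N) :
    (cond (Nat.blt j D.n) (allB D.n fun l => Nat.beq (D.rt j l) (cond (Nat.beq j l) 1 0)) (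
      an (Nat.blt (D.qi j) D.n) (an (Nat.blt (D.qk j) j) (D.rf1 (D.qk j) (D.qi j) j)))) = true ∧
    D.dot j j = D.crs j j + 1 ∧
    (cond (Nat.beq (smB D.n (D.rt j)) 1) (Nat.blt j D.n) true) = true ∧
    (allB j fun i => cond (allB D.n fun l => Nat.beq (D.rt i l) (D.rt j l)) false true) = true := by
  obtain ⟨h1, h2⟩ := an_spec (allB_spec h.R j hj)
  obtain ⟨h3, h4⟩ := an_spec h2
  obtain ⟨h5, h6⟩ := an_spec h4
  exact ⟨h1, Nat.eq_of_beq_eq_true h3, h5, h6⟩

omit h in
private theorem g4_all {n : ℕ} {p : ℕ → Bool} (hp : ∀ i < n, p i = true) : allB n p = true := by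
  induction n with
  | zero => rfl
  | succ n ih =>
    change cond (p n) (allB n p) false = true
    rw [hp n (Nat.lt_succ_self n), cond_true]
    exact ih fun i hi => hp i (Nat.lt_succ_of_lt hi)

theorem simple (i : ℕ) (hi : i < D.n) : D.be i = Pi.single ⟨i, hi⟩ 1 := by
  have h1 := (h.g4_chk (lt_of_lt_of_le hi h.hn)).1
  have hb : Nat.blt i D.n = true := by simpa using hi
  rw [hb, cond_true] at h1
  funext l
  have h2 := Nat.eq_of_beq_eq_true (allB_spec h1 l.1 l.2)
  change (D.rt i l.1 : ℚ) = _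
  rw [h2]
  by_cases hil : i = l.1
  · have h3 : Nat.beq i l.1 = true := by rw [Nat.beq_eq]; exact hil
    have h4 : (⟨i, hi⟩ : Fin D.n) = l := Fin.ext hil
    rw [h3, cond_true, h4, Pi.single_eq_same, Nat.cast_one]
  · have h3 : Nat.beq i l.1 = false := by
      rw [Bool.eq_false_iff]
      intro e
      exact hil (Nat.eq_of_beq_eq_true e)
    have h4 : l ≠ (⟨i, hi⟩ : Fin D.n) := fun e => hil (by rw [e])
    rw [h3, cond_false, Pi.single_eq_of_ne h4, Nat.cast_zero]

theorem norm (i : ℕ) (hi : i < D.N) : D.eF (D.be i) (D.be i) = 1 := by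
  rw [eF_be h.ed, (h.g4_chk hi).2.1]
  push_cast
  ring

private theorem g4_inj {i j : ℕ} (hij : i < j) (hj : j < D.N) : D.be i ≠ D.be j := by
  intro e
  have h1 := allB_spec (h.g4_chk hj).2.2.2 i hij
  have h2 : (allB D.n fun l => Nat.beq (D.rt i l) (D.rt j l)) = true := by
    apply g4_all
    intro l hl
    have h3 : (D.rt i l : ℚ) = (D.rt j l : ℚ) := congrFun e ⟨l, hl⟩
    have h4 : D.rt i l = D.rt j l := by exact_mod_cast h3
    rw [Nat.beq_eq]
    exact h4
  change cond (allB D.n fun l => Nat.beq (D.rt i l) (D.rt j l)) false true = true at h1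
  rw [h2, cond_true] at h1
  exact absurd h1 (by simp)

theorem inj (i : ℕ) (hi : i < D.N) (j : ℕ) (hj : j < D.N) (e : D.be i = D.be j) : i = j := by
  rcases lt_trichotomy i j with h1 | h1 | h1
  · exact absurd e (h.g4_inj h1 hj)
  · exact h1
  · exact absurd e.symm (h.g4_inj h1 hi)

theorem conj (j : ℕ) (hj : j < D.N) (hn : D.n ≤ j) :
    ∃ i < D.n, ∃ k < j, D.be j = rfl' D.eF (D.be i) (D.be k) := by
  have h1 := (h.g4_chk hj).1
  have hb : Nat.blt j D.n = false := by
    rw [Bool.eq_false_iff]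
    intro e
    have h2 : j < D.n := by simpa using e
    omega
  rw [hb, cond_false] at h1
  obtain ⟨h2, h3⟩ := an_spec h1
  obtain ⟨h4, h5⟩ := an_spec h3
  exact ⟨D.qi j, by simpa using h2, D.qk j, by simpa using h4, (rf1_spec h.ed h5).symm⟩

/-- `∑ l, rt j l = 1` in the natural numbers -/
theorem ht (j : ℕ) (hj : j < D.N) (e : ∑ i, D.be j i = 1) : j < D.n := by
  have h1 := (h.g4_chk hj).2.2.1
  have h2 : smB D.n (D.rt j) = 1 := by
    rw [smB_eq, Finset.sum_range]
    have h3 : ((∑ i : Fin D.n, D.rt j i.1 : ℕ) : ℚ) = 1 := by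
      rw [Nat.cast_sum]
      exact e
    exact_mod_cast h3
  have h3 : Nat.beq (smB D.n (D.rt j)) 1 = true := by rw [Nat.beq_eq]; exact h2
  rw [h3, cond_true] at h1
  simpa using h1

theorem Eup (i j : ℕ) (hij : i < j) (hj : j < D.n) : D.eF (D.be j) (D.be i) = 0 := by
  have h1 := allB_spec (an_spec (allB_spec h.I j hj)).1 i hij
  exact (z_iff h.ed j i).1 h1

theorem rho (i : ℕ) (hi : i < D.n) :
    ∑ j ∈ Finset.range D.N, symB D.eF (D.be j) (D.be i) = 2 := by
  have h1 := Nat.eq_of_beq_eq_true (an_spec (an_spec (allB_spec h.I i hi)).2).1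
  rw [smB_eq, smB_eq] at h1
  have h2 : ∑ j ∈ Finset.range D.N, D.bp j i = 2 + ∑ j ∈ Finset.range D.N, D.bm j i := h1
  have h3 : (∑ j ∈ Finset.range D.N, (D.bp j i : ℚ)) =
      2 + ∑ j ∈ Finset.range D.N, (D.bm j i : ℚ) := by exact_mod_cast h2
  have h4 : ∀ j ∈ Finset.range D.N, symB D.eF (D.be j) (D.be i) = (D.bp j i : ℚ) - D.bm j i :=
    fun j _ => symB_be h.ed j i
  rw [Finset.sum_congr rfl h4, Finset.sum_sub_distrib, h3]
  ring

private theorem ck_chk {i j : ℕ} (hi : i < D.n) (hj : j < D.N) :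
    (D.ck i j < D.N ∧ D.rf1 j i (D.ck i j) = true) ∨
      (D.N ≤ D.ck i j ∧ D.ck i j < D.N + D.N ∧ D.rf2 j i (D.ck i j - D.N) = true) := by
  have h1 : cond (Nat.blt (D.ck i j) D.N) (D.rf1 j i (D.ck i j))
      (an (Nat.blt (D.ck i j) (Nat.add D.N D.N)) (D.rf2 j i (Nat.sub (D.ck i j) D.N))) = true :=
    allB_spec (an_spec (an_spec (an_spec (allB_spec h.I i hi)).2).2).2 j hj
  cases hc : Nat.blt (D.ck i j) D.N with
  | true =>
    rw [hc] at h1
    exact Or.inl ⟨Nat.le_of_ble_eq_true hc, h1⟩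
  | false =>
    rw [hc] at h1
    obtain ⟨h2, h3⟩ := an_spec h1
    refine Or.inr ⟨?_, Nat.le_of_ble_eq_true h2, h3⟩
    by_contra hlt
    have h4 : Nat.blt (D.ck i j) D.N = true := Nat.ble_eq_true_of_le (not_le.1 hlt)
    rw [h4] at hc
    exact absurd hc (by simp)

theorem ck_lt {i j : ℕ} (hi : i < D.n) (hj : j < D.N) : D.ck i j < 2 * D.N := by
  rcases h.ck_chk hi hj with ⟨h1, -⟩ | ⟨-, h1, -⟩ <;> omega

theorem ck_sv {i j : ℕ} (hi : i < D.n) (hj : j < D.N) :
    rfl' D.eF (D.be i) (D.be j) = D.sv (D.ck i j) := by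
  unfold sv
  rcases h.ck_chk hi hj with ⟨h1, h2⟩ | ⟨h1, -, h2⟩
  · rw [if_pos h1]
    exact rf1_spec h.ed h2
  · rw [if_neg (not_lt.2 h1)]
    exact rf2_spec h.ed h2

theorem ng_sv {x : ℕ} (hx : x < 2 * D.N) : D.ng x < 2 * D.N ∧ D.sv (D.ng x) = -D.sv x := by
  unfold ng sv
  by_cases hx' : x < D.N
  · have h1 : Nat.blt x D.N = true := by simpa using hx'
    rw [h1, cond_true]
    change x + D.N < 2 * D.N ∧ (if x + D.N < D.N then D.be (x + D.N) else -D.be (x + D.N - D.N)) =
      -(if x < D.N then D.be x else -D.be (x - D.N))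
    rw [if_neg (by omega), if_pos hx', Nat.add_sub_cancel]
    exact ⟨by omega, rfl⟩
  · have h1 : Nat.blt x D.N = false := by
      rw [Bool.eq_false_iff]
      intro h2
      exact hx' (by simpa using h2)
    rw [h1, cond_false]
    change x - D.N < 2 * D.N ∧ (if x - D.N < D.N then D.be (x - D.N) else
      -D.be (x - D.N - D.N)) = -(if x < D.N then D.be x else -D.be (x - D.N))
    rw [if_pos (by omega), if_neg hx', neg_neg]
    exact ⟨by omega, rfl⟩

private theorem g6_neg (b v : Fin D.n → ℚ) : rfl' D.eF b (-v) = -rfl' D.eF b v := by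
  unfold rfl'
  rw [map_neg, LinearMap.neg_apply, neg_smul]
  abel

theorem rs_sv {i x : ℕ} (hi : i < D.n) (hx : x < 2 * D.N) :
    D.rs i x < 2 * D.N ∧ D.sv (D.rs i x) = rfl' D.eF (D.be i) (D.sv x) := by
  unfold rs
  by_cases hx' : x < D.N
  · have h1 : Nat.blt x D.N = true := by simpa using hx'
    rw [h1, cond_true]
    refine ⟨h.ck_lt hi hx', ?_⟩
    rw [← h.ck_sv hi hx']
    congr 1
    unfold sv
    rw [if_pos hx']
  · have h1 : Nat.blt x D.N = false := by
      rw [Bool.eq_false_iff]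
      intro h2
      exact hx' (by simpa using h2)
    rw [h1, cond_false]
    change D.ng (D.ck i (x - D.N)) < 2 * D.N ∧ D.sv (D.ng (D.ck i (x - D.N))) = _
    have h2 : x - D.N < D.N := by omega
    obtain ⟨h3, h4⟩ := h.ng_sv (h.ck_lt hi h2)
    refine ⟨h3, ?_⟩
    rw [h4, ← h.ck_sv hi h2]
    have h5 : D.sv x = -D.be (x - D.N) := by
      unfold sv
      rw [if_neg hx']
    rw [h5, h.g6_neg]

private theorem g6_fold {x : ℕ} (hx : x < 2 * D.N) (l : List ℕ) (hl : ∀ i ∈ l, i < D.n) :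
    l.foldr (fun i x => D.rs i x) x < 2 * D.N ∧
    D.sv (l.foldr (fun i x => D.rs i x) x) =
      l.foldr (fun i v => rfl' D.eF (D.be i) v) (D.sv x) := by
  induction l with
  | nil => exact ⟨hx, rfl⟩
  | cons i l ih =>
    obtain ⟨h1, h2⟩ := ih (fun j hj => hl j (List.mem_cons_of_mem _ hj))
    obtain ⟨h3, h4⟩ := h.rs_sv (hl i List.mem_cons_self) h1
    rw [List.foldr_cons, List.foldr_cons, ← h2]
    exact ⟨h3, h4⟩

theorem cs_sv {x : ℕ} (hx : x < 2 * D.N) : D.cs x < 2 * D.N ∧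
    D.sv (D.cs x) = (List.range D.n).foldr (fun i v => rfl' D.eF (D.be i) v) (D.sv x) := by
  exact h.g6_fold hx (List.range D.n) (fun i hi => List.mem_range.1 hi)

private theorem g6_lin (l : List ℕ) : ∃ L : (Fin D.n → ℚ) →ₗ[ℚ] (Fin D.n → ℚ), ∀ v,
    L v = l.foldr (fun i v => rfl' D.eF (D.be i) v) v := by
  induction l with
  | nil => exact ⟨LinearMap.id, fun _ => rfl⟩
  | cons i l ih =>
    obtain ⟨L, hL⟩ := ih
    refine ⟨(LinearMap.id - (LinearMap.flip (symB D.eF) (D.be i)).smulRight (D.be i)) ∘ₗ L,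
      fun v => ?_⟩
    rw [List.foldr_cons, ← hL]
    rfl

/-- the map is linear, and it is `-1` at the simple roots by `cs_sv` and the check -/
theorem cpow (v : Fin D.n → ℚ) :
    (fun v => (List.range D.n).foldr (fun i v => rfl' D.eF (D.be i) v) v)^[D.m] v = -v := by
  obtain ⟨L, hL⟩ := h.g6_lin (List.range D.n)
  have hF : (fun v => (List.range D.n).foldr (fun i v => rfl' D.eF (D.be i) v) v) = ⇑L := by
    funext w
    exact (hL w).symm
  rw [hF, ← Module.End.pow_apply]
  have hit : ∀ (k x : ℕ), x < 2 * D.N → D.cs^[k] x < 2 * D.N ∧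
      L^[k] (D.sv x) = D.sv (D.cs^[k] x) := by
    intro k
    induction k with
    | zero => exact fun x hx => ⟨hx, rfl⟩
    | succ k ih =>
      intro x hx
      obtain ⟨h1, h2⟩ := h.cs_sv hx
      rw [Function.iterate_succ_apply, Function.iterate_succ_apply, hL, ← h2]
      exact ih _ h1
  have key : L ^ D.m = -LinearMap.id := by
    refine (Pi.basisFun ℚ (Fin D.n)).ext fun i => ?_
    rw [Pi.basisFun_apply, LinearMap.neg_apply, LinearMap.id_apply, Module.End.pow_apply,
      ← h.simple i.1 i.2]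
    have hiN : i.1 < D.N := lt_of_lt_of_le i.2 h.hn
    have h1 : D.sv i.1 = D.be i.1 := by
      unfold sv
      rw [if_pos hiN]
    rw [← h1, (hit D.m i.1 (by omega)).2]
    have h2 := allB_spec h.I i.1 i.2
    unfold chkI at h2
    have h3 := (an_spec (an_spec (an_spec h2).2).2).1
    have h4 := Nat.eq_of_beq_eq_true h3
    rw [itN_eq] at h4
    rw [h4]
    change D.sv (D.N + i.1) = _
    unfold sv
    rw [if_neg (by omega), if_pos hiN, Nat.add_sub_cancel_left]
  rw [key]
  rfl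

end Ok

/-- the root system -/
noncomputable def rsys (h : D.Ok) : RSys D.n D.N where
  E := D.eF
  β := D.be
  pos := h.pos
  hn := h.hn
  simple := h.simple
  Eup := h.Eup
  norm := h.norm
  nonneg i _ j := Nat.cast_nonneg _
  inj := h.inj
  closed i hi j hj := by
    have h1 := h.ck_sv hi hj
    have h2 := h.ck_lt hi hj
    unfold sv at h1
    by_cases h3 : D.ck i j < D.N
    · rw [if_pos h3] at h1
      exact ⟨_, h3, Or.inl h1⟩
    · rw [if_neg h3] at h1
      exact ⟨_, by omega, Or.inr h1⟩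
  conj := h.conj
  ht := h.ht
  rho := h.rho
  noaut := h.noaut
  m := D.m
  m_pos := h.m_pos
  cpow := h.cpow

end RD

end Pool.Agent.SPH.RG
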