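import Pool.Agent.SPH.RG.Dat2
import Pool.Agent.SPH.RG.Conn

/-!
# Project SPH, root germs: the lattice property and connectivity from the data
-/

namespace Pool.Agent.SPH.RG

/-- the data of a pair `a`, `b` of atoms: the exceptional sequence `l₁ ++ l₂`, where `l₁` spans the
closure of `a` and `b`, and the interior points `p` of a path -/
structure PD where
  /-- the first part -/
  l₁ : List ℕ
  /-- the second part -/
  l₂ : List ℕ
  /-- the path -/
  p : List ℕ

namespace RD

section Defs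

variable (D : RD)

/-- `Cl a b j` -/
def clB (a b j : ℕ) : Bool :=
  Nat.beq (Nat.land (Nat.land (D.zU a) (D.zU b)) (D.zU j)) (Nat.land (D.zU a) (D.zU b))

/-- the pair is exceptional in one of the two orders -/
def adB (x y : ℕ) : Bool := cond (CD.bit (D.zU x) y) true (CD.bit (D.zU y) x)

/-- exceptional sequences -/
def exB (l : List ℕ) : Bool :=
  List.rec true (fun i l r => an (Nat.blt i D.N) (an (allL l fun j => CD.bit (D.zS j) i) r)) l

/-- the path from `x` over the points of the list to `b` -/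
def paB (a b : ℕ) (l : List ℕ) : ℕ → Bool :=
  List.rec (fun x => D.adB x b)
    (fun y _ r x => an (Nat.blt y D.N) (an (D.clB a b y) (an (D.adB x y) (r y)))) l

/-- the check of the data of a pair -/
def prB (a b : ℕ) (e : PD) : Bool :=
  cond (Nat.beq a b) true (an (Nat.beq (e.l₁ ++ e.l₂).length D.n) (an (D.exB (e.l₁ ++ e.l₂))
    (an (allL e.l₂ fun u => an (CD.bit (D.zS u) a) (CD.bit (D.zS u) b))
      (an (allL e.l₁ fun i => D.clB a b i) (D.paB a b e.p a)))))

/-- the check of the pairs `a`, `b` for `b = b₀, b₀ + 1, …, N - 1` -/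
def roB (a : ℕ) (l : List PD) : ℕ → Bool :=
  List.rec (fun b => Nat.beq b D.N) (fun e _ r b => an (D.prB a b e) (r (Nat.succ b))) l

end Defs

variable {D : RD} (h : D.Ok)

private theorem g7_cond {a b : Bool} (hab : cond a b (cond b false true) = true) :
    a = true ↔ b = true := by
  cases a with
  | true =>
    have h1 : b = true := hab
    exact ⟨fun _ => h1, fun _ => rfl⟩
  | false =>
    cases b with
    | true => exact absurd hab (by simp)
    | false => exact Iff.rfl

theorem zS_iff {u s : ℕ} (hu : u < D.N) (hs : s < D.N) :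
    CD.bit (D.zS u) s = true ↔ (D.rsys h).E ((D.rsys h).β u) ((D.rsys h).β s) = 0 := by
  have h1 := (an_spec (allB_spec (an_spec (allB_spec h.Z u hu)).2 s hs)).1
  exact (g7_cond h1).trans (z_iff h.ed u s)

theorem zU_iff {u s : ℕ} (hu : u < D.N) (hs : s < D.N) :
    CD.bit (D.zU s) u = true ↔ (D.rsys h).E ((D.rsys h).β u) ((D.rsys h).β s) = 0 := by
  have h1 := (an_spec (allB_spec (an_spec (allB_spec h.Z u hu)).2 s hs)).2
  exact (g7_cond h1).trans (z_iff h.ed u s)

private theorem g7_bit (a k : ℕ) : CD.bit a k = a.testBit k := by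
  rw [Nat.testBit_eq_decide_div_mod_eq]
  show Nat.beq ((a >>> k) % 2) 1 = _
  rw [Nat.shiftRight_eq_div_pow]
  cases hd : Nat.beq (a / 2 ^ k % 2) 1 with
  | true => exact (decide_eq_true (Nat.eq_of_beq_eq_true hd)).symm
  | false => exact (decide_eq_false (Nat.ne_of_beq_eq_false hd)).symm

/-- the masks `zU` have only bits `< N`; `CD.bit a i = a.testBit i` -/
theorem cl_iff {a b j : ℕ} (ha : a < D.N) (hb : b < D.N) (hj : j < D.N) :
    D.clB a b j = true ↔ (D.rsys h).Cl a b j := by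
  constructor
  · intro h1 u hu e1 e2
    have h2 : D.zU a &&& D.zU b &&& D.zU j = D.zU a &&& D.zU b := Nat.eq_of_beq_eq_true h1
    rw [← zU_iff h hu ha, g7_bit] at e1
    rw [← zU_iff h hu hb, g7_bit] at e2
    rw [← zU_iff h hu hj, g7_bit]
    have h3 := congrArg (fun m => Nat.testBit m u) h2
    simp only [Nat.testBit_and, e1, e2, Bool.and_self, Bool.true_and] at h3
    exact h3
  · intro h1
    have h2 : D.zU a &&& D.zU b &&& D.zU j = D.zU a &&& D.zU b := by
      apply Nat.eq_of_testBit_eq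
      intro u
      rw [Nat.testBit_and, Nat.testBit_and]
      by_cases hu : u < D.N
      · cases e1 : (D.zU a).testBit u with
        | false => simp
        | true =>
          cases e2 : (D.zU b).testBit u with
          | false => simp
          | true =>
            have h3 := h1 u hu ((zU_iff h hu ha).1 (by rw [g7_bit, e1]))
              ((zU_iff h hu hb).1 (by rw [g7_bit, e2]))
            rw [← zU_iff h hu hj, g7_bit] at h3
            simp [h3]
      · have h3 : D.zU a < 2 ^ D.N :=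
          Nat.le_of_ble_eq_true (an_spec (allB_spec h.Z a ha)).1
        have h4 : D.zU a < 2 ^ u := lt_of_lt_of_le h3 (Nat.pow_le_pow_right (by norm_num)
          (by omega))
        rw [Nat.testBit_lt_two_pow h4]
        simp
    show Nat.beq (D.zU a &&& D.zU b &&& D.zU j) (D.zU a &&& D.zU b) = true
    rw [h2]
    exact Nat.beq_refl _

theorem ex_spec {l : List ℕ} (hl : D.exB l = true) : (D.rsys h).Exc l := by
  induction l with
  | nil => exact ⟨fun i hi => absurd hi List.not_mem_nil, List.Pairwise.nil⟩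
  | cons i l ih =>
    have h1 : an (Nat.blt i D.N) (an (allL l fun j => CD.bit (D.zS j) i) (D.exB l)) = true := hl
    obtain ⟨h2, h3⟩ := an_spec h1
    obtain ⟨h4, h5⟩ := an_spec h3
    obtain ⟨h6, h7⟩ := ih h5
    have hi : i < D.N := Nat.le_of_ble_eq_true h2
    refine ⟨?_, List.pairwise_cons.2 ⟨fun j hj => ?_, h7⟩⟩
    · intro j hj
      rcases List.mem_cons.1 hj with rfl | hj
      · exact hi
      · exact h6 j hj
    · exact (zS_iff h (h6 j hj) hi).1 (allL_spec h4 j hj)

private theorem g8_cond {a b : Bool} (h : cond a true b = true) : a = true ∨ b = true := by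
  cases a with
  | true => exact Or.inl rfl
  | false => exact Or.inr h

private theorem g8_ad {x y : ℕ} (hx : x < D.N) (hy : y < D.N) (hl : D.adB x y = true) :
    (D.rsys h).E ((D.rsys h).β y) ((D.rsys h).β x) = 0 ∨
      (D.rsys h).E ((D.rsys h).β x) ((D.rsys h).β y) = 0 := by
  rcases g8_cond hl with h1 | h1
  · exact Or.inl ((zU_iff h hy hx).1 h1)
  · exact Or.inr ((zU_iff h hx hy).1 h1)

private theorem g8_pa {a b : ℕ} (ha : a < D.N) (hb : b < D.N) {l : List ℕ} :
    ∀ x, x < D.N → (D.rsys h).Cl a b x → D.paB a b l x = true →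
    Relation.ReflTransGen (fun i j => i < D.N ∧ j < D.N ∧ (D.rsys h).Cl a b i ∧
      (D.rsys h).Cl a b j ∧ ((D.rsys h).E ((D.rsys h).β j) ((D.rsys h).β i) = 0 ∨
        (D.rsys h).E ((D.rsys h).β i) ((D.rsys h).β j) = 0)) x b := by
  induction l with
  | nil =>
    intro x hx hc hl
    have h1 : D.adB x b = true := hl
    exact Relation.ReflTransGen.single ⟨hx, hb, hc, fun u _ _ h3 => h3, g8_ad h hx hb h1⟩
  | cons y l ih =>
    intro x hx hc hl
    have h1 : an (Nat.blt y D.N) (an (D.clB a b y) (an (D.adB x y) (D.paB a b l y))) = true := hl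
    obtain ⟨h2, h3⟩ := an_spec h1
    obtain ⟨h4, h5⟩ := an_spec h3
    obtain ⟨h6, h7⟩ := an_spec h5
    have hy : y < D.N := Nat.le_of_ble_eq_true h2
    have hcy := (cl_iff h ha hb hy).1 h4
    exact Relation.ReflTransGen.head ⟨hx, hy, hc, hcy, g8_ad h hx hy h6⟩ (ih y hy hcy h7)

theorem pa_spec {a b : ℕ} (ha : a < D.N) (hb : b < D.N) {l : List ℕ}
    (hl : D.paB a b l a = true) :
    Relation.ReflTransGen (fun i j => i < D.N ∧ j < D.N ∧ (D.rsys h).Cl a b i ∧
      (D.rsys h).Cl a b j ∧ ((D.rsys h).E ((D.rsys h).β j) ((D.rsys h).β i) = 0 ∨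
        (D.rsys h).E ((D.rsys h).β i) ((D.rsys h).β j) = 0)) a b :=
  g8_pa h ha hb a ha (fun _ _ h2 _ => h2) hl

/-- the content of the check of a pair `a ≠ b` -/
private theorem g9_split {a b : ℕ} (ha : a < D.N) (hb : b < D.N) (hab : a ≠ b) {e : PD}
    (he : D.prB a b e = true) : (e.l₁ ++ e.l₂).length = D.n ∧ (D.rsys h).Exc (e.l₁ ++ e.l₂) ∧
      (∀ u ∈ e.l₂, (D.rsys h).E ((D.rsys h).β u) ((D.rsys h).β a) = 0 ∧
        (D.rsys h).E ((D.rsys h).β u) ((D.rsys h).β b) = 0) ∧
      (∀ i ∈ e.l₁, (D.rsys h).Cl a b i) ∧ D.paB a b e.p a = true := by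
  unfold prB at he
  have hne : Nat.beq a b = false := by
    rw [Bool.eq_false_iff]
    intro h1
    exact hab (Nat.eq_of_beq_eq_true h1)
  rw [hne] at he
  obtain ⟨h1, he⟩ := CD.an_spec he
  obtain ⟨h2, he⟩ := CD.an_spec he
  obtain ⟨h3, he⟩ := CD.an_spec he
  obtain ⟨h4, h5⟩ := CD.an_spec he
  have hex := ex_spec h h2
  refine ⟨Nat.eq_of_beq_eq_true h1, hex, ?_, ?_, h5⟩
  · intro u hu
    have huN : u < D.N := hex.1 u (List.mem_append_right _ hu)
    obtain ⟨h6, h7⟩ := CD.an_spec (allL_spec h3 u hu)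
    exact ⟨(zS_iff h huN ha).1 h6, (zS_iff h huN hb).1 h7⟩
  · intro i hi
    exact (cl_iff h ha hb (hex.1 i (List.mem_append_left _ hi))).1 (allL_spec h4 i hi)

/-- for `a = b` the join is `t a` (`mem_t`); otherwise `Jn_of` -/
theorem pr_Jn {a b : ℕ} (ha : a < D.N) (hb : b < D.N) {e : PD} (he : D.prB a b e = true) :
    (D.rsys h).L.Jn ((D.rsys h).t a) ((D.rsys h).t b) := by
  by_cases hab : a = b
  · subst hab
    exact ⟨(D.rsys h).t a, (D.rsys h).mem_t ha, (D.rsys h).L.le_refl _,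
      (D.rsys h).L.le_refl _, fun w _ h1 _ => h1⟩
  · obtain ⟨h1, h2, h3, h4, -⟩ := g9_split h ha hb hab he
    exact (D.rsys h).Jn_of ha hb h2 h1 h3 h4

/-- for `a = b` the path is empty; otherwise `Cn_of` -/
theorem pr_Cn {a b : ℕ} (ha : a < D.N) (hb : b < D.N) {e : PD} (he : D.prB a b e = true) :
    (D.rsys h).L.Cn ((D.rsys h).t a) ((D.rsys h).t b) := by
  by_cases hab : a = b
  · subst hab
    intro x _ _ _
    exact Relation.ReflTransGen.refl
  · obtain ⟨-, -, -, -, h5⟩ := g9_split h ha hb hab he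
    exact (D.rsys h).Cn_of ha hb (pa_spec h ha hb h5)

theorem ro_spec {a : ℕ} {l : List PD} {b₀ : ℕ} (hl : D.roB a l b₀ = true) {b : ℕ} (h1 : b₀ ≤ b)
    (h2 : b < D.N) : ∃ e, D.prB a b e = true := by
  induction l generalizing b₀ with
  | nil =>
    have h3 : b₀ = D.N := Nat.eq_of_beq_eq_true hl
    omega
  | cons e l ih =>
    have h3 : an (D.prB a b₀ e) (D.roB a l (Nat.succ b₀)) = true := hl
    obtain ⟨h4, h5⟩ := an_spec h3
    rcases Nat.eq_or_lt_of_le h1 with h6 | h6
    · subst h6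
      exact ⟨e, h4⟩
    · exact ih h5 h6

include h in
/-- the check `chkW` -/
theorem w_spec {i : ℕ} (hi : i < D.N) : D.ta i < D.N ∧ D.ti i < D.N ∧ D.ta (D.ti i) = i ∧
    D.tq i (D.ta i) = true ∧ ∃ k, ∃ a ∈ D.rp, D.ta^[k] a = i := by
  have hb : ∀ x y : ℕ, Nat.blt x y = true → x < y := fun x y hxy => Nat.le_of_ble_eq_true hxy
  obtain ⟨h1, h2⟩ := an_spec (allB_spec h.W i hi)
  obtain ⟨h3, h4⟩ := an_spec h2
  obtain ⟨h5, h6⟩ := an_spec h4
  obtain ⟨h7, h8⟩ := an_spec h6
  obtain ⟨a, ha, h9⟩ := exL_spec h8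
  obtain ⟨k, hk⟩ := itx_spec h9
  exact ⟨hb _ _ h1, hb _ _ h3, Nat.eq_of_beq_eq_true h5, h7, k, a, ha, hk⟩

/-- `RSys.tau_t`, the check `tq` (`eF_be`) -/
theorem w_t {i : ℕ} (hi : i < D.N) : ((D.rsys h).L.c)⁻¹ * (D.rsys h).t i * (D.rsys h).L.c =
    (D.rsys h).t (D.ta i) := by
  obtain ⟨h1, -, -, h2, -⟩ := w_spec h hi
  refine (D.rsys h).tau_t hi h1 ?_
  have hE : ∀ u s : ℕ, (D.rsys h).E ((D.rsys h).β u) ((D.rsys h).β s) =
      (D.dot u s : ℚ) - D.crs u s := fun u s => eF_be h.ed u s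
  unfold tq at h2
  cases hc : allB D.n (fun k => Nat.beq (Nat.add (D.dot (D.ta i) k) (D.dot k i))
    (Nat.add (D.crs (D.ta i) k) (D.crs k i))) with
  | true =>
    left
    intro k hk
    have h3 := Nat.eq_of_beq_eq_true (allB_spec hc k hk)
    have h4 : D.dot (D.ta i) k + D.dot k i = D.crs (D.ta i) k + D.crs k i := h3
    have h5 : (D.dot (D.ta i) k : ℚ) + D.dot k i = D.crs (D.ta i) k + D.crs k i := by
      exact_mod_cast h4
    rw [hE, hE]
    linarith
  | false =>
    right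
    intro k hk
    rw [hc, cond_false] at h2
    have h3 := Nat.eq_of_beq_eq_true (allB_spec h2 k hk)
    have h4 : D.dot (D.ta i) k + D.crs k i = D.crs (D.ta i) k + D.dot k i := h3
    have h5 : (D.dot (D.ta i) k : ℚ) + D.crs k i = D.crs (D.ta i) k + D.dot k i := by
      exact_mod_cast h4
    rw [hE, hE]
    linarith

include h in
theorem w_rp : ∀ a ∈ D.rp, a < D.N := fun a ha =>
  Nat.le_of_ble_eq_true (allL_spec h.rp a ha)

/-- the twist -/
noncomputable def tw : (D.rsys h).Tw where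
  ta := D.ta
  ti := D.ti
  rp := D.rp
  ta_lt _ hi := (w_spec h hi).1
  ti_lt _ hi := (w_spec h hi).2.1
  ta_ti _ hi := (w_spec h hi).2.2.1
  ta_t _ hi := w_t h hi
  rp_lt := w_rp h
  rep _ hi := (w_spec h hi).2.2.2.2

theorem hasJoin (hp : ∀ a ∈ D.rp, ∃ l, D.roB a l 0 = true) : (D.rsys h).L.HasJoin := by
  refine (tw h).hasJoin fun a ha b hb => ?_
  obtain ⟨l, hl⟩ := hp a ha
  obtain ⟨e, he⟩ := ro_spec hl (Nat.zero_le b) hb
  exact pr_Jn h ((tw h).rp_lt a ha) hb he

theorem cn_all (hp : ∀ a ∈ D.rp, ∃ l, D.roB a l 0 = true) :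
    ∀ a < D.N, ∀ b < D.N, (D.rsys h).L.Cn ((D.rsys h).t a) ((D.rsys h).t b) := by
  intro a₁ h1 b₁ h2
  refine (tw h).Cn_all (fun a ha b hb => ?_) h1 h2
  obtain ⟨l, hl⟩ := hp a ha
  obtain ⟨e, he⟩ := ro_spec hl (Nat.zero_le b) hb
  exact pr_Cn h ((tw h).rp_lt a ha) hb he

end RD

end Pool.Agent.SPH.RG
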