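import Pool.Agent.SPH.RG.Len

/-!
# Project SPH, root germs: the germ of a group with a length function
-/

namespace Pool.Agent.SPH

variable {G : Type*} [Group G]

/-- the simple elements -/
structure Sim {L : LG G} (h : L.HasJoin) where
  /-- the element of the group -/
  v : G
  mem : L.Mem v

namespace Sim

variable {L : LG G} {h : L.HasJoin}

@[ext] theorem ext' {x y : Sim h} (e : x.v = y.v) : x = y := by
  cases x; cases y; cases e; rfl

instance : PartialOrder (Sim h) where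
  le x y := L.Le x.v y.v
  le_refl x := L.le_refl x.v
  le_trans _ _ _ h1 h2 := L.le_trans h1 h2
  le_antisymm _ _ h1 h2 := ext' (L.le_antisymm h1 h2)

theorem le_def {x y : Sim h} : x ≤ y ↔ L.Le x.v y.v := Iff.rfl

theorem exists_sup (x y : Sim h) : ∃ z : Sim h, x ≤ z ∧ y ≤ z ∧ ∀ w, x ≤ w → y ≤ w → z ≤ w := by
  obtain ⟨z, h1, h2, h3, h4⟩ := h x.v y.v x.mem y.mem
  exact ⟨⟨z, h1⟩, h2, h3, fun w hx hy => h4 w.v w.mem hx hy⟩

theorem exists_inf (x y : Sim h) : ∃ z : Sim h, z ≤ x ∧ z ≤ y ∧ ∀ w, w ≤ x → w ≤ y → w ≤ z := by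
  obtain ⟨z, h1, h2, h3, h4⟩ := L.exists_meet h x.mem y.mem
  exact ⟨⟨z, h1⟩, h2, h3, fun w hx hy => h4 w.v w.mem hx hy⟩

noncomputable instance : Lattice (Sim h) where
  sup x y := (exists_sup x y).choose
  le_sup_left x y := (exists_sup x y).choose_spec.1
  le_sup_right x y := (exists_sup x y).choose_spec.2.1
  sup_le x y z h1 h2 := (exists_sup x y).choose_spec.2.2 z h1 h2
  inf x y := (exists_inf x y).choose
  inf_le_left x y := (exists_inf x y).choose_spec.1
  inf_le_right x y := (exists_inf x y).choose_spec.2.1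
  le_inf x y z h1 h2 := (exists_inf y z).choose_spec.2.2 x h1 h2

instance : BoundedOrder (Sim h) where
  top := ⟨L.c, L.mem_c⟩
  le_top x := x.mem
  bot := ⟨1, L.mem_one⟩
  bot_le x := L.one_le x.v

theorem bot_v : (⊥ : Sim h).v = 1 := rfl

theorem top_v : (⊤ : Sim h).v = L.c := rfl

open Classical in
/-- the quotient `x⁻¹ y` -/
noncomputable def q (x y : Sim h) : Sim h :=
  if e : x ≤ y then ⟨x.v⁻¹ * y.v, L.mem_q e y.mem⟩ else ⊥

theorem q_v {x y : Sim h} (e : x ≤ y) : (q x y).v = x.v⁻¹ * y.v := by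
  unfold q
  rw [dif_pos e]

/-- `(K^[2 m]) x = c^(-m) x c^m = x` -/
theorem K_pow (x : Sim h) : (fun x => q x ⊤)^[2 * L.m] x = x := by
  have key : ∀ n : ℕ, ((fun x : Sim h => q x ⊤)^[2 * n] x).v = (L.c ^ n)⁻¹ * x.v * L.c ^ n := by
    intro n
    induction n with
    | zero => simp
    | succ n ih =>
      rw [show 2 * (n + 1) = (2 * n + 1) + 1 from by ring, Function.iterate_succ_apply',
        Function.iterate_succ_apply']
      show (q (q _ ⊤) ⊤).v = _
      rw [q_v le_top, q_v le_top, top_v, ih, pow_succ]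
      group
  apply ext'
  rw [key, mul_assoc, L.c_pow, inv_mul_cancel_left]

end Sim

/-- the germ -/
noncomputable def LG.germ {L : LG G} (h : L.HasJoin) : Germ (Sim h) where
  q := Sim.q
  m := L.m
  m_pos := L.m_pos
  q_bot y := by
    apply Sim.ext'
    rw [Sim.q_v bot_le, Sim.bot_v]
    simp
  q_mono h1 h2 := by
    show L.Le _ _
    rw [Sim.q_v h1, Sim.q_v (_root_.le_trans h1 h2)]
    exact L.q_mono h1 h2
  q_q {x y z} h1 h2 := by
    have h3 : Sim.q x y ≤ Sim.q x z := by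
      show L.Le _ _
      rw [Sim.q_v h1, Sim.q_v (_root_.le_trans h1 h2)]
      exact L.q_mono h1 h2
    apply Sim.ext'
    rw [Sim.q_v h3, Sim.q_v h1, Sim.q_v (_root_.le_trans h1 h2), Sim.q_v h2]
    group
  q_surj {x t} h1 := by
    have h2 : L.Le t.v (x.v⁻¹ * L.c) := by
      have h3 : L.Le t.v (Sim.q x ⊤).v := h1
      rwa [Sim.q_v le_top] at h3
    obtain ⟨h3, h4⟩ := L.q_surj x.mem h2
    have h5 : x ≤ (⟨x.v * t.v, h3⟩ : Sim h) := h4
    refine ⟨⟨x.v * t.v, h3⟩, h5, ?_⟩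
    apply Sim.ext'
    rw [Sim.q_v h5]
    group
  q_emb {x y z} h1 h2 h3 := by
    have h4 : L.Le (Sim.q x y).v (Sim.q x z).v := h3
    rw [Sim.q_v h1, Sim.q_v h2] at h4
    exact L.q_emb h1 h2 h4
  K_pow := Sim.K_pow
  rk x := L.r x.v
  rk_q {x y} h1 := by
    rw [Sim.q_v h1]
    exact (show L.r x.v + L.r (x.v⁻¹ * y.v) = L.r y.v from h1).symm
  rk_pos {x} h1 := by
    rcases Nat.eq_zero_or_pos (L.r x.v) with h2 | h2
    · exact absurd (Sim.ext' (L.eq_one _ h2)) h1
    · exact h2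

end Pool.Agent.SPH
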