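import Pool.Agent.SPH.RG.Conn
import Pool.Agent.SPH.RG.Sim
import Pool.Agent.SPH.Art2

/-!
# Project SPH, root germs: the dual Garside structure of the Artin group

`RC` is the certificate of the rank two relations (as `AD` for tables); the result is
`RC.exists_pre`.
-/

namespace Pool.Agent.SPH.RG

open Pool.Agent.Helper7.AG

/-- the certificate of the relations `t u = u (d t u)` -/
structure RC {n N : ℕ} (R : RSys n N) where
  /-- the Coxeter matrix -/
  M : CoxeterMatrix (Fin n)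
  /-- the conjugates `u⁻¹ t u` -/
  d : ℕ → ℕ → ℕ
  /-- the labels -/
  cox : ℕ → ℕ → ℕ
  /-- the steps -/
  l : List CD.Stp
  /-- the mask of the generators -/
  A0 : ℕ
  /-- the mask of the atoms -/
  A1 : ℕ
  /-- the mask of the pairs -/
  R1 : ℕ
  n_pos : 0 < n
  N_lt : N < 256
  A0_eq : A0 = CD.mk (List.range n)
  cox_eq : ∀ a b : Fin n, cox a b = M a b
  M_bd : ∀ a b, a ≠ b → 2 ≤ M a b ∧ M a b ≤ 5
  run : CD.run d cox A0 A1 R1 l A0 0 = true
  A1_of : ∀ t < N, CD.bit A1 t = true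
  R1_of : ∀ t < N, ∀ u < N, R.E (R.β u) (R.β t) = 0 → CD.bit R1 (CD.pc t u) = true
  of_R1 : ∀ t u, t < 256 → u < 256 → CD.bit R1 (CD.pc t u) = true →
    t < N ∧ u < N ∧ R.E (R.β u) (R.β t) = 0
  brc : ∀ a b : Fin n, a ≠ b → CD.brc d R1 (M a b) a b = true ∨ CD.brc d R1 (M b a) b a = true
  d_lt : ∀ t < N, ∀ u < N, R.E (R.β u) (R.β t) = 0 → d t u < N
  d_t : ∀ t < N, ∀ u < N, R.E (R.β u) (R.β t) = 0 →
    (R.t u)⁻¹ * R.t t * R.t u = R.t (d t u)
  three : ∀ t < N, ∀ u < N, R.E (R.β u) (R.β t) = 0 → ∀ v < N, R.Cl t u v →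
    v = t ∨ v = u ∨ v = d t u
  conn : ∀ a < N, ∀ b < N, R.L.Cn (R.t a) (R.t b)

namespace RC

variable {n N : ℕ} {R : RSys n N} (A : RC R)

/-- an atom as a simple element -/
noncomputable def at' (h : R.L.HasJoin) {i : ℕ} (hi : i < N) : Sim h := ⟨R.t i, R.mem_t hi⟩

theorem rk_at (h : R.L.HasJoin) {i : ℕ} (hi : i < N) : (LG.germ h).rk (at' h hi) = 1 :=
  R.r_t hi

/-- `eq_t` -/
theorem exists_at (h : R.L.HasJoin) {x : Sim h} (hx : (LG.germ h).rk x = 1) :
    ∃ i, ∃ hi : i < N, x = at' h hi := by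
  obtain ⟨i, hi, e⟩ := R.eq_t (x := x.v) hx
  exact ⟨i, hi, Sim.ext' e⟩

theorem at_inj (h : R.L.HasJoin) {i j : ℕ} {hi : i < N} {hj : j < N}
    (e : at' h hi = at' h hj) : i = j :=
  R.t_inj hi hj (congrArg Sim.v e)

open Classical in
/-- the function on the simple elements with the value `X i` at the `i`-th atom -/
noncomputable def atf {G : Type*} [Group G] (h : R.L.HasJoin) (X : ℕ → G) (x : Sim h) : G :=
  if e : ∃ i, ∃ hi : i < N, x = at' h hi then X e.choose else 1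

theorem atf_at {G : Type*} [Group G] (h : R.L.HasJoin) (X : ℕ → G) {i : ℕ} (hi : i < N) :
    atf h X (at' h hi) = X i := by
  have e : ∃ i', ∃ hi' : i' < N, at' h hi = at' h hi' := ⟨i, hi, rfl⟩
  unfold atf
  rw [dif_pos e]
  obtain ⟨h1, h2⟩ := e.choose_spec
  rw [at_inj h h2.symm]

/-- as `AD.exists_ga` (`CD.run_conj`, `br_of`, `CD.bit_mk`) -/
theorem exists_ga : ∃ ga : ℕ → Artin A.M, (∀ k : Fin n, ga k = PresentedGroup.of k) ∧
    (∀ t u, t < 256 → u < 256 → CD.bit A.R1 (CD.pc t u) = true →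
      ga t * ga u = ga u * ga (A.d t u)) ∧
    ∀ t < N, ∃ k, IsConj (PresentedGroup.of k) (ga t) := by
  classical
  obtain ⟨s, hs⟩ : ∃ s : ℕ → Artin A.M, ∀ k : Fin n, s k = PresentedGroup.of k := by
    refine ⟨fun i => if hi : i < n then PresentedGroup.of ⟨i, hi⟩ else 1, fun k => ?_⟩
    show (if hi : (k : ℕ) < n then (PresentedGroup.of (⟨k, hi⟩ : Fin n) : Artin A.M) else 1) = _
    rw [dif_pos k.2]
  have hA0 : ∀ i, CD.bit A.A0 i = true ↔ ∃ k : Fin n, (k : ℕ) = i := by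
    intro i
    rw [A.A0_eq, CD.bit_mk, List.mem_range]
    exact ⟨fun h => ⟨⟨i, h⟩, rfl⟩, fun ⟨k, hk⟩ => hk ▸ k.2⟩
  have hb : ∀ i j, CD.bit A.A0 i = true → CD.bit A.A0 j = true →
      CD.Br (A.cox i j) (s i) (s j) := by
    intro i j hi hj
    obtain ⟨a, rfl⟩ := (hA0 i).1 hi
    obtain ⟨b, rfl⟩ := (hA0 j).1 hj
    rw [A.cox_eq, hs, hs]
    exact br_of a b
  obtain ⟨ga, h1, h2, h3⟩ := CD.run_conj hb A.run
  refine ⟨ga, fun k => ?_, fun t u ht hu hb => (h2 t u ht hu hb).2.2.2, fun t ht => ?_⟩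
  · rw [h1 _ ((hA0 _).2 ⟨k, rfl⟩), hs]
  · obtain ⟨i, hi, hc⟩ := h3 t (A.A1_of t ht)
    obtain ⟨k, rfl⟩ := (hA0 i).1 hi
    exact ⟨k, by rwa [hs] at hc⟩

/-- Let `x` have rank two and let `t a ≤ x`.  By `two_eq` `x = t a t b` with `E (β b) (β a) = 0`
and `(t a)⁻¹ x = t b`; also `x = t b t (d a b)` (`d_t`), so `(t b)⁻¹ x = t (d a b)`; and `t b ≤ x`,
`t (d a b) ≤ x`. -/
theorem two_all {x : R.Gr} (hx : R.L.Mem x) (h : R.L.r x = 2) {a : ℕ} (ha : a < N)
    (h1 : R.L.Le (R.t a) x) : ∃ b, b < N ∧ R.E (R.β b) (R.β a) = 0 ∧ x = R.W [a, b] ∧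
      (R.t a)⁻¹ * x = R.t b ∧ R.L.Le (R.t b) x ∧ (R.t b)⁻¹ * x = R.t (A.d a b) ∧
      R.L.Le (R.t (A.d a b)) x ∧ ∀ v < N, R.L.Le (R.t v) x → v = a ∨ v = b ∨ v = A.d a b := by
  have key : ∀ {a : ℕ}, a < N → R.L.Le (R.t a) x → ∃ b, b < N ∧ R.E (R.β b) (R.β a) = 0 ∧
      x = R.W [a, b] ∧ (R.t a)⁻¹ * x = R.t b ∧ R.L.Le (R.t b) x ∧ mv x.1 = R.sp [a, b] := by
    intro a ha h1
    obtain ⟨b, hb, hx1, hE, hq⟩ := R.two_eq hx h ha h1
    have hexc : R.Exc [a, b] := by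
      refine ⟨?_, ?_⟩
      · intro i hi
        rcases List.mem_cons.1 hi with rfl | hi
        · exact ha
        · rw [List.mem_singleton] at hi
          rw [hi]
          exact hb
      · simp [hE]
    have hle := (R.W_le hexc hx).1 (by rw [← hx1]; exact R.L.le_refl x)
    have hmv := (R.exc_mem hexc).2.2
    rw [← hx1] at hmv
    exact ⟨b, hb, hE, hx1, hq, hle b (by simp), hmv⟩
  obtain ⟨b, hb, hE, hx1, hq, hle, hmv⟩ := key ha h1
  obtain ⟨b', hb', -, -, hq', hle', -⟩ := key hb hle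
  have hWab : x = R.t a * R.t b := by
    rw [hx1, R.W_cons, R.W_cons, R.W_nil, mul_one]
  have hd : (R.t b)⁻¹ * x = R.t (A.d a b) := by
    rw [hWab, ← mul_assoc]
    exact A.d_t a ha b hb hE
  refine ⟨b, hb, hE, hx1, hq, hle, hd, ?_, ?_⟩
  · rw [← hd, hq']
    exact hle'
  · intro v hv hlv
    refine A.three a ha b hb hE v hv ?_
    intro u _ hua hub
    have hm := (R.le_t hv).1 hlv
    rw [hmv] at hm
    have hker : R.sp [a, b] ≤ LinearMap.ker (R.E (R.β u)) := by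
      unfold RSys.sp
      rw [Submodule.span_le]
      rintro w ⟨i, hi, rfl⟩
      rw [SetLike.mem_coe, LinearMap.mem_ker]
      rcases List.mem_cons.1 hi with rfl | hi
      · exact hua
      · rw [List.mem_singleton] at hi
        rw [hi]
        exact hub
    exact hker hm

/-- With the notation of `two_all` for `x` and `t`: `X t * X (t⁻¹ x) = X a * X b`,
`X b * X (d a b)` is the same by `hX` (and `R1_of`); for the third atom `e = d a b` use `two_all`
for `e`: if `e = a` there is nothing to do; otherwise `(t e)⁻¹ x` is an atom `t f`, `t f ≤ x`, and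
the relation `hX` for the pair `(b, e)`: `X b * X e = X e * X (d b e)` with `t (d b e) = (t e)⁻¹ x`
(`E (β e) (β b) = 0` because `(t b)⁻¹ x = t e ≤ (t b)⁻¹ c`, see `two_eq` for `b`).  So
`X a X b = X b X e = X e X (..)`. -/
theorem rel_two (h : R.L.HasJoin) {G : Type*} [Group G] {X : ℕ → G}
    (hX : ∀ t u, t < 256 → u < 256 → CD.bit A.R1 (CD.pc t u) = true →
      X t * X u = X u * X (A.d t u))
    (x t u : Sim h) (h1 : (LG.germ h).rk x = 2) (h2 : t ≤ x) (h3 : u ≤ x)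
    (h4 : (LG.germ h).rk t = 1) (h5 : (LG.germ h).rk u = 1) :
    atf h X t * atf h X ((LG.germ h).q t x) = atf h X u * atf h X ((LG.germ h).q u x) := by
  obtain ⟨a, ha, rfl⟩ := exists_at h h4
  obtain ⟨a', ha', rfl⟩ := exists_at h h5
  have hq : ∀ v (hv : v < N), at' h hv ≤ x → ∀ w, w < N → (R.t v)⁻¹ * x.v = R.t w →
      atf h X ((LG.germ h).q (at' h hv) x) = X w := by
    intro v hv hl w hw e
    have h6 : (LG.germ h).q (at' h hv) x = at' h hw := by
      apply Sim.ext'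
      show (Sim.q (at' h hv) x).v = _
      rw [Sim.q_v hl]
      exact e
    rw [h6, atf_at h X hw]
  have hlt : ∀ v, v < N → v < 256 := fun v hv => lt_trans hv A.N_lt
  have step : ∀ v (hv : v < N), at' h hv ≤ x → ∃ w, w < N ∧ (R.t v)⁻¹ * x.v = R.t w ∧
      R.L.Le (R.t w) x.v ∧ A.d v w < N ∧ (R.t w)⁻¹ * x.v = R.t (A.d v w) ∧
      R.L.Le (R.t (A.d v w)) x.v ∧ X v * X w = X w * X (A.d v w) ∧
      ∀ i < N, R.L.Le (R.t i) x.v → i = v ∨ i = w ∨ i = A.d v w := by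
    intro v hv hl
    obtain ⟨w, hw, hE, -, e1, l1, e2, l2, hall⟩ := A.two_all x.mem h1 hv hl
    exact ⟨w, hw, e1, l1, A.d_lt v hv w hw hE, e2, l2,
      hX v w (hlt v hv) (hlt w hw) (A.R1_of v hv w hw hE), hall⟩
  obtain ⟨b, hb, e1, l1, hd, e2, l2, e3, hall⟩ := step a ha h2
  rw [atf_at h X ha, hq a ha h2 b hb e1, atf_at h X ha']
  rcases hall a' ha' h3 with h6 | h6 | h6
  · subst h6
    rw [hq a' ha' h3 b hb e1]
  · subst h6
    rw [hq a' ha' h3 _ hd e2, e3]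
  · obtain ⟨b₂, hb₂, e1', l1', hd', e2', l2', e3', -⟩ := step b hb l1
    have h7 : b₂ = A.d a b := R.t_inj hb₂ hd (e1'.symm.trans e2)
    subst h7
    subst h6
    rw [hq _ ha' h3 _ hd' e2', e3, e3']

/-- the join of two different atoms below an element of length two -/
private theorem sup_two_F4 {G : Type*} [Group G] {L : LG G} {h : L.HasJoin} {p q : Sim h}
    (hp : L.r p.v = 1) (hq : L.r q.v = 1) (hne : p.v ≠ q.v) {y : G} (hy : L.Mem y)
    (h2 : L.r y = 2) (h3 : L.Le p.v y) (h4 : L.Le q.v y) : L.r (p ⊔ q).v = 2 := by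
  have h5 : p ⊔ q ≤ (⟨y, hy⟩ : Sim h) := sup_le h3 h4
  have h6 : L.Le (p ⊔ q).v y := h5
  have h7 : L.Le p.v (p ⊔ q).v := (le_sup_left : p ≤ p ⊔ q)
  have h8 : L.Le q.v (p ⊔ q).v := (le_sup_right : q ≤ p ⊔ q)
  have h9 : L.r (p.v⁻¹ * (p ⊔ q).v) ≠ 0 ∨ L.r (q.v⁻¹ * (p ⊔ q).v) ≠ 0 := by
    by_contra hc
    rw [not_or, not_not, not_not] at hc
    exact hne ((inv_mul_eq_one.1 (L.eq_one _ hc.1)).trans
      (inv_mul_eq_one.1 (L.eq_one _ hc.2)).symm)
  unfold LG.Le at h6 h7 h8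
  omega

/-- a chain of steps as a chain in the germ -/
private theorem chain_F4 {G : Type*} [Group G] {L : LG G} {h : L.HasJoin} (x p : Sim h) {b : G}
    (hc : Relation.ReflTransGen (L.Step x.v) p.v b) :
    ∀ q : Sim h, q.v = b →
      Relation.ReflTransGen (fun a b : Sim h => a ≤ x ∧ b ≤ x ∧ (LG.germ h).rk a = 1 ∧
        (LG.germ h).rk b = 1 ∧ (LG.germ h).rk (a ⊔ b) = 2) p q := by
  induction hc with
  | refl =>
    intro q hq
    rw [Sim.ext' hq]
  | @tail b c _ hs ih =>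
    intro q hq
    obtain ⟨h1, h2, h3, h4, h5, y, h6, h7, h8, h9⟩ := hs
    have hm : L.Mem b := L.mem_of_le h1 x.mem
    subst hq
    exact (ih ⟨b, hm⟩ rfl).tail ⟨h1, h2, h3, h4,
      sup_two_F4 (p := (⟨b, hm⟩ : Sim h)) h3 h4 h5 h6 h7 h8 h9⟩

include A in
/-- `A.conn` in the germ: `L.Step x.v p q` gives the simple elements `p`, `q`, and their join has
rank two: it is `≤ y` (rank two), and `≥ p`, `q`, which are different atoms. -/
theorem conn_germ (h : R.L.HasJoin) (x t u : Sim h) (ht : t ≤ x) (hu : u ≤ x)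
    (ht1 : (LG.germ h).rk t = 1) (hu1 : (LG.germ h).rk u = 1) :
    Relation.ReflTransGen (fun a b => a ≤ x ∧ b ≤ x ∧ (LG.germ h).rk a = 1 ∧
      (LG.germ h).rk b = 1 ∧ (LG.germ h).rk (a ⊔ b) = 2) t u := by
  obtain ⟨i, hi, rfl⟩ := exists_at h ht1
  obtain ⟨j, hj, rfl⟩ := exists_at h hu1
  exact chain_F4 x _ (A.conn i hi j hj x.v x.mem ht hu) _ rfl

theorem exists_glu (h : R.L.HasJoin) {G : Type*} [Group G] {X : ℕ → G}
    (hX : ∀ t u, t < 256 → u < 256 → CD.bit A.R1 (CD.pc t u) = true →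
      X t * X u = X u * X (A.d t u)) :
    ∃ P : Glu (LG.germ h) G, ∀ x, P.ga x = atf h X x := by
  refine ⟨⟨atf h X, ?_, fun x t u ht hu h1 h2 => conn_germ A h x t u ht hu h1 h2,
    fun x t u hx ht hu h1 h2 => rel_two A h hX x t u hx ht hu h1 h2⟩, fun _ => rfl⟩
  intro x hx
  obtain ⟨i, hi, h1⟩ := R.exists_t (x := x.v) (fun e => hx (Sim.ext' e))
  exact ⟨at' h hi, h1, rk_at h hi⟩

/-- the permutations of the normal forms -/
noncomputable def pp (h : R.L.HasJoin) (t : ℕ) : Equiv.Perm (LG.germ h).XX :=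
  if ht : t < N then (LG.germ h).pX (at' h ht) else 1

/-- as `AD.pp_rel`: with `x = t t * t u`, which is simple, `pX t * pX u = pX x = pX u * pX (d t u)`
(`pX_mul`; the product `mul` in the germ of `t` and `u` is the element `x`, `Germ.mul_q`). -/
theorem pp_rel (h : R.L.HasJoin) {t u : ℕ} (h1 : t < 256) (h2 : u < 256)
    (h3 : CD.bit A.R1 (CD.pc t u) = true) : pp h t * pp h u = pp h u * pp h (A.d t u) := by
  obtain ⟨ht, hu, hE⟩ := A.of_R1 t u h1 h2 h3
  obtain ⟨m1, -, m3, m4⟩ := R.two_of ht hu hE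
  have hd := A.d_lt t ht u hu hE
  have hx : R.W [t, u] = R.t t * R.t u := by rw [R.W_cons, R.W_cons, R.W_nil, mul_one]
  have l1 : at' h ht ≤ (⟨R.W [t, u], m1⟩ : Sim h) := m3
  have l2 : at' h hu ≤ (⟨R.W [t, u], m1⟩ : Sim h) := m4
  have q1 : (LG.germ h).q (at' h ht) ⟨R.W [t, u], m1⟩ = at' h hu := by
    apply Sim.ext'
    show (Sim.q _ _).v = _
    rw [Sim.q_v l1]
    show (R.t t)⁻¹ * R.W [t, u] = R.t u
    rw [hx, inv_mul_cancel_left]
  have q2 : (LG.germ h).q (at' h hu) ⟨R.W [t, u], m1⟩ = at' h hd := by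
    apply Sim.ext'
    show (Sim.q _ _).v = _
    rw [Sim.q_v l2]
    show (R.t u)⁻¹ * R.W [t, u] = R.t (A.d t u)
    rw [hx, ← mul_assoc, A.d_t t ht u hu hE]
  have e1 : (LG.germ h).pX (at' h ht) * (LG.germ h).pX (at' h hu) =
      (LG.germ h).pX ⟨R.W [t, u], m1⟩ := by
    rw [← q1, (LG.germ h).pX_mul ((LG.germ h).q_le_K l1), (LG.germ h).mul_q l1]
  have e2 : (LG.germ h).pX (at' h hu) * (LG.germ h).pX (at' h hd) =
      (LG.germ h).pX ⟨R.W [t, u], m1⟩ := by
    rw [← q2, (LG.germ h).pX_mul ((LG.germ h).q_le_K l2), (LG.germ h).mul_q l2]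
  unfold pp
  rw [dif_pos ht, dif_pos hu, dif_pos hd, e1, e2]

/-- as `AD.exists_act` -/
theorem exists_act (h : R.L.HasJoin) {ga : ℕ → Artin A.M}
    (h0 : ∀ k : Fin n, ga k = PresentedGroup.of k)
    (hg : ∀ t u, t < 256 → u < 256 → CD.bit A.R1 (CD.pc t u) = true →
      ga t * ga u = ga u * ga (A.d t u)) :
    ∃ F : Artin A.M →* Equiv.Perm (LG.germ h).XX, ∀ t < N, F (ga t) = pp h t := by
  have hpp : ∀ t u, t < 256 → u < 256 → CD.bit A.R1 (CD.pc t u) = true →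
      pp h t * pp h u = pp h u * pp h (A.d t u) := fun t u h1 h2 h3 => pp_rel A h h1 h2 h3
  obtain ⟨F, hF⟩ := exists_lift (M := A.M) A.M_bd (fun k : Fin n => pp h (k : ℕ)) (by
    intro s t hst
    rcases A.brc s t hst with e | e
    · exact CD.brc_sound e hpp
    · have e1 : A.M s t = A.M t s := A.M.symmetric s t
      rw [e1]
      exact (CD.brc_sound e hpp).symm)
  refine ⟨F, fun t h1 => ?_⟩
  refine CD.run_unique (X := fun i => F (ga i)) (Y := pp h) A.run ?_ hpp ?_ t (A.A1_of t h1)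
  · intro a b ha hb hab
    show F (ga a) * F (ga b) = F (ga b) * F (ga (A.d a b))
    rw [← map_mul, ← map_mul, hg a b ha hb hab]
  · intro i hi
    rw [A.A0_eq, CD.bit_mk, List.mem_range] at hi
    have e1 : ga i = PresentedGroup.of (⟨i, hi⟩ : Fin n) := h0 ⟨i, hi⟩
    have e2 : F (PresentedGroup.of (⟨i, hi⟩ : Fin n)) = pp h i := hF ⟨i, hi⟩
    show F (ga i) = pp h i
    rw [e1, e2]

/-- as `AD.exists_pre` -/
theorem exists_pre (h : R.L.HasJoin) : ∃ P : Pre (LG.germ h) (Artin A.M),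
    (∀ (k : Fin n) (x : Sim h), x.v = R.t k → P.g x = PresentedGroup.of k) ∧
      ∀ k, P.ln (PresentedGroup.of k) = 1 := by
  obtain ⟨ga, h0, hg, hconj⟩ := exists_ga A
  obtain ⟨P, hP⟩ := exists_glu A h hg
  obtain ⟨F, hF⟩ := exists_act A h h0 hg
  obtain ⟨L, hL⟩ := exists_len (M := A.M) A.M_bd
  have hkN : ∀ k : Fin n, (k : ℕ) < N := fun k => lt_of_lt_of_le k.2 R.hn
  have hof : ∀ (k : Fin n) (x : Sim h), x.v = R.t k → P.g x = PresentedGroup.of k := by
    intro k x hx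
    have hx1 : x = at' h (hkN k) := Sim.ext' hx
    have h1 : (LG.germ h).rk x = 1 := by rw [hx1]; exact rk_at h _
    rw [P.g_eq h1, hP, hx1, atf_at h ga (hkN k), h0]
  have hFg : ∀ m : ℕ, ∀ s : Sim h, (LG.germ h).rk s = m → F (P.g s) = (LG.germ h).pX s := by
    intro m
    induction m with
    | zero =>
      intro s hs
      have hb : s = ⊥ := by
        by_contra hne
        have := (LG.germ h).rk_pos hne
        omega
      rw [hb, P.g_bot, map_one, (LG.germ h).pX_bot]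
    | succ m ih =>
      intro s hs
      have hne : s ≠ ⊥ := by
        rintro rfl
        rw [(LG.germ h).rk_bot] at hs
        omega
      obtain ⟨t, ht, ht1⟩ := P.ex s hne
      have hq : (LG.germ h).rk ((LG.germ h).q t s) = m := by
        have := (LG.germ h).rk_q ht
        omega
      have e1 : F (P.ga t) = (LG.germ h).pX t := by
        obtain ⟨i, hi, rfl⟩ := exists_at h ht1
        rw [hP, atf_at h ga hi, hF i hi]
        unfold pp
        rw [dif_pos hi]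
      rw [← P.g_atom ht ht1, map_mul, e1, ih _ hq, (LG.germ h).pX_mul ((LG.germ h).q_le_K ht),
        (LG.germ h).mul_q ht]
  have hLof : ∀ t : ℕ, t < N → L (ga t) = Multiplicative.ofAdd 1 := by
    intro t h1
    obtain ⟨k, hk⟩ := hconj t h1
    obtain ⟨c, hc⟩ := isConj_iff.1 hk
    rw [← hc, map_mul, map_mul, map_inv, mul_inv_cancel_comm, hL k]
  have hLg : ∀ m : ℕ, ∀ s : Sim h, (LG.germ h).rk s = m → (L (P.g s)).toAdd = (m : ℤ) := by
    intro m
    induction m with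
    | zero =>
      intro s hs
      have hb : s = ⊥ := by
        by_contra hne
        have := (LG.germ h).rk_pos hne
        omega
      rw [hb, P.g_bot, map_one]
      rfl
    | succ m ih =>
      intro s hs
      have hne : s ≠ ⊥ := by
        rintro rfl
        rw [(LG.germ h).rk_bot] at hs
        omega
      obtain ⟨t, ht, ht1⟩ := P.ex s hne
      have hq : (LG.germ h).rk ((LG.germ h).q t s) = m := by
        have := (LG.germ h).rk_q ht
        omega
      have e1 : L (P.ga t) = Multiplicative.ofAdd 1 := by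
        obtain ⟨i, hi, rfl⟩ := exists_at h ht1
        rw [hP, atf_at h ga hi, hLof i hi]
      rw [← P.g_atom ht ht1, map_mul, toAdd_mul, ih _ hq, e1, toAdd_ofAdd]
      push_cast
      ring
  refine ⟨⟨P.g, P.g_bot, fun hxy => P.g_mul hxy, ?_, F, fun s => hFg _ s rfl,
    fun u => (L u).toAdd, ?_, fun s => hLg _ s rfl, ?_⟩, hof, ?_⟩
  · rw [eq_top_iff, ← PresentedGroup.closure_range_of, Subgroup.closure_le]
    rintro _ ⟨k, rfl⟩
    exact Subgroup.subset_closure ⟨at' h (hkN k), hof k _ rfl⟩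
  · intro u v
    show (L (u * v)).toAdd = _
    rw [map_mul, toAdd_mul]
  · intro e
    have h1 : at' h (hkN ⟨0, A.n_pos⟩) = (⊥ : Sim h) := le_bot_iff.1 (le_top.trans e.le)
    have h2 := rk_at h (hkN ⟨0, A.n_pos⟩)
    rw [h1, (LG.germ h).rk_bot] at h2
    omega
  · intro k
    show (L (PresentedGroup.of k)).toAdd = 1
    rw [hL k]
    rfl

end RC

end Pool.Agent.SPH.RG
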