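import Pool.Agent.SPH.RG.Dat3
import Pool.Agent.SPH.RG.Gl

/-!
# Project SPH, root germs: the certificate `RC` from the data
-/

namespace Pool.Agent.SPH

/-- the run of a list of steps may be cut into two parts -/
theorem CD.run_append {d cox : ℕ → ℕ → ℕ} {A0 A1 R1 : ℕ} {l l' : List CD.Stp} {A R A' R' : ℕ}
    (h : CD.run d cox A0 A' R' l A R = true) (h' : CD.run d cox A0 A1 R1 l' A' R' = true) :
    CD.run d cox A0 A1 R1 (l ++ l') A R = true := by
  induction l generalizing A R with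
  | nil =>
    obtain ⟨h1, h2⟩ := CD.an_spec (h : CD.an (Nat.beq A A') (Nat.beq R R') = true)
    rw [Nat.eq_of_beq_eq_true h1, Nat.eq_of_beq_eq_true h2]
    exact h'
  | cons s l ih =>
    obtain ⟨h1, h2⟩ := CD.an_spec (h : CD.an (CD.tst d cox A0 A R s)
      (CD.run d cox A0 A' R' l (CD.nxA d A s) (CD.nxR d R s)) = true)
    have h3 := ih h2
    change CD.an (CD.tst d cox A0 A R s)
      (CD.run d cox A0 A1 R1 (l ++ l') (CD.nxA d A s) (CD.nxR d R s)) = true
    rw [h1, h3]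
    rfl

namespace RG

namespace RD

section Defs

variable (D : RD)

/-- the checks of the relations `t u = u (d t u)` -/
def chkD (t : ℕ) : Bool := allB D.N fun u => cond (CD.bit (D.zU t) u)
  (an (Nat.blt (D.d t u) D.N) (an (cond (D.rf1 t u (D.d t u)) true (D.rf2 t u (D.d t u)))
    (allB D.N fun v => cond (D.clB t u v)
      (cond (Nat.beq v t) true (cond (Nat.beq v u) true (Nat.beq v (D.d t u)))) true))) true

/-- the mask of the pairs -/
def chkR1 (R1 : ℕ) : Bool := an (Nat.beq (Nat.shiftRight R1 (256 * D.N)) 0)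
  (allB D.N fun t => Nat.beq (CD.rw R1 t) (D.zU t))

end Defs

variable {D : RD} (h : D.Ok)

/-- the checks for `RC` -/
structure Ck (D : RD) (M : CoxeterMatrix (Fin D.n)) (cox : ℕ → ℕ → ℕ) (l : List CD.Stp)
    (A0 A1 R1 : ℕ) : Prop where
  n_pos : 0 < D.n
  N_lt : D.N < 256
  A0_eq : A0 = CD.mk (List.range D.n)
  cox_eq : ∀ a b : Fin D.n, cox a b = M a b
  M_bd : ∀ a b, a ≠ b → 2 ≤ M a b ∧ M a b ≤ 5
  run : CD.run D.d cox A0 A1 R1 l A0 0 = true
  AA : allB D.N (CD.bit A1) = true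
  RR : D.chkR1 R1 = true
  DD : allB D.N D.chkD = true
  brc : ∀ a b : Fin D.n, a ≠ b →
    CD.brc D.d R1 (M a b) a b = true ∨ CD.brc D.d R1 (M b a) b a = true

private theorem d4_bit (a k : ℕ) : CD.bit a k = a.testBit k := by
  rw [Nat.testBit_eq_decide_div_mod_eq]
  show Nat.beq ((a >>> k) % 2) 1 = _
  rw [Nat.shiftRight_eq_div_pow]
  cases hd : Nat.beq (a / 2 ^ k % 2) 1 with
  | true => exact (decide_eq_true (Nat.eq_of_beq_eq_true hd)).symm
  | false => exact (decide_eq_false (Nat.ne_of_beq_eq_false hd)).symm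

/-- `CD.bit_rw` -/
theorem R1_iff {R1 : ℕ} (hN : D.N < 256) (hR : D.chkR1 R1 = true) {t u : ℕ} (ht : t < 256)
    (hu : u < 256) : CD.bit R1 (CD.pc t u) = true ↔
      t < D.N ∧ u < D.N ∧ (D.rsys h).E ((D.rsys h).β u) ((D.rsys h).β t) = 0 := by
  have _ := hN
  have _ := ht
  obtain ⟨h1, h2⟩ := an_spec hR
  have h1' : R1 >>> (256 * D.N) = 0 := Nat.eq_of_beq_eq_true h1
  have hrow : ∀ t < D.N, CD.rw R1 t = D.zU t := fun t ht => Nat.eq_of_beq_eq_true (allB_spec h2 t ht)
  have hbit : ∀ t < D.N, CD.bit R1 (CD.pc t u) = CD.bit (D.zU t) u := by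
    intro t ht
    rw [← hrow t ht, CD.bit_rw hu]
  constructor
  · intro hb
    have htN : t < D.N := by
      by_contra hcon
      have h3 : R1 < 2 ^ (256 * D.N) := by
        rw [Nat.shiftRight_eq_div_pow] at h1'
        exact (Nat.div_eq_zero_iff_lt (by positivity)).1 h1'
      rw [d4_bit] at hb
      have h4 : 256 * D.N ≤ CD.pc t u := by
        unfold CD.pc
        have := Nat.mul_le_mul_left 256 (not_lt.1 hcon)
        omega
      have h5 := Nat.testBit_lt_two_pow (lt_of_lt_of_le h3 (Nat.pow_le_pow_right (by norm_num) h4))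
      rw [h5] at hb
      exact absurd hb (by simp)
    rw [hbit t htN] at hb
    have huN : u < D.N := by
      by_contra hcon
      have h3 : D.zU t < 2 ^ D.N := by
        have h4 := (an_spec (allB_spec h.Z t htN)).1
        exact Nat.le_of_ble_eq_true h4
      rw [d4_bit] at hb
      have h5 := Nat.testBit_lt_two_pow
        (lt_of_lt_of_le h3 (Nat.pow_le_pow_right (by norm_num) (not_lt.1 hcon)))
      rw [h5] at hb
      exact absurd hb (by simp)
    exact ⟨htN, huN, (zU_iff h huN htN).1 hb⟩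
  · rintro ⟨htN, huN, hE⟩
    rw [hbit t htN]
    exact (zU_iff h huN htN).2 hE

theorem D_spec (hD : allB D.N D.chkD = true) {t u : ℕ} (ht : t < D.N) (hu : u < D.N)
    (hE : (D.rsys h).E ((D.rsys h).β u) ((D.rsys h).β t) = 0) : D.d t u < D.N ∧
    ((D.rsys h).t u)⁻¹ * (D.rsys h).t t * (D.rsys h).t u = (D.rsys h).t (D.d t u) ∧
      ∀ v < D.N, (D.rsys h).Cl t u v → v = t ∨ v = u ∨ v = D.d t u := by
  have h0 : CD.bit (D.zU t) u = true := (zU_iff h hu ht).2 hE
  have h1 := allB_spec (allB_spec hD t ht) u hu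
  simp only [h0, cond_true] at h1
  obtain ⟨h2, h3⟩ := an_spec h1
  obtain ⟨h4, h5⟩ := an_spec h3
  have hd : D.d t u < D.N := Nat.blt_eq.mp h2
  refine ⟨hd, ?_, ?_⟩
  · apply (D.rsys h).conj_t ht hu hd
    cases h6 : D.rf1 t u (D.d t u) with
    | true => exact Or.inl (rf1_spec h.ed h6).symm
    | false =>
      rw [h6, cond_false] at h4
      exact Or.inr (neg_eq_iff_eq_neg.mpr (rf2_spec h.ed h4)).symm
  · intro v hv hc
    have h6 := allB_spec h5 v hv
    rw [(cl_iff h ht hu hv).2 hc, cond_true] at h6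
    cases h7 : Nat.beq v t with
    | true => exact Or.inl (Nat.eq_of_beq_eq_true h7)
    | false =>
      rw [h7, cond_false] at h6
      cases h8 : Nat.beq v u with
      | true => exact Or.inr (Or.inl (Nat.eq_of_beq_eq_true h8))
      | false =>
        rw [h8, cond_false] at h6
        exact Or.inr (Or.inr (Nat.eq_of_beq_eq_true h6))

/-- the certificate -/
noncomputable def rc (hp : ∀ a ∈ D.rp, ∃ l, D.roB a l 0 = true)
    {M : CoxeterMatrix (Fin D.n)} {cox : ℕ → ℕ → ℕ} {l : List CD.Stp} {A0 A1 R1 : ℕ}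
    (hc : D.Ck M cox l A0 A1 R1) : RC (D.rsys h) where
  M := M
  d := D.d
  cox := cox
  l := l
  A0 := A0
  A1 := A1
  R1 := R1
  n_pos := hc.n_pos
  N_lt := hc.N_lt
  A0_eq := hc.A0_eq
  cox_eq := hc.cox_eq
  M_bd := hc.M_bd
  run := hc.run
  A1_of := allB_spec hc.AA
  R1_of _ ht _ hu hE := (R1_iff h hc.N_lt hc.RR (ht.trans hc.N_lt) (hu.trans hc.N_lt)).2
    ⟨ht, hu, hE⟩
  of_R1 _ _ ht hu hb := (R1_iff h hc.N_lt hc.RR ht hu).1 hb
  brc := hc.brc
  d_lt _ ht _ hu hE := (D_spec h hc.DD ht hu hE).1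
  d_t _ ht _ hu hE := (D_spec h hc.DD ht hu hE).2.1
  three _ ht _ hu hE := (D_spec h hc.DD ht hu hE).2.2
  conn := cn_all h hp

end RD

end RG

end Pool.Agent.SPH
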