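import Pool.Agent.SPH.Germ1

/-!
# Project SPH, root germs: groups with a length function

`LG G`: a group with a subadditive, conjugation invariant length `r` and an element `c` some power
of which is central.  `Le x y` means that `r x + r (x⁻¹ y) = r y`; the simple elements are the
`x` with `Le x c`.  The Boolean question whether two simple elements have a least upper bound is
`HasJoin`.
-/

namespace Pool.Agent.SPH

/-- a group with a length function and a distinguished element -/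
structure LG (G : Type*) [Group G] where
  /-- the length -/
  r : G → ℕ
  eq_one : ∀ x, r x = 0 → x = 1
  r_one : r 1 = 0
  r_inv : ∀ x, r x⁻¹ = r x
  r_mul : ∀ x y, r (x * y) ≤ r x + r y
  r_conj : ∀ g x, r (g * x * g⁻¹) = r x
  /-- the Coxeter element -/
  c : G
  /-- `c ^ m` is central -/
  m : ℕ
  m_pos : 0 < m
  c_pow : ∀ x, x * c ^ m = c ^ m * x

namespace LG

variable {G : Type*} [Group G] (L : LG G)

/-- the order -/
def Le (x y : G) : Prop := L.r x + L.r (x⁻¹ * y) = L.r y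

/-- simple elements -/
def Mem (x : G) : Prop := L.Le x L.c

/-- any two simple elements have a least upper bound -/
def HasJoin : Prop :=
  ∀ x y, L.Mem x → L.Mem y → ∃ z, L.Mem z ∧ L.Le x z ∧ L.Le y z ∧
    ∀ w, L.Mem w → L.Le x w → L.Le y w → L.Le z w

theorem le_refl (x : G) : L.Le x x := by
  unfold Le
  rw [inv_mul_cancel, L.r_one, add_zero]

/-- `r x = r y + r (y⁻¹ x)` and `r y = r x + r (x⁻¹ y)` give `r (x⁻¹ y) = 0`. -/
theorem le_antisymm {x y : G} (h1 : L.Le x y) (h2 : L.Le y x) : x = y := by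
  unfold Le at h1 h2
  have h3 : L.r (x⁻¹ * y) = 0 := by omega
  exact inv_mul_eq_one.1 (L.eq_one _ h3)

/-- `r (x⁻¹ z) ≤ r (x⁻¹ y) + r (y⁻¹ z) = r z - r x` and `r z ≤ r x + r (x⁻¹ z)`. -/
theorem le_trans {x y z : G} (h1 : L.Le x y) (h2 : L.Le y z) : L.Le x z := by
  unfold Le at *
  have h3 := L.r_mul (x⁻¹ * y) (y⁻¹ * z)
  have h4 := L.r_mul x (x⁻¹ * z)
  rw [mul_inv_cancel_left] at h4
  rw [mul_assoc, mul_inv_cancel_left] at h3
  omega

theorem one_le (x : G) : L.Le 1 x := by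
  unfold Le
  rw [L.r_one, inv_one, one_mul, zero_add]

theorem le_one {x : G} (h : L.Le x 1) : x = 1 := by
  unfold Le at h
  rw [L.r_one] at h
  exact L.eq_one _ (by omega)

theorem mem_one : L.Mem 1 := by
  exact L.one_le L.c

theorem mem_c : L.Mem L.c := by
  exact L.le_refl L.c

theorem mem_of_le {x y : G} (h1 : L.Le x y) (h2 : L.Mem y) : L.Mem x := by
  exact L.le_trans h1 h2

/-- the length is conjugation invariant on the other side too -/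
theorem r_conj' (g x : G) : L.r (g⁻¹ * x * g) = L.r x := by
  have h := L.r_conj g⁻¹ x
  rwa [inv_inv] at h

/-- `(x⁻¹ y)⁻¹ (x⁻¹ z) = y⁻¹ z`; the three equations for the lengths. -/
theorem q_mono {x y z : G} (h1 : L.Le x y) (h2 : L.Le y z) : L.Le (x⁻¹ * y) (x⁻¹ * z) := by
  have h3 := L.le_trans h1 h2
  have e : (x⁻¹ * y)⁻¹ * (x⁻¹ * z) = y⁻¹ * z := by group
  unfold Le at *
  rw [e]
  omega

theorem q_emb {x y z : G} (h1 : L.Le x y) (h2 : L.Le x z)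
    (h3 : L.Le (x⁻¹ * y) (x⁻¹ * z)) : L.Le y z := by
  have e : (x⁻¹ * y)⁻¹ * (x⁻¹ * z) = y⁻¹ * z := by group
  unfold Le at *
  rw [e] at h3
  omega

/-- `x⁻¹ y ≤ x⁻¹ c` by `q_mono`, and `x⁻¹ c` is simple: `(x⁻¹ c)⁻¹ c = c⁻¹ x c` has the length of
`x`. -/
theorem mem_q {x y : G} (h1 : L.Le x y) (h2 : L.Mem y) : L.Mem (x⁻¹ * y) := by
  have h3 : L.Le x L.c := L.le_trans h1 h2
  refine L.le_trans (L.q_mono h1 h2) ?_
  have e : (x⁻¹ * L.c)⁻¹ * L.c = L.c⁻¹ * x * L.c := by group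
  unfold Le at *
  rw [e, L.r_conj']
  omega

/-- Let `t ≤ x⁻¹ c`.  Then `r c ≤ r (x t) + r (t⁻¹ (x⁻¹ c)) = r (x t) + r (x⁻¹ c) - r t`, so
`r (x t) ≥ r x + r t`, hence `=`; so `x ≤ x t ≤ c`. -/
theorem q_surj {x t : G} (h : L.Mem x) (h1 : L.Le t (x⁻¹ * L.c)) :
    L.Mem (x * t) ∧ L.Le x (x * t) := by
  have e : t⁻¹ * (x⁻¹ * L.c) = (x * t)⁻¹ * L.c := by group
  have a1 := L.r_mul x t
  have a2 := L.r_mul (x * t) ((x * t)⁻¹ * L.c)
  rw [mul_inv_cancel_left] at a2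
  unfold Mem Le at *
  rw [e] at h1
  rw [inv_mul_cancel_left]
  omega

private theorem a3_swap (x y : G) : L.r (y * x⁻¹) = L.r (x⁻¹ * y) := by
  have h := L.r_conj x (x⁻¹ * y)
  rwa [mul_inv_cancel_left] at h

/-- `x ↦ x⁻¹ c` reverses the order: `(y⁻¹ c)⁻¹ (x⁻¹ c) = c⁻¹ (y x⁻¹) c`, and `y x⁻¹` is conjugate
to `x⁻¹ y`. -/
theorem K_anti {x y : G} (h1 : L.Le x y) (h2 : L.Mem y) : L.Le (y⁻¹ * L.c) (x⁻¹ * L.c) := by
  have h3 : L.Le x L.c := L.mem_of_le h1 h2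
  have h4 : L.Le y L.c := h2
  have e : L.r ((y⁻¹ * L.c)⁻¹ * (x⁻¹ * L.c)) = L.r (x⁻¹ * y) := by
    rw [← L.a3_swap x y, ← L.r_conj' L.c (y * x⁻¹)]
    congr 1
    group
  unfold Le at h1 h3 h4 ⊢
  rw [e]
  omega

/-- `x ↦ c x⁻¹` is the inverse of `x ↦ x⁻¹ c`. -/
theorem mem_Ki {x : G} (h : L.Mem x) : L.Mem (L.c * x⁻¹) := by
  have h1 : L.Le x L.c := h
  unfold Mem Le at *
  rw [L.a3_swap x L.c, mul_inv_rev, inv_inv, inv_mul_cancel_right]
  omega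

theorem Ki_anti {x y : G} (h1 : L.Le x y) (h2 : L.Mem y) : L.Le (L.c * y⁻¹) (L.c * x⁻¹) := by
  have h3 : L.Le x L.c := L.mem_of_le h1 h2
  have h4 : L.Le y L.c := h2
  have e : L.r ((L.c * y⁻¹)⁻¹ * (L.c * x⁻¹)) = L.r (x⁻¹ * y) := by
    rw [← L.a3_swap x y]
    congr 1
    group
  unfold Le at h1 h3 h4 ⊢
  rw [e, L.a3_swap x L.c, L.a3_swap y L.c]
  omega

/-- the greatest lower bound: `c j⁻¹` for the least upper bound `j` of `x⁻¹ c` and `y⁻¹ c` -/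
theorem exists_meet (h : L.HasJoin) {x y : G} (hx : L.Mem x) (hy : L.Mem y) :
    ∃ z, L.Mem z ∧ L.Le z x ∧ L.Le z y ∧ ∀ w, L.Mem w → L.Le w x → L.Le w y → L.Le w z := by
  have e : ∀ u : G, L.c * (u⁻¹ * L.c)⁻¹ = u := fun u => by group
  obtain ⟨j, hj, h1, h2, h3⟩ := h (x⁻¹ * L.c) (y⁻¹ * L.c) (L.mem_q hx L.mem_c)
    (L.mem_q hy L.mem_c)
  refine ⟨L.c * j⁻¹, L.mem_Ki hj, ?_, ?_, ?_⟩
  · have h4 := L.Ki_anti h1 hj
    rwa [e] at h4
  · have h4 := L.Ki_anti h2 hj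
    rwa [e] at h4
  · intro w hw h4 h5
    have h6 := L.Ki_anti (h3 _ (L.mem_q hw L.mem_c) (L.K_anti h4 hx) (L.K_anti h5 hy))
      (L.mem_q hw L.mem_c)
    rwa [e] at h6

end LG

end Pool.Agent.SPH
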