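import Mathlib

/-!
# Project SPH, root germs: linear algebra

`mv w` is the image of `w - 1`, `fx w` the space of the fixed vectors and `rr w` the dimension of
`mv w`, for `w` in `GL_n(ℚ)`.
-/

namespace Pool.Agent.SPH.RG

/-- the general linear group -/
abbrev GLn (n : ℕ) : Type := (Fin n → ℚ) ≃ₗ[ℚ] (Fin n → ℚ)

variable {n : ℕ}

/-- the image of `w - 1` -/
def mv (w : GLn n) : Submodule ℚ (Fin n → ℚ) :=
  LinearMap.range ((w : (Fin n → ℚ) →ₗ[ℚ] (Fin n → ℚ)) - LinearMap.id)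

/-- the fixed vectors -/
def fx (w : GLn n) : Submodule ℚ (Fin n → ℚ) :=
  LinearMap.ker ((w : (Fin n → ℚ) →ₗ[ℚ] (Fin n → ℚ)) - LinearMap.id)

/-- the dimension of the image of `w - 1` -/
noncomputable def rr (w : GLn n) : ℕ := Module.finrank ℚ (mv w)

theorem mem_fx {w : GLn n} {v : Fin n → ℚ} : v ∈ fx w ↔ w v = v := by
  rw [fx, LinearMap.mem_ker, LinearMap.sub_apply, LinearMap.id_apply, sub_eq_zero]
  rfl

theorem mem_mv {w : GLn n} {u : Fin n → ℚ} : u ∈ mv w ↔ ∃ v, w v - v = u := by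
  rw [mv, LinearMap.mem_range]
  rfl

/-- rank and nullity -/
theorem fx_add_rr (w : GLn n) : Module.finrank ℚ (fx w) + rr w = n := by
  have h := LinearMap.finrank_range_add_finrank_ker
    ((w : (Fin n → ℚ) →ₗ[ℚ] (Fin n → ℚ)) - LinearMap.id)
  rw [Module.finrank_fin_fun] at h
  rw [rr, mv, fx]
  omega

theorem rr_one : rr (1 : GLn n) = 0 := by
  have h : mv (1 : GLn n) = ⊥ := by
    rw [eq_bot_iff]
    intro u hu
    obtain ⟨v, hv⟩ := mem_mv.mp hu
    rw [Submodule.mem_bot, ← hv]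
    exact sub_self v
  rw [rr, h, finrank_bot]

theorem eq_one_of_rr {w : GLn n} (h : rr w = 0) : w = 1 := by
  have h1 : mv w = ⊥ := Submodule.finrank_eq_zero.mp h
  apply LinearEquiv.ext
  intro v
  have h2 : w v - v ∈ mv w := mem_mv.mpr ⟨v, rfl⟩
  rw [h1, Submodule.mem_bot, sub_eq_zero] at h2
  exact h2

/-- `w⁻¹ v - v = -(w (w⁻¹ v) - w⁻¹ v)` -/
theorem mv_inv (w : GLn n) : mv w⁻¹ = mv w := by
  have key : ∀ w : GLn n, mv w⁻¹ ≤ mv w := by
    intro w u hu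
    obtain ⟨v, hv⟩ := mem_mv.mp hu
    have h2 : w (w⁻¹ v) - w⁻¹ v ∈ mv w := mem_mv.mpr ⟨w⁻¹ v, rfl⟩
    have h3 : u = -(w (w⁻¹ v) - w⁻¹ v) := by
      have h4 : w (w⁻¹ v) = v := w.apply_symm_apply v
      rw [h4, ← hv, neg_sub]
    rw [h3]
    exact (mv w).neg_mem h2
  apply le_antisymm (key w)
  have h5 := key w⁻¹
  rwa [inv_inv] at h5

theorem rr_inv (w : GLn n) : rr w⁻¹ = rr w := by
  rw [rr, rr, mv_inv]

/-- `x (y v) - v = (x (y v) - y v) + (y v - v)` -/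
theorem mv_mul_le (x y : GLn n) : mv (x * y) ≤ mv x ⊔ mv y := by
  intro u hu
  obtain ⟨v, hv⟩ := mem_mv.mp hu
  have h1 : x (y v) - y v ∈ mv x := mem_mv.mpr ⟨y v, rfl⟩
  have h2 : y v - v ∈ mv y := mem_mv.mpr ⟨v, rfl⟩
  have h3 : u = (x (y v) - y v) + (y v - v) := by
    rw [sub_add_sub_cancel, ← hv]
    rfl
  rw [h3]
  exact Submodule.add_mem_sup h1 h2

theorem rr_mul (x y : GLn n) : rr (x * y) ≤ rr x + rr y := by
  have h1 := Submodule.finrank_mono (mv_mul_le x y)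
  have h2 := Submodule.finrank_add_le_finrank_add_finrank (mv x) (mv y)
  rw [rr, rr, rr]
  exact le_trans h1 h2

/-- `mv (g x g⁻¹)` is the image of `mv x` under `g` -/
theorem mv_conj (g x : GLn n) :
    mv (g * x * g⁻¹) = (mv x).map (g : (Fin n → ℚ) →ₗ[ℚ] (Fin n → ℚ)) := by
  ext u
  rw [mem_mv, Submodule.mem_map]
  constructor
  · rintro ⟨v, hv⟩
    refine ⟨x (g⁻¹ v) - g⁻¹ v, mem_mv.2 ⟨_, rfl⟩, ?_⟩
    rw [← hv]
    change g (x (g⁻¹ v) - g⁻¹ v) = g (x (g⁻¹ v)) - v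
    have h1 : g (g⁻¹ v) = v := g.apply_symm_apply v
    rw [map_sub, h1]
  · rintro ⟨y, hy, hu⟩
    obtain ⟨v, hv⟩ := mem_mv.1 hy
    refine ⟨g v, ?_⟩
    have h1 : g⁻¹ (g v) = v := g.symm_apply_apply v
    change g (x (g⁻¹ (g v))) - g v = u
    rw [h1, ← hu, ← hv]
    change g (x v) - g v = g (x v - v)
    rw [map_sub]

theorem rr_conj (g x : GLn n) : rr (g * x * g⁻¹) = rr x := by
  rw [rr, rr, mv_conj]
  exact LinearEquiv.finrank_map_eq g (mv x)

/-- if the lengths add then `mv (x y) = mv x ⊕ mv y` -/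
theorem mv_mul_of_add {x y : GLn n} (h : rr x + rr y = rr (x * y)) :
    mv (x * y) = mv x ⊔ mv y ∧ mv x ⊓ mv y = ⊥ := by
  have h1 := Submodule.finrank_sup_add_finrank_inf_eq (mv x) (mv y)
  have h2 := Submodule.finrank_mono (mv_mul_le x y)
  unfold rr at h
  refine ⟨Submodule.eq_of_le_of_finrank_le (mv_mul_le x y) (by omega), ?_⟩
  exact Submodule.finrank_eq_zero.1 (by omega)

/-- Let `r x + r (x⁻¹ y) = r y`.  Then `mv x ≤ mv y` (`mv_mul_of_add` for `x` and `x⁻¹ y`). -/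
theorem mv_le_of_le {x y : GLn n} (h : rr x + rr (x⁻¹ * y) = rr y) : mv x ≤ mv y := by
  have h1 : rr x + rr (x⁻¹ * y) = rr (x * (x⁻¹ * y)) := by
    rw [mul_inv_cancel_left]
    exact h
  have h2 := (mv_mul_of_add h1).1
  rw [mul_inv_cancel_left] at h2
  rw [h2]
  exact le_sup_left

/-- Let `B` be a symmetric bilinear form with `B v v ≠ 0` for `v ≠ 0` which is preserved by `w`.
Then the fixed space of `w` is the orthogonal complement of `mv w`: `B (w v - v) f = 0` for fixed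
`f`; conversely if `f` is orthogonal to `mv w`, then `B (w v - v) f = 0` for all `v`, that is
`B v (w⁻¹ f - f) = 0` for all `v`, so `w⁻¹ f = f`. -/
theorem mem_fx_iff (B : LinearMap.BilinForm ℚ (Fin n → ℚ)) (hs : ∀ v u, B v u = B u v)
    (hp : ∀ v, v ≠ 0 → 0 < B v v) {w : GLn n} (hw : ∀ v u, B (w v) (w u) = B v u)
    {f : Fin n → ℚ} : f ∈ fx w ↔ ∀ u ∈ mv w, B u f = 0 := by
  constructor
  · intro hf u hu
    obtain ⟨v, rfl⟩ := mem_mv.1 hu
    have e := hw v f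
    rw [mem_fx.1 hf] at e
    rw [map_sub, LinearMap.sub_apply, e, sub_self]
  · intro hf
    have h1 : ∀ v, B (w v) f = B v f := by
      intro v
      have e := hf (w v - v) (mem_mv.2 ⟨v, rfl⟩)
      rw [map_sub, LinearMap.sub_apply] at e
      exact sub_eq_zero.1 e
    rw [mem_fx, ← sub_eq_zero]
    by_contra h0
    have h2 := hp _ h0
    have h3 : B (w f - f) (w f - f) = 0 := by
      rw [map_sub, map_sub, LinearMap.sub_apply, LinearMap.sub_apply, hw, h1, hs f (w f), h1]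
      ring
    rw [h3] at h2
    exact lt_irrefl _ h2

/-- and `mv w` is the orthogonal complement of the fixed space (dimensions, or
`u ∈ mv w ↔ ...` by `LinearMap.BilinForm.orthogonal_orthogonal` for the nondegenerate reflexive
form `B`) -/
theorem mem_mv_iff (B : LinearMap.BilinForm ℚ (Fin n → ℚ)) (hs : ∀ v u, B v u = B u v)
    (hp : ∀ v, v ≠ 0 → 0 < B v v) {w : GLn n} (hw : ∀ v u, B (w v) (w u) = B v u)
    {u : Fin n → ℚ} : u ∈ mv w ↔ ∀ f ∈ fx w, B u f = 0 := by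
  have hr : LinearMap.BilinForm.IsRefl B := fun v u' e => by rw [hs, e]
  have hl : ∀ v, (∀ u', B v u' = 0) → v = 0 := by
    intro v hv
    by_contra h0
    have h2 := hp v h0
    rw [hv v] at h2
    exact lt_irrefl _ h2
  have hn : B.Nondegenerate := ⟨hl, fun v hv => hl v fun u' => by rw [hs, hv]⟩
  have h1 : LinearMap.BilinForm.orthogonal B (mv w) = fx w := by
    ext f
    rw [LinearMap.BilinForm.mem_orthogonal_iff, mem_fx_iff B hs hp hw]
  have h2 : LinearMap.BilinForm.orthogonal B (fx w) = mv w := by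
    rw [← h1]
    exact LinearMap.BilinForm.orthogonal_orthogonal hn hr _
  rw [← h2, LinearMap.BilinForm.mem_orthogonal_iff]
  exact forall₂_congr fun f _ => by rw [hs]

/-- The orthogonal reflection lemma: let `w` preserve `B`, `b ∈ mv w`, `B b b = 2` and
`s v = v - B v b • b`.  Then `r (s w) + 1 = r w`.
Proof: `b = w x - x`; `B (w x) (w x) = B x x` gives `2 B x b + 2 = 0`, so `B (w x) b = 1` and
`s (w x) = w x - b = x`.  So `x` is fixed by `s w`, and so is every vector `f` fixed by `w`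
(`B b f = 0` because `b ∈ mv w`).  `x` is not fixed by `w` as `b ≠ 0`.  So the fixed space of
`s w` has a larger dimension than the one of `w`: `r (s w) ≤ r w - 1`.  On the other hand
`r w = r (s (s w)) ≤ r s + r (s w)` and `r s ≤ 1` (`mv s ≤ span b`). -/
theorem rr_refl (B : LinearMap.BilinForm ℚ (Fin n → ℚ)) (hs : ∀ v u, B v u = B u v)
    (hp : ∀ v, v ≠ 0 → 0 < B v v) {w s : GLn n} (hw : ∀ v u, B (w v) (w u) = B v u)
    {b : Fin n → ℚ} (hb : B b b = 2) (h : b ∈ mv w) (hsv : ∀ v, s v = v - B v b • b) :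
    rr (s * w) + 1 = rr w := by
  obtain ⟨x, hx⟩ := mem_mv.mp h
  have hb0 : b ≠ 0 := by
    rintro rfl
    rw [map_zero] at hb
    norm_num at hb
  have hwx : w x = x + b := by rw [← hx]; abel
  have hxb : B x b = -1 := by
    have h1 := hw x x
    rw [hwx, map_add, map_add, LinearMap.add_apply, LinearMap.add_apply, hb, hs b x] at h1
    linarith
  have hsx : s (w x) = x := by
    rw [hsv, hwx, map_add, LinearMap.add_apply, hxb, hb]
    norm_num
  have hle : fx w ≤ fx (s * w) := by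
    intro f hf
    have h1 : B b f = 0 := (mem_fx_iff B hs hp hw).mp hf b h
    rw [mem_fx] at hf ⊢
    change s (w f) = f
    rw [hf, hsv, hs f b, h1, zero_smul, sub_zero]
  have hlt : fx w < fx (s * w) := by
    refine lt_of_le_of_ne hle fun he => ?_
    have h1 : x ∈ fx (s * w) := mem_fx.mpr hsx
    rw [← he, mem_fx, hwx] at h1
    exact hb0 (by simpa using h1)
  have h1 := Submodule.finrank_lt_finrank_of_lt hlt
  have h2 := fx_add_rr w
  have h3 := fx_add_rr (s * w)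
  have h4 : rr s ≤ 1 := by
    have h5 : mv s ≤ Submodule.span ℚ {b} := by
      intro u hu
      obtain ⟨v, rfl⟩ := mem_mv.mp hu
      rw [hsv, Submodule.mem_span_singleton]
      exact ⟨-(B v b), by rw [neg_smul]; abel⟩
    refine (Submodule.finrank_mono h5).trans ?_
    have h8 := finrank_span_le_card (R := ℚ) ({b} : Set (Fin n → ℚ))
    simpa using h8
  have h6 : rr w ≤ rr s + rr (s * w) := by
    have h7 := rr_mul s⁻¹ (s * w)
    rwa [inv_mul_cancel_left, rr_inv] at h7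
  omega

private theorem bw_val {c x : GLn n} {u : Fin n → ℚ} (hu : u ∈ fx (x⁻¹ * c)) : c u = x u := by
  have h2 : (x⁻¹ * c) u = u := mem_fx.1 hu
  have h4 : x ((x⁻¹ * c) u) = c u := x.apply_symm_apply (c u)
  rw [← h4, h2]

private theorem bw_K {c x : GLn n} (hc : fx c = ⊥) (h1 : rr x + rr (x⁻¹ * c) = rr c)
    {v : Fin n → ℚ} : v ∈ fx (x⁻¹ * c) ↔ c v - v ∈ mv x := by
  refine ⟨fun hv => mem_mv.2 ⟨v, by rw [bw_val hv]⟩, fun hv => ?_⟩
  have hφi := LinearMap.ker_eq_bot.1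
    (show LinearMap.ker ((c : (Fin n → ℚ) →ₗ[ℚ] (Fin n → ℚ)) - LinearMap.id) = ⊥ from hc)
  have hle : (fx (x⁻¹ * c)).map ((c : (Fin n → ℚ) →ₗ[ℚ] (Fin n → ℚ)) - LinearMap.id) ≤
      mv x := by
    rintro _ ⟨u, hu, rfl⟩
    refine mem_mv.2 ⟨u, ?_⟩
    change x u - u = c u - u
    rw [bw_val hu]
  have hfin := (Submodule.equivMapOfInjective _ hφi (fx (x⁻¹ * c))).finrank_eq
  have e1 := fx_add_rr (x⁻¹ * c)
  have e2 := fx_add_rr c
  rw [hc, finrank_bot] at e2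
  have heq := Submodule.eq_of_le_of_finrank_le hle (by
    rw [← hfin]
    change rr x ≤ _
    omega)
  rw [← heq] at hv
  obtain ⟨v', hv', e⟩ := hv
  have h5 : v' = v := hφi e
  rw [← h5]
  exact hv'

/-- The lemma of Brady and Watt.  Let `c`, `x`, `y` preserve `B`, `fx c = ⊥`, and let the lengths
add in `c = x (x⁻¹ c)` and `c = y (y⁻¹ c)`.  If `mv x ≤ mv y` then `r x + r (x⁻¹ y) = r y`.
Proof: for `v` fixed by `x⁻¹ c` we have `c v = x v`, so `c v - v ∈ mv x`.  So the injective map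
`c - 1` maps `fx (x⁻¹ c)`, which has dimension `n - r (x⁻¹ c) = n - (n - r x) = r x`, onto `mv x`;
so `v ∈ fx (x⁻¹ c) ↔ c v - v ∈ mv x`, and the same for `y`; hence `fx (x⁻¹ c) ≤ fx (y⁻¹ c)`.  For
`v ∈ fx (x⁻¹ c)` this gives `x v = c v = y v`, so `v ∈ fx (x⁻¹ y)`.  Also `fx y ≤ fx x`
(`mem_fx_iff`), so `fx y ≤ fx (x⁻¹ y)`.  The spaces `fx y` and `fx (x⁻¹ c) ≤ fx (y⁻¹ c)` meet in
`0` (a vector in both is fixed by `c`), so `fx (x⁻¹ y)` has dimension at least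
`(n - r y) + r x`, that is `r (x⁻¹ y) ≤ r y - r x`; the other inequality is `rr_mul`. -/
theorem brady_watt (B : LinearMap.BilinForm ℚ (Fin n → ℚ)) (hs : ∀ v u, B v u = B u v)
    (hp : ∀ v, v ≠ 0 → 0 < B v v) {c x y : GLn n} (hx : ∀ v u, B (x v) (x u) = B v u)
    (hy : ∀ v u, B (y v) (y u) = B v u) (hc : fx c = ⊥)
    (h1 : rr x + rr (x⁻¹ * c) = rr c) (h2 : rr y + rr (y⁻¹ * c) = rr c) (h : mv x ≤ mv y) :
    rr x + rr (x⁻¹ * y) = rr y := by
  have hK : fx (x⁻¹ * c) ≤ fx (y⁻¹ * c) := fun v hv =>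
    (bw_K hc h2).2 (h ((bw_K hc h1).1 hv))
  have h3 : fx (x⁻¹ * c) ≤ fx (x⁻¹ * y) := by
    intro v hv
    refine mem_fx.2 ?_
    change x⁻¹ (y v) = v
    rw [← bw_val (hK hv), bw_val hv]
    exact x.symm_apply_apply v
  have h4 : fx y ≤ fx (x⁻¹ * y) := by
    intro f hf
    have h5 : f ∈ fx x := (mem_fx_iff B hs hp hx).2 fun u hu =>
      (mem_fx_iff B hs hp hy).1 hf u (h hu)
    refine mem_fx.2 ?_
    change x⁻¹ (y f) = f
    rw [mem_fx.1 hf]
    conv_lhs => rw [← mem_fx.1 h5]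
    exact x.symm_apply_apply f
  have h6 : fx y ⊓ fx (x⁻¹ * c) = ⊥ := by
    rw [eq_bot_iff]
    rintro v ⟨hv1, hv2⟩
    rw [← hc]
    refine mem_fx.2 ?_
    rw [bw_val (hK hv2)]
    exact mem_fx.1 hv1
  have d1 := Submodule.finrank_sup_add_finrank_inf_eq (fx y) (fx (x⁻¹ * c))
  rw [h6, finrank_bot] at d1
  have d2 := Submodule.finrank_mono (sup_le h4 h3)
  have e1 := fx_add_rr (x⁻¹ * c)
  have e2 := fx_add_rr c
  have e3 := fx_add_rr y
  have e4 := fx_add_rr (x⁻¹ * y)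
  rw [hc, finrank_bot] at e2
  have e5 := rr_mul x (x⁻¹ * y)
  rw [mul_inv_cancel_left] at e5
  omega

/-- an injective map which maps `F` into `M` with `dim M ≤ dim F` -/
private theorem mem_of_inj_K (T : (Fin n → ℚ) →ₗ[ℚ] (Fin n → ℚ)) (hT : Function.Injective T)
    (F M : Submodule ℚ (Fin n → ℚ)) (h : ∀ v ∈ F, T v ∈ M)
    (hd : Module.finrank ℚ M ≤ Module.finrank ℚ F) {v : Fin n → ℚ} : v ∈ F ↔ T v ∈ M := by
  refine ⟨h v, fun hv => ?_⟩
  have hle : F.map T ≤ M := by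
    rintro _ ⟨w, hw, rfl⟩
    exact h w hw
  have hfr : Module.finrank ℚ (F.map T) = Module.finrank ℚ F :=
    (LinearEquiv.finrank_eq (Submodule.equivMapOfInjective T hT F)).symm
  have heq : F.map T = M := Submodule.eq_of_le_of_finrank_le hle (by rw [hfr]; exact hd)
  rw [← heq] at hv
  obtain ⟨w, hw, hwv⟩ := hv
  rw [← hT hwv]
  exact hw

/-- the injectivity of `c - 1` -/
private theorem eq_zero_of_fx_K {c : GLn n} (hc : fx c = ⊥) {v : Fin n → ℚ} (hv : c v = v) :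
    v = 0 := by
  have : v ∈ fx c := mem_fx.2 hv
  rw [hc] at this
  exact (Submodule.mem_bot ℚ).1 this

/-- the lengths -/
private theorem rr_K {c x : GLn n} (hc : fx c = ⊥) (h1 : rr x + rr (x⁻¹ * c) = rr c) :
    rr x + rr (x⁻¹ * c) = n := by
  have h := fx_add_rr c
  rw [hc, finrank_bot] at h
  omega

/-- From the proof of `brady_watt`: `v` is fixed by `x⁻¹ c` iff `c v - v ∈ mv x`. -/
theorem mem_fx_K {c x : GLn n} (hc : fx c = ⊥) (h1 : rr x + rr (x⁻¹ * c) = rr c)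
    {v : Fin n → ℚ} : v ∈ fx (x⁻¹ * c) ↔ c v - v ∈ mv x := by
  have hT : Function.Injective
      ((c : (Fin n → ℚ) →ₗ[ℚ] (Fin n → ℚ)) - (LinearMap.id : (Fin n → ℚ) →ₗ[ℚ] (Fin n → ℚ))) := by
    rw [← LinearMap.ker_eq_bot]
    exact hc
  have hn := rr_K hc h1
  have h2 := fx_add_rr (x⁻¹ * c)
  refine mem_of_inj_K _ hT (fx (x⁻¹ * c)) (mv x) ?_ ?_
  · intro w hw
    have hw' : x⁻¹ (c w) = w := mem_fx.1 hw
    refine mem_mv.2 ⟨w, ?_⟩
    have h3 : c w = x w := by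
      have h4 := congrArg x hw'
      rwa [show x (x⁻¹ (c w)) = c w from x.apply_symm_apply (c w)] at h4
    change x w - w = c w - w
    rw [h3]
  · change rr x ≤ _
    omega

/-- Similarly `v` is fixed by `x` iff `v - c⁻¹ v ∈ mv (x⁻¹ c)`: for `v` fixed by `x`,
`v - c⁻¹ v = v - c⁻¹ (x v) = v - (x⁻¹ c)⁻¹ v`; both sides have dimension `n - r x`
(`v ↦ v - c⁻¹ v` is injective). -/
theorem mem_fx_iff_K {c x : GLn n} (hc : fx c = ⊥) (h1 : rr x + rr (x⁻¹ * c) = rr c)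
    {v : Fin n → ℚ} : v ∈ fx x ↔ v - c⁻¹ v ∈ mv (x⁻¹ * c) := by
  have hT : Function.Injective
      ((LinearMap.id : (Fin n → ℚ) →ₗ[ℚ] (Fin n → ℚ)) -
        ((c⁻¹ : GLn n) : (Fin n → ℚ) →ₗ[ℚ] (Fin n → ℚ))) := by
    rw [← LinearMap.ker_eq_bot, LinearMap.ker_eq_bot']
    intro w hw
    have hw' : w - c⁻¹ w = 0 := hw
    have h3 : c⁻¹ w = w := (sub_eq_zero.1 hw').symm
    refine eq_zero_of_fx_K hc ?_
    have h4 := congrArg c h3
    rwa [show c (c⁻¹ w) = w from c.apply_symm_apply w, eq_comm] at h4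
  have hn := rr_K hc h1
  have h2 := fx_add_rr x
  refine mem_of_inj_K _ hT (fx x) (mv (x⁻¹ * c)) ?_ ?_
  · intro w hw
    have hw' : x w = w := mem_fx.1 hw
    refine mem_mv.2 ⟨c⁻¹ w, ?_⟩
    have h3 : x⁻¹ w = w := by
      have h4 := congrArg (x⁻¹ : GLn n) hw'
      rwa [show x⁻¹ (x w) = w from x.symm_apply_apply w, eq_comm] at h4
    change x⁻¹ (c (c⁻¹ w)) - c⁻¹ w = w - c⁻¹ w
    rw [show c (c⁻¹ w) = w from c.apply_symm_apply w, h3]
  · change rr (x⁻¹ * c) ≤ _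
    omega

end Pool.Agent.SPH.RG
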