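import Pool.Agent.SPH.RG.Lin
import Pool.Agent.SPH.RG.Bez

/-!
# Project SPH, root germs: simply laced root systems with a Coxeter element

`RSys n N`: the positive roots `β 0, …, β (N - 1)` in `ℚ^n` (`β 0, …, β (n - 1)` is the standard
basis, the simple roots) and the Euler form `E` (`E (β j) (β i) = 0` for `i < j < n`); the
invariant form is `B v w = E v w + E w v`.  There is no diagram automorphism.  `Gr` is the group
of the linear maps which preserve `B` and the roots, `t i` the reflection in `β i`,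
`W l` the product of the `t i`, `i ∈ l`, and `c = t 0 ⋯ t (n-1)` the Coxeter element.
-/

namespace Pool.Agent.SPH.RG

/-- the symmetric form of a bilinear form -/
def symB {n : ℕ} (E : LinearMap.BilinForm ℚ (Fin n → ℚ)) : LinearMap.BilinForm ℚ (Fin n → ℚ) :=
  E + LinearMap.flip E

theorem symB_apply {n : ℕ} (E : LinearMap.BilinForm ℚ (Fin n → ℚ)) (v w : Fin n → ℚ) :
    symB E v w = E v w + E w v := rfl

/-- the reflection in `b` (for `B b b = 2`) -/
def rfl' {n : ℕ} (E : LinearMap.BilinForm ℚ (Fin n → ℚ)) (b v : Fin n → ℚ) : Fin n → ℚ :=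
  v - symB E v b • b

/-- a simply laced root system without diagram automorphisms, with a Coxeter element -/
structure RSys (n N : ℕ) where
  /-- the Euler form -/
  E : LinearMap.BilinForm ℚ (Fin n → ℚ)
  /-- the positive roots -/
  β : ℕ → Fin n → ℚ
  pos : ∀ v, v ≠ 0 → 0 < E v v
  hn : n ≤ N
  simple : ∀ i (h : i < n), β i = Pi.single ⟨i, h⟩ 1
  Eup : ∀ i j, i < j → j < n → E (β j) (β i) = 0
  norm : ∀ i < N, E (β i) (β i) = 1
  nonneg : ∀ i < N, ∀ j, 0 ≤ β i j
  inj : ∀ i < N, ∀ j < N, β i = β j → i = j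
  closed : ∀ i < n, ∀ j < N, ∃ k < N, rfl' E (β i) (β j) = β k ∨ rfl' E (β i) (β j) = -β k
  conj : ∀ j < N, n ≤ j → ∃ i < n, ∃ k < j, β j = rfl' E (β i) (β k)
  ht : ∀ j < N, ∑ i, β j i = 1 → j < n
  rho : ∀ i < n, ∑ j ∈ Finset.range N, symB E (β j) (β i) = 2
  noaut : ∀ σ : Fin n → Fin n,
    (∀ i j, symB E (β (σ i)) (β (σ j)) = symB E (β i) (β j)) → ∀ i, σ i = i
  /-- the Coxeter number is `2 m` -/
  m : ℕ
  m_pos : 0 < m
  cpow : ∀ v, (fun v => (List.range n).foldr (fun i v => rfl' E (β i) v) v)^[m] v = -v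

namespace RSys

variable {n N : ℕ} (R : RSys n N)

/-- the invariant form -/
def B : LinearMap.BilinForm ℚ (Fin n → ℚ) := symB R.E

theorem B_apply (v w : Fin n → ℚ) : R.B v w = R.E v w + R.E w v := rfl

theorem B_symm (v w : Fin n → ℚ) : R.B v w = R.B w v := by
  rw [B_apply, B_apply, add_comm]

theorem B_pos (v : Fin n → ℚ) (h : v ≠ 0) : 0 < R.B v v := by
  have := R.pos v h
  rw [B_apply]
  linarith

theorem B_norm {i : ℕ} (h : i < N) : R.B (R.β i) (R.β i) = 2 := by
  rw [B_apply, R.norm i h]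
  norm_num

/-- the roots -/
def Phi : Set (Fin n → ℚ) := {v | ∃ i < N, v = R.β i ∨ v = -R.β i}

/-- the reflection in a root `b` as a linear map -/
def reL (b : Fin n → ℚ) : (Fin n → ℚ) →ₗ[ℚ] (Fin n → ℚ) :=
  LinearMap.id - (LinearMap.flip R.B b).smulRight b

theorem reL_apply (b v : Fin n → ℚ) : R.reL b v = v - R.B v b • b := rfl

theorem reL_invol {b : Fin n → ℚ} (h : R.B b b = 2) (v : Fin n → ℚ) :
    R.reL b (R.reL b v) = v := by
  rw [reL_apply, reL_apply, map_sub, LinearMap.sub_apply, map_smul, LinearMap.smul_apply,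
    smul_eq_mul, h, sub_sub, ← add_smul]
  have e : R.B v b + (R.B v b - R.B v b * 2) = 0 := by ring
  rw [e, zero_smul, sub_zero]

open Classical in
/-- the reflection in the `i`-th root, for `i < N` -/
noncomputable def s (i : ℕ) : GLn n :=
  if h : i < N then
    LinearEquiv.ofInvolutive (R.reL (R.β i)) (fun v => R.reL_invol (R.B_norm h) v)
  else 1

theorem s_apply {i : ℕ} (h : i < N) (v : Fin n → ℚ) :
    R.s i v = v - R.B v (R.β i) • R.β i := by
  unfold s
  rw [dif_pos h]
  rfl

theorem s_ge {i : ℕ} (h : N ≤ i) : R.s i = 1 := dif_neg (by omega)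

/-- the group -/
def Gr : Subgroup (GLn n) where
  carrier := {w | (∀ v u, R.B (w v) (w u) = R.B v u) ∧ ∀ v, w v ∈ R.Phi ↔ v ∈ R.Phi}
  one_mem' := ⟨fun _ _ => rfl, fun _ => Iff.rfl⟩
  mul_mem' := by
    rintro a b ⟨h1, h2⟩ ⟨h3, h4⟩
    exact ⟨fun v u => (h1 _ _).trans (h3 _ _), fun v => (h2 _).trans (h4 _)⟩
  inv_mem' := by
    rintro a ⟨h1, h2⟩
    constructor
    · intro v u
      have h := h1 (a⁻¹ v) (a⁻¹ u)
      have e : ∀ v, a (a⁻¹ v) = v := fun v => LinearEquiv.apply_symm_apply a v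
      rw [e, e] at h
      exact h.symm
    · intro v
      have h := h2 (a⁻¹ v)
      have e : ∀ v, a (a⁻¹ v) = v := fun v => LinearEquiv.apply_symm_apply a v
      rw [e] at h
      exact h.symm

private theorem c1_invol {i : ℕ} (h : i < N) (v : Fin n → ℚ) : R.s i (R.s i v) = v := by
  have e : ∀ u, R.s i u = R.reL (R.β i) u := fun u => R.s_apply h u
  rw [e, e, R.reL_invol (R.B_norm h)]

private theorem c1_B {i : ℕ} (h : i < N) (v u : Fin n → ℚ) :
    R.B (R.s i v) (R.s i u) = R.B v u := by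
  rw [R.s_apply h, R.s_apply h]
  simp only [map_sub, map_smul, LinearMap.sub_apply, LinearMap.smul_apply, smul_eq_mul,
    R.B_norm h]
  rw [R.B_symm (R.β i) u]
  ring

private theorem c1_neg {v : Fin n → ℚ} (h : v ∈ R.Phi) : -v ∈ R.Phi := by
  obtain ⟨k, hk, h | h⟩ := h
  · exact ⟨k, hk, Or.inr (by rw [h])⟩
  · exact ⟨k, hk, Or.inl (by rw [h, neg_neg])⟩

private theorem c1_root (i : ℕ) : i < N → ∀ v ∈ R.Phi, R.s i v ∈ R.Phi := by
  induction i using Nat.strong_induction_on with
  | _ i ih =>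
    intro hi
    by_cases hn : i < n
    · have key : ∀ j < N, R.s i (R.β j) ∈ R.Phi := by
        intro j hj
        obtain ⟨k, hk, h⟩ := R.closed i hn j hj
        refine ⟨k, hk, ?_⟩
        rw [R.s_apply hi]
        exact h
      rintro v ⟨j, hj, h | h⟩
      · rw [h]
        exact key j hj
      · rw [h, map_neg]
        exact R.c1_neg (key j hj)
    · obtain ⟨a, ha, k, hk, h⟩ := R.conj i hi (not_lt.1 hn)
      have ha' : a < N := lt_of_lt_of_le ha R.hn
      have hk' : k < N := lt_trans hk hi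
      have hb : R.β i = R.s a (R.β k) := by
        rw [R.s_apply ha']
        exact h
      have ha1 : ∀ v ∈ R.Phi, R.s a v ∈ R.Phi := ih a (by omega) ha'
      intro v hv
      have e : R.s i v = R.s a (R.s k (R.s a v)) := by
        rw [R.s_apply hk' (R.s a v), map_sub, R.c1_invol ha', map_smul, ← hb, R.s_apply hi]
        have e2 : R.B (R.s a v) (R.β k) = R.B v (R.β i) := by
          rw [hb, ← R.c1_B ha' v (R.s a (R.β k)), R.c1_invol ha']
        rw [e2]
      rw [e]
      exact ha1 _ (ih k hk hk' _ (ha1 v hv))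

/-- `s i` preserves `B`; it maps roots to roots: for `i < n` by `closed` (and `s i (s i v) = v`);
for `n ≤ i < N`, by strong induction, `β i = s a (β k)` with `a < n`, `k < i`, and then
`s i = s a * s k * s a`. -/
theorem s_mem (i : ℕ) : R.s i ∈ R.Gr := by
  by_cases hi : i < N
  · refine ⟨R.c1_B hi, fun v => ⟨fun h => ?_, R.c1_root i hi v⟩⟩
    have h2 := R.c1_root i hi _ h
    rwa [R.c1_invol hi] at h2
  · rw [R.s_ge (not_lt.1 hi)]
    exact R.Gr.one_mem

/-- the reflection as an element of the group -/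
noncomputable def t (i : ℕ) : R.Gr := ⟨R.s i, R.s_mem i⟩

theorem t_apply {i : ℕ} (h : i < N) (v : Fin n → ℚ) :
    (R.t i).1 v = v - R.B v (R.β i) • R.β i := R.s_apply h v

theorem t_sq (i : ℕ) : R.t i * R.t i = 1 := by
  apply Subtype.ext
  change R.s i * R.s i = 1
  by_cases hi : i < N
  · refine LinearEquiv.ext fun v => ?_
    exact R.c1_invol hi v
  · rw [R.s_ge (not_lt.1 hi), mul_one]

theorem t_inv (i : ℕ) : (R.t i)⁻¹ = R.t i := inv_eq_of_mul_eq_one_left (R.t_sq i)

/-- products of reflections -/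
noncomputable def W (l : List ℕ) : R.Gr := (l.map R.t).prod

theorem W_nil : R.W [] = 1 := rfl

theorem W_cons (i : ℕ) (l : List ℕ) : R.W (i :: l) = R.t i * R.W l := by simp [W]

theorem W_append (l₁ l₂ : List ℕ) : R.W (l₁ ++ l₂) = R.W l₁ * R.W l₂ := by simp [W]

/-- the Coxeter element -/
noncomputable def c : R.Gr := R.W (List.range n)

private theorem W_foldr : ∀ (l : List ℕ) (_ : ∀ i ∈ l, i < N) (v : Fin n → ℚ),
    (R.W l).1 v = l.foldr (fun i v => rfl' R.E (R.β i) v) v
  | [], _, v => rfl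
  | i :: l, h, v => by
    have ih := W_foldr l (fun j hj => h j (List.mem_cons_of_mem _ hj)) v
    have e : (R.W (i :: l)).1 v = (R.t i).1 ((R.W l).1 v) := by
      rw [W_cons]
      rfl
    rw [e, R.t_apply (h i List.mem_cons_self), ih]
    rfl

private theorem c_pow_apply : ∀ (k : ℕ) (v : Fin n → ℚ),
    (R.c ^ k).1 v = (fun v => (List.range n).foldr (fun i v => rfl' R.E (R.β i) v) v)^[k] v
  | 0, _ => rfl
  | k + 1, v => by
    have ih := c_pow_apply k v
    have e : (R.c ^ (k + 1)).1 v = R.c.1 ((R.c ^ k).1 v) := by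
      rw [pow_succ']
      rfl
    have e2 : ∀ u, R.c.1 u = (List.range n).foldr (fun i v => rfl' R.E (R.β i) v) u := fun u =>
      R.W_foldr (List.range n)
        (fun i hi => lt_of_lt_of_le (List.mem_range.1 hi) R.hn) u
    rw [e, ih, e2, Function.iterate_succ_apply']

/-- `c ^ m = -1` by `cpow` (`(W l) v` is the `foldr` of the reflections), so it commutes with
everything -/
theorem c_pow_comm (x : R.Gr) : x * R.c ^ R.m = R.c ^ R.m * x := by
  have h : ∀ v, (R.c ^ R.m).1 v = -v := fun v => by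
    rw [R.c_pow_apply R.m v]
    exact R.cpow v
  refine Subtype.ext (LinearEquiv.ext fun v => ?_)
  have e1 : (x * R.c ^ R.m).1 v = x.1 ((R.c ^ R.m).1 v) := rfl
  have e2 : (R.c ^ R.m * x).1 v = (R.c ^ R.m).1 (x.1 v) := rfl
  rw [e1, e2, h, h, map_neg]

/-- the length group -/
noncomputable def L : LG R.Gr where
  r w := rr w.1
  eq_one x h := Subtype.ext (eq_one_of_rr h)
  r_one := rr_one
  r_inv x := rr_inv x.1
  r_mul x y := rr_mul x.1 y.1
  r_conj g x := rr_conj g.1 x.1
  c := R.c
  m := R.m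
  m_pos := R.m_pos
  c_pow := R.c_pow_comm

theorem L_r (x : R.Gr) : R.L.r x = rr x.1 := rfl

theorem L_c : R.L.c = R.c := rfl

/-- `Gr` is finite: an element is determined by its values at the simple roots `β 0, …, β (n-1)`
(a basis), which are in the finite set `Phi`. -/
theorem finite_Gr : Finite R.Gr := by
  classical
  have hfin : R.Phi.Finite := by
    have hsub : R.Phi ⊆
        (↑((Finset.range N).image R.β ∪ (Finset.range N).image fun i => -R.β i) :
          Set (Fin n → ℚ)) := by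
      rintro v ⟨i, hi, h | h⟩
      · simp only [Finset.coe_union, Finset.coe_image, Finset.coe_range, Set.mem_union,
          Set.mem_image, Set.mem_Iio]
        exact Or.inl ⟨i, hi, h.symm⟩
      · simp only [Finset.coe_union, Finset.coe_image, Finset.coe_range, Set.mem_union,
          Set.mem_image, Set.mem_Iio]
        exact Or.inr ⟨i, hi, h.symm⟩
    exact (Finset.finite_toSet _).subset hsub
  haveI : Finite R.Phi := hfin.to_subtype
  have hmem : ∀ (w : R.Gr) (j : Fin n), w.1 (R.β j) ∈ R.Phi := fun w j =>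
    (w.2.2 _).2 ⟨j, lt_of_lt_of_le j.2 R.hn, Or.inl rfl⟩
  refine Finite.of_injective
    (fun w : R.Gr => (fun j : Fin n => (⟨w.1 (R.β j), hmem w j⟩ : R.Phi))) ?_
  intro w w' h
  apply Subtype.ext
  apply LinearEquiv.toLinearMap_injective
  refine LinearMap.pi_ext' fun j => LinearMap.ext_ring ?_
  have h2 := congrArg Subtype.val (congrFun h j)
  simp only at h2
  rw [R.simple j j.2] at h2
  simpa using h2

/-- coordinate sum -/
private def csm {n : ℕ} (v : Fin n → ℚ) : ℚ := ∑ j, v j

private theorem csm_sub {n : ℕ} (v u : Fin n → ℚ) : csm (v - u) = csm v - csm u := by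
  simp [csm, Finset.sum_sub_distrib]

private theorem csm_smul {n : ℕ} (a : ℚ) (v : Fin n → ℚ) : csm (a • v) = a * csm v := by
  simp [csm, Finset.mul_sum]

include R in
private theorem c4_le (i : Fin n) : (i : ℕ) < N := lt_of_lt_of_le i.2 R.hn

private theorem c4_simple (i : Fin n) : R.β i = Pi.single i 1 := R.simple i i.2

private theorem c4_csm (i : Fin n) : csm (R.β i) = 1 := by
  rw [c4_simple]
  simp [csm]

private theorem c4_expand (u : Fin n → ℚ) : u = ∑ j : Fin n, u j • R.β j := by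
  ext i
  rw [Finset.sum_apply]
  simp only [c4_simple, Pi.smul_apply, smul_eq_mul]
  rw [Finset.sum_eq_single i]
  · simp
  · intro b _ hb
    rw [Pi.single_eq_of_ne hb.symm, mul_zero]
  · intro h
    exact absurd (Finset.mem_univ i) h

private theorem c4_B (v u : Fin n → ℚ) : R.B v u = ∑ j : Fin n, u j * R.B v (R.β j) := by
  conv_lhs => rw [R.c4_expand u]
  rw [map_sum]
  simp only [map_smul, smul_eq_mul]

/-- a fixed vector which is orthogonal to no root -/
private theorem c4_regular {w : R.Gr} (h : ∀ i < N, R.β i ∉ mv w.1) :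
    ∀ M, M ≤ N → ∃ v, w.1 v = v ∧ ∀ i < M, R.B v (R.β i) ≠ 0 := by
  intro M
  induction M with
  | zero => exact fun _ => ⟨0, map_zero _, fun i hi => absurd hi (Nat.not_lt_zero i)⟩
  | succ M ih =>
    intro hM
    obtain ⟨v, hv, hv'⟩ := ih (by omega)
    have h1 := h M (by omega)
    rw [mem_mv_iff R.B R.B_symm R.B_pos w.2.1] at h1
    push Not at h1
    obtain ⟨f, hf, hf'⟩ := h1
    rw [mem_fx] at hf
    obtain ⟨x, hx⟩ := Infinite.exists_notMem_finset
      ((Finset.range (M + 1)).image fun i => -(R.B v (R.β i)) / R.B f (R.β i))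
    refine ⟨v + x • f, by rw [map_add, map_smul, hv, hf], ?_⟩
    intro i hi h0
    rw [map_add, LinearMap.add_apply, map_smul, LinearMap.smul_apply, smul_eq_mul] at h0
    by_cases hz : R.B f (R.β i) = 0
    · rw [hz, mul_zero, add_zero] at h0
      rcases Nat.lt_succ_iff_lt_or_eq.mp hi with hi' | rfl
      · exact hv' i hi' h0
      · exact hf' (by rw [R.B_symm]; exact hz)
    · apply hx
      rw [Finset.mem_image]
      refine ⟨i, Finset.mem_range.mpr hi, ?_⟩
      rw [div_eq_iff hz]
      linarith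

/-- the dominant case: an element which fixes a vector with positive products with all the
positive roots is trivial -/
private theorem c4_dom {w : R.Gr} {v : Fin n → ℚ} (hw : w.1 v = v)
    (hv : ∀ i < N, 0 < R.B v (R.β i)) : w = 1 := by
  have h1 : ∀ i < N, ∃ k, k < N ∧ w.1 (R.β i) = R.β k := by
    intro i hi
    obtain ⟨k, hk, h | h⟩ := (w.2.2 (R.β i)).2 ⟨i, hi, Or.inl rfl⟩
    · exact ⟨k, hk, h⟩
    · exfalso
      have e := w.2.1 v (R.β i)
      rw [hw, h, map_neg] at e
      have := hv i hi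
      have := hv k hk
      linarith
  choose! p hp hp' using h1
  have hinj : Function.Injective (fun i : Fin N => (⟨p i, hp i i.2⟩ : Fin N)) := by
    intro i j hij
    have e : p i = p j := congrArg Fin.val hij
    have e2 : w.1 (R.β i) = w.1 (R.β j) := by rw [hp' i i.2, hp' j j.2, e]
    exact Fin.ext (R.inj i i.2 j j.2 (w.1.injective e2))
  have hbij := Finite.injective_iff_bijective.mp hinj
  have hrho : w.1 (∑ j ∈ Finset.range N, R.β j) = ∑ j ∈ Finset.range N, R.β j := by
    rw [map_sum, Finset.sum_range, Finset.sum_range]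
    have e : ∀ i : Fin N, w.1 (R.β i) = R.β ((⟨p i, hp i i.2⟩ : Fin N) : ℕ) := fun i => hp' i i.2
    simp only [e]
    exact hbij.sum_comp (fun i : Fin N => R.β i)
  have hB : ∀ u, R.B (∑ j ∈ Finset.range N, R.β j) u = 2 * csm u := by
    intro u
    rw [R.c4_B, csm, Finset.mul_sum]
    refine Finset.sum_congr rfl fun j _ => ?_
    rw [map_sum, LinearMap.sum_apply]
    have e := R.rho j j.2
    have e2 : ∑ i ∈ Finset.range N, R.B (R.β i) (R.β j) = 2 := e
    rw [e2, mul_comm]
  have hcs : ∀ u, csm (w.1 u) = csm u := by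
    intro u
    have e := w.2.1 (∑ j ∈ Finset.range N, R.β j) u
    rw [hrho, hB, hB] at e
    linarith
  have h2 : ∀ i : Fin n, p i < n := by
    intro i
    apply R.ht _ (hp i (R.c4_le i))
    have e := hcs (R.β i)
    rw [hp' i (R.c4_le i), R.c4_csm] at e
    exact e
  have h3 := R.noaut (fun i => ⟨p i, h2 i⟩) (by
    intro i j
    have e := w.2.1 (R.β i) (R.β j)
    rw [hp' i (R.c4_le i), hp' j (R.c4_le j)] at e
    exact e)
  apply Subtype.ext
  apply LinearEquiv.toLinearMap_injective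
  refine LinearMap.pi_ext' fun j => LinearMap.ext_ring ?_
  have e := hp' j (R.c4_le j)
  have e2 : p j = j := congrArg Fin.val (h3 j)
  rw [e2, R.c4_simple] at e
  simpa using e

/-- Every element `w ≠ 1` of `Gr` moves a root into `mv w`: there is a root in `mv w`.
PROOF.  Suppose that no root is in `mv w`; then (`mem_mv_iff`) no root `β i` is orthogonal to the
space `fx w`, so there is `v ∈ fx w` with `B v (β i) ≠ 0` for all `i < N`
(`Submodule`s: a space over an infinite field is not a finite union of proper subspaces, e.g.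
`Subspace.biUnion_ne_univ_of_top_notMem`, or induction on the number of roots with `v + x v'`,
`x ∈ ℚ`).  Choose `g ∈ Gr` (finite) with `∑ j, (g v) j` maximal, and put `v' = g v`,
`w' = g w g⁻¹`; `w' v' = v'`.  For `i < n`: `∑ j, (s i v') j = ∑ j, v' j - B v' (β i)`, so
`B v' (β i) ≥ 0` by the choice of `g`, and `≠ 0` as `B v' (β i) = B v (g⁻¹ (β i))` and `g⁻¹ (β i)`
is a root; so `B v' (β i) > 0` for `i < n`, and so for all `i < N` (`nonneg`:
`β i = ∑ j, β i j • β j`, and `β i ≠ 0`).  For `i < N`, `w' (β i) = ± β k`, and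
`B v' (w' (β i)) = B (w' v') (w' (β i)) = B v' (β i) > 0`, so `w' (β i) = β k`: `w'` permutes the
positive roots.  So it fixes their sum `2 ρ`; by `rho` and linearity `B (2 ρ) u = 2 ∑ j, u j` for
all `u`; so `∑ j, (w' u) j = ∑ j, u j`.  For `i < n` the positive root `w' (β i)` has coordinate
sum `1`, so it is `β (σ i)` with `σ i < n` (`ht`).  `w'` preserves `B`, so `σ = id` by `noaut`
and `w' = 1` (it fixes a basis), `w = 1`. -/
theorem exists_root {w : R.Gr} (h : w ≠ 1) : ∃ i < N, R.β i ∈ mv w.1 := by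
  by_contra hcon
  push Not at hcon
  apply h
  obtain ⟨v, hv, hv'⟩ := R.c4_regular hcon N le_rfl
  have := R.finite_Gr
  obtain ⟨g, hg⟩ := Finite.exists_max (fun g : R.Gr => csm (g.1 v))
  have hne : ∀ i < N, R.B (g.1 v) (R.β i) ≠ 0 := by
    intro i hi h0
    have e := (g⁻¹).2.1 (g.1 v) (R.β i)
    have e1 : (g⁻¹).1 (g.1 v) = v := LinearEquiv.symm_apply_apply g.1 v
    rw [e1, h0] at e
    obtain ⟨k, hk, hk' | hk'⟩ := ((g⁻¹).2.2 (R.β i)).2 ⟨i, hi, Or.inl rfl⟩
    · rw [hk'] at e
      exact hv' k hk e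
    · rw [hk', map_neg, neg_eq_zero] at e
      exact hv' k hk e
  have hs : ∀ i : Fin n, 0 ≤ R.B (g.1 v) (R.β i) := by
    intro i
    have e : csm ((R.t i * g).1 v) ≤ csm (g.1 v) := hg (R.t i * g)
    have e2 : (R.t i * g).1 v = g.1 v - R.B (g.1 v) (R.β i) • R.β i :=
      R.t_apply (R.c4_le i) (g.1 v)
    rw [e2, csm_sub, csm_smul, R.c4_csm] at e
    linarith
  have hpos : ∀ i < N, 0 < R.B (g.1 v) (R.β i) := by
    intro i hi
    refine lt_of_le_of_ne ?_ (hne i hi).symm
    rw [R.c4_B]
    exact Finset.sum_nonneg fun j _ => mul_nonneg (R.nonneg i hi j) (hs j)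
  have h1 : g * w * g⁻¹ = 1 := by
    refine R.c4_dom (v := g.1 v) ?_ hpos
    have e1 : (g⁻¹).1 (g.1 v) = v := LinearEquiv.symm_apply_apply g.1 v
    change g.1 (w.1 ((g⁻¹).1 (g.1 v))) = g.1 v
    rw [e1, hv]
  rw [mul_inv_eq_one, mul_eq_left] at h1
  exact h1

end RSys

end Pool.Agent.SPH.RG
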