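import Pool.Agent.SPH.RG.RSys

/-!
# Project SPH, root germs: the simple elements of a root system

`Le (t i) x` iff `β i ∈ mv x`; simple elements are determined by the atoms below them; the product
`W l` of an exceptional sequence `l` (`E (β j) (β i) = 0` for `i` before `j` in `l`) is simple.
-/

namespace Pool.Agent.SPH.RG

namespace RSys

variable {n N : ℕ} (R : RSys n N)

/-- exceptional sequences -/
def Exc (l : List ℕ) : Prop :=
  (∀ i ∈ l, i < N) ∧ l.Pairwise (fun i j => R.E (R.β j) (R.β i) = 0)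

/-- the span of the roots of a sequence -/
def sp (l : List ℕ) : Submodule ℚ (Fin n → ℚ) := Submodule.span ℚ {v | ∃ i ∈ l, v = R.β i}

private theorem d1_step {i : ℕ} (hi : i < N) (l : List ℕ) (v : Fin n → ℚ) :
    v - (R.W (i :: l))⁻¹.1 v = R.B v (R.β i) • R.β i +
      ((v - R.B v (R.β i) • R.β i) - (R.W l)⁻¹.1 (v - R.B v (R.β i) • R.β i)) := by
  have h : (R.W (i :: l))⁻¹.1 v = (R.W l)⁻¹.1 (v - R.B v (R.β i) • R.β i) := by
    rw [R.W_cons, mul_inv_rev, R.t_inv]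
    change (R.W l)⁻¹.1 ((R.t i).1 v) = _
    rw [R.t_apply hi]
  rw [h]
  abel

private theorem d1_sp_mono (i : ℕ) (l : List ℕ) : R.sp l ≤ R.sp (i :: l) := by
  apply Submodule.span_mono
  rintro v ⟨j, hj, rfl⟩
  exact ⟨j, List.mem_cons_of_mem _ hj, rfl⟩

private theorem d1_mem_sp {i : ℕ} {l : List ℕ} (h : i ∈ l) : R.β i ∈ R.sp l :=
  Submodule.subset_span ⟨i, h, rfl⟩

private theorem d1_sub_mem {l : List ℕ} (h : ∀ i ∈ l, i < N) (v : Fin n → ℚ) :
    v - (R.W l)⁻¹.1 v ∈ R.sp l := by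
  induction l generalizing v with
  | nil =>
    have h1 : (R.W [])⁻¹.1 v = v := by
      rw [R.W_nil, inv_one]
      rfl
    rw [h1, sub_self]
    exact zero_mem _
  | cons i l ih =>
    rw [R.d1_step (h i List.mem_cons_self) l v]
    refine add_mem (Submodule.smul_mem _ _ (R.d1_mem_sp List.mem_cons_self)) ?_
    exact R.d1_sp_mono i l (ih (fun j hj => h j (List.mem_cons_of_mem _ hj)) _)

private theorem d1_zero {i : ℕ} {l : List ℕ} (h : ∀ j ∈ l, R.E (R.β j) (R.β i) = 0)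
    {u : Fin n → ℚ} (hu : u ∈ R.sp l) : R.E u (R.β i) = 0 := by
  induction hu using Submodule.span_induction with
  | mem x hx =>
    obtain ⟨j, hj, rfl⟩ := hx
    exact h j hj
  | zero => rw [map_zero, LinearMap.zero_apply]
  | add x y _ _ hx hy => rw [map_add, LinearMap.add_apply, hx, hy, add_zero]
  | smul a x _ hx => rw [map_smul, LinearMap.smul_apply, hx, smul_zero]

/-- Let `l` be exceptional.  Then `E (v - (W l)⁻¹ v) u = B v u` for `u` in the span of `l`.
Induction on `l`: `l = i :: l'`, `v' = t i v = v - a • β i` with `a = B v (β i)`,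
`(W l)⁻¹ v = (W l')⁻¹ v'`, so `v - (W l)⁻¹ v = a • β i + (v' - (W l')⁻¹ v')`.
For `u` in the span of `l'`:
`E (..) u = a E (β i) u + B v' u = a E (β i) u + B v u - a (E (β i) u + E u (β i))`, and
`E u (β i) = 0` because `i` comes before the elements of `l'`.
For `u = β i`: `E (..) (β i) = a + E (v' - (W l')⁻¹ v') (β i) = a`, because
`v' - (W l')⁻¹ v'` lies in the span of `l'` (`x - (W l')⁻¹ x` is always in the span of `l'`, an
easy induction). -/
theorem exc_E {l : List ℕ} (h : R.Exc l) (v : Fin n → ℚ) {u : Fin n → ℚ} (hu : u ∈ R.sp l) :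
    R.E (v - (R.W l)⁻¹.1 v) u = R.B v u := by
  induction l generalizing v u with
  | nil =>
    have h0 : u = 0 := by
      have h1 : R.sp [] = ⊥ := by
        unfold sp
        rw [Submodule.span_eq_bot]
        rintro x ⟨i, hi, _⟩
        exact absurd hi List.not_mem_nil
      rw [h1] at hu
      exact (Submodule.mem_bot ℚ).1 hu
    rw [h0, map_zero, map_zero]
  | cons i l ih =>
    obtain ⟨h1, h2⟩ := h
    rw [List.pairwise_cons] at h2
    obtain ⟨h2, h3⟩ := h2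
    have hi : i < N := h1 i List.mem_cons_self
    have hl : ∀ j ∈ l, j < N := fun j hj => h1 j (List.mem_cons_of_mem _ hj)
    rw [R.d1_step hi l v, map_add, LinearMap.add_apply, map_smul, LinearMap.smul_apply,
      smul_eq_mul]
    induction hu using Submodule.span_induction with
    | mem x hx =>
      obtain ⟨j, hj, rfl⟩ := hx
      rcases List.mem_cons.1 hj with rfl | hj
      · rw [R.norm j hi, R.d1_zero h2 (R.d1_sub_mem hl _), mul_one, add_zero]
      · rw [ih ⟨hl, h3⟩ _ (R.d1_mem_sp hj), map_sub, LinearMap.sub_apply, map_smul,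
          LinearMap.smul_apply, smul_eq_mul, R.B_apply (R.β i) (R.β j), h2 j hj]
        ring
    | zero => simp
    | add x y _ _ hx hy =>
      rw [map_add, map_add, map_add, ← hx, ← hy]
      ring
    | smul a x _ hx =>
      rw [map_smul, map_smul, map_smul, ← hx, smul_eq_mul, smul_eq_mul, smul_eq_mul]
      ring

/-- The roots of an exceptional sequence are linearly independent (`E (β i) (β i) = 1`, and
`E (β j) (β i) = 0` for `i` before `j`: in a relation `∑ a i • β i = 0` apply `E · (β i)` for the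
first `i`). -/
theorem exc_finrank {l : List ℕ} (h : R.Exc l) : Module.finrank ℚ (R.sp l) = l.length := by
  induction l with
  | nil =>
    have h1 : R.sp [] = ⊥ := by
      unfold sp
      rw [Submodule.span_eq_bot]
      rintro x ⟨i, hi, _⟩
      exact absurd hi List.not_mem_nil
    rw [h1, finrank_bot, List.length_nil]
  | cons i l ih =>
    obtain ⟨h1, h2⟩ := h
    rw [List.pairwise_cons] at h2
    obtain ⟨h2, h3⟩ := h2
    have hi : i < N := h1 i List.mem_cons_self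
    have hl : ∀ j ∈ l, j < N := fun j hj => h1 j (List.mem_cons_of_mem _ hj)
    have hne : R.β i ≠ 0 := by
      intro h0
      have h4 := R.norm i hi
      rw [h0, map_zero] at h4
      exact zero_ne_one h4
    have hsp : R.sp (i :: l) = Submodule.span ℚ {R.β i} ⊔ R.sp l := by
      apply le_antisymm
      · refine Submodule.span_le.2 ?_
        rintro v ⟨j, hj, rfl⟩
        rcases List.mem_cons.1 hj with rfl | hj
        · exact Submodule.mem_sup_left (Submodule.mem_span_singleton_self _)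
        · exact Submodule.mem_sup_right (R.d1_mem_sp hj)
      · refine sup_le ?_ (R.d1_sp_mono i l)
        rw [Submodule.span_singleton_le_iff_mem]
        exact R.d1_mem_sp List.mem_cons_self
    have hinf : Submodule.span ℚ {R.β i} ⊓ R.sp l = ⊥ := by
      rw [Submodule.eq_bot_iff]
      rintro u ⟨hu1, hu2⟩
      obtain ⟨a, rfl⟩ := Submodule.mem_span_singleton.1 hu1
      have h5 := R.d1_zero h2 hu2
      rw [map_smul, LinearMap.smul_apply, R.norm i hi, smul_eq_mul, mul_one] at h5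
      rw [h5, zero_smul]
    have h6 := Submodule.finrank_sup_add_finrank_inf_eq (Submodule.span ℚ {R.β i}) (R.sp l)
    rw [hinf, finrank_bot, add_zero, finrank_span_singleton hne, ih ⟨hl, h3⟩, ← hsp] at h6
    rw [h6, List.length_cons, add_comm]

/-- the standard sequence of the simple roots is exceptional (`Eup`) -/
theorem exc_range : R.Exc (List.range n) := by
  refine ⟨fun i hi => lt_of_lt_of_le (List.mem_range.1 hi) R.hn, ?_⟩
  exact List.Pairwise.imp_of_mem (fun _ hj hij => R.Eup _ _ hij (List.mem_range.1 hj))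
    List.pairwise_lt_range

/-- `exc_E` for the standard sequence, whose span is everything -/
theorem E_c (v u : Fin n → ℚ) : R.E (v - R.c⁻¹.1 v) u = R.B v u := by
  refine R.exc_E R.exc_range v ?_
  rw [← Finset.univ_sum_single u]
  refine Submodule.sum_mem _ fun i _ => ?_
  have h1 : (Pi.single i (u i) : Fin n → ℚ) = u i • R.β i := by
    rw [R.simple i i.2, ← Pi.single_smul, smul_eq_mul, mul_one]
  rw [h1]
  exact Submodule.smul_mem _ _ (R.d1_mem_sp (List.mem_range.2 i.2))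

/-- if `c v = v` then `c⁻¹ v = v`, `B v u = 0` for all `u` (`E_c`) and `v = 0` (`B_pos`) -/
theorem fx_c : fx R.c.1 = ⊥ := by
  rw [Submodule.eq_bot_iff]
  intro v hv
  rw [mem_fx] at hv
  by_contra hne
  have h1 : R.c⁻¹.1 v = v := by
    have h2 : R.c⁻¹.1 (R.c.1 v) = v := R.c.1.symm_apply_apply v
    rwa [hv] at h2
  have h3 := R.E_c v v
  rw [h1, sub_self, map_zero, LinearMap.zero_apply] at h3
  have h4 := R.B_pos v hne
  rw [← h3] at h4
  exact lt_irrefl _ h4

/-- `fx_c` and `fx_add_rr` -/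
theorem r_c : R.L.r R.L.c = n := by
  have h := fx_add_rr R.c.1
  rw [R.fx_c, finrank_bot, zero_add] at h
  exact h

/-- `mv (W l)` is contained in the span of `l` (`mv_mul_le`) -/
theorem mv_W_le (l : List ℕ) (h : ∀ i ∈ l, i < N) : mv (R.W l).1 ≤ R.sp l := by
  induction l with
  | nil =>
    intro u hu
    obtain ⟨v, hv⟩ := mem_mv.mp hu
    have h1 : (R.W []).1 v = v := by
      rw [R.W_nil]
      rfl
    rw [h1, sub_self] at hv
    rw [← hv]
    exact zero_mem _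
  | cons i l ih =>
    have hi : i < N := h i List.mem_cons_self
    have h1 : (R.W (i :: l)).1 = (R.t i).1 * (R.W l).1 := by
      rw [R.W_cons]
      rfl
    rw [h1]
    refine (mv_mul_le _ _).trans (sup_le ?_ ?_)
    · intro u hu
      obtain ⟨v, hv⟩ := mem_mv.mp hu
      rw [R.t_apply hi] at hv
      rw [← hv, sub_right_comm, sub_self, zero_sub]
      exact neg_mem (Submodule.smul_mem _ _ (R.d1_mem_sp List.mem_cons_self))
    · exact (ih fun j hj => h j (List.mem_cons_of_mem _ hj)).trans (R.d1_sp_mono i l)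

/-- `(W l)⁻¹ v = c⁻¹ v` if `v - c⁻¹ v` is in the span of the exceptional sequence `l` -/
private theorem d3_inv {l : List ℕ} (h : R.Exc l) {v : Fin n → ℚ}
    (hv : v - R.c⁻¹.1 v ∈ R.sp l) : (R.W l)⁻¹.1 v = R.c⁻¹.1 v := by
  have h1 : (v - (R.W l)⁻¹.1 v) - (v - R.c⁻¹.1 v) ∈ R.sp l :=
    sub_mem (R.d1_sub_mem h.1 v) hv
  have h2 : R.E ((v - (R.W l)⁻¹.1 v) - (v - R.c⁻¹.1 v))
      ((v - (R.W l)⁻¹.1 v) - (v - R.c⁻¹.1 v)) = 0 := by
    rw [LinearMap.map_sub₂, R.exc_E h v h1, R.E_c v, sub_self]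
  by_contra hne
  have h3 : (v - (R.W l)⁻¹.1 v) - (v - R.c⁻¹.1 v) ≠ 0 := by
    intro h0
    apply hne
    rw [sub_sub_sub_cancel_left, sub_eq_zero] at h0
    exact h0.symm
  have h4 := R.pos _ h3
  rw [h2] at h4
  exact lt_irrefl _ h4

/-- the length of `(W l)⁻¹ c` -/
private theorem d3_le {l : List ℕ} (h : R.Exc l) :
    l.length + rr ((R.W l)⁻¹ * R.c).1 ≤ n := by
  have hT : Function.Injective
      ((LinearMap.id : (Fin n → ℚ) →ₗ[ℚ] (Fin n → ℚ)) -
        (R.c⁻¹.1 : (Fin n → ℚ) →ₗ[ℚ] (Fin n → ℚ))) := by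
    rw [← LinearMap.ker_eq_bot, LinearMap.ker_eq_bot']
    intro v hv
    have h1 : v - R.c⁻¹.1 v = 0 := hv
    by_contra hne
    have h3 := R.E_c v v
    rw [h1, map_zero, LinearMap.zero_apply] at h3
    have h4 := R.B_pos v hne
    rw [← h3] at h4
    exact lt_irrefl _ h4
  let e : (Fin n → ℚ) ≃ₗ[ℚ] (Fin n → ℚ) := LinearEquiv.ofInjectiveEndo _ hT
  have he : ∀ v, e v = v - R.c⁻¹.1 v := fun _ => rfl
  have h1 : Module.finrank ℚ ((R.sp l).map (e.symm : (Fin n → ℚ) →ₗ[ℚ] (Fin n → ℚ))) =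
      l.length := by
    rw [LinearEquiv.finrank_map_eq, R.exc_finrank h]
  have h2 : Module.finrank ℚ (((R.sp l).map (e.symm : (Fin n → ℚ) →ₗ[ℚ] (Fin n → ℚ))).map
      (R.c⁻¹.1 : (Fin n → ℚ) →ₗ[ℚ] (Fin n → ℚ))) = l.length := by
    rw [← h1]
    exact LinearEquiv.finrank_map_eq R.c⁻¹.1 _
  have h3 : ((R.sp l).map (e.symm : (Fin n → ℚ) →ₗ[ℚ] (Fin n → ℚ))).map
      (R.c⁻¹.1 : (Fin n → ℚ) →ₗ[ℚ] (Fin n → ℚ)) ≤ fx ((R.W l)⁻¹ * R.c).1 := by
    rintro w ⟨v, ⟨u, hu, rfl⟩, rfl⟩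
    rw [mem_fx]
    have h4 : e (e.symm u) = u := e.apply_symm_apply u
    rw [he] at h4
    have h5 := R.d3_inv h (v := e.symm u) (by rw [h4]; exact hu)
    have h6 : R.c.1 (R.c⁻¹.1 (e.symm u)) = e.symm u := R.c.1.apply_symm_apply _
    change (R.W l)⁻¹.1 (R.c.1 (R.c⁻¹.1 (e.symm u))) = R.c⁻¹.1 (e.symm u)
    rw [h6, h5]
  have h4 := Submodule.finrank_mono h3
  rw [h2] at h4
  have h5 := fx_add_rr ((R.W l)⁻¹ * R.c).1
  omega

/-- Let `l` be exceptional and `x = W l`.  `r x ≤ l.length` (`mv_W_le`).  For the `v` with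
`v - c⁻¹ v ∈ sp l` (a space of dimension `l.length`, because `v ↦ v - c⁻¹ v` is bijective)
`exc_E` and `E_c` give `E ((v - x⁻¹ v) - (v - c⁻¹ v)) u = 0` for all `u ∈ sp l`; the first argument
is in `sp l` (`x⁻¹` is the product of the same reflections in the other order), and `pos` gives
`x⁻¹ v = c⁻¹ v`.  So `v` (or `c⁻¹ v`) is fixed by `x c⁻¹` (by `c⁻¹ x`), and
`r (x⁻¹ c) ≤ n - l.length`.  With `r c = n ≤ r x + r (x⁻¹ c)` both are equalities, and
`mv x = sp l` by dimensions. -/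
theorem exc_mem {l : List ℕ} (h : R.Exc l) :
    R.L.Mem (R.W l) ∧ R.L.r (R.W l) = l.length ∧ mv (R.W l).1 = R.sp l := by
  have h1 := Submodule.finrank_mono (R.mv_W_le l h.1)
  rw [R.exc_finrank h] at h1
  have h2 : R.L.r (R.W l) ≤ l.length := h1
  have h3 : l.length + R.L.r ((R.W l)⁻¹ * R.c) ≤ n := R.d3_le h
  have h4 := R.L.r_mul (R.W l) ((R.W l)⁻¹ * R.c)
  rw [mul_inv_cancel_left] at h4
  have h5 : R.L.r R.c = n := R.r_c
  have h6 : R.L.r (R.W l) = l.length := by omega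
  refine ⟨?_, h6, ?_⟩
  · change R.L.r (R.W l) + R.L.r ((R.W l)⁻¹ * R.c) = R.L.r R.c
    omega
  · apply Submodule.eq_of_le_of_finrank_eq (R.mv_W_le l h.1)
    rw [R.exc_finrank h]
    exact h6

/-- `exc_mem`: `r (x⁻¹ c) = 0` -/
theorem exc_full {l : List ℕ} (h : R.Exc l) (hn : l.length = n) : R.W l = R.c := by
  obtain ⟨h1, h2, -⟩ := R.exc_mem h
  have h3 : R.L.r (R.W l) + R.L.r ((R.W l)⁻¹ * R.L.c) = R.L.r R.L.c := h1
  rw [h2, R.r_c, hn] at h3
  have h4 : R.L.r ((R.W l)⁻¹ * R.L.c) = 0 := by omega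
  exact inv_mul_eq_one.1 (R.L.eq_one _ h4)

/-- `exc_full` for `l₁ ++ l₂` -/
theorem exc_K {l₁ l₂ : List ℕ} (h : R.Exc (l₁ ++ l₂)) (hn : (l₁ ++ l₂).length = n) :
    (R.W l₁)⁻¹ * R.L.c = R.W l₂ := by
  have h1 := R.exc_full h hn
  rw [R.W_append] at h1
  rw [L_c, ← h1, inv_mul_cancel_left]

theorem exc_left {l₁ l₂ : List ℕ} (h : R.Exc (l₁ ++ l₂)) : R.Exc l₁ :=
  ⟨fun i hi => h.1 i (List.mem_append_left _ hi), (List.pairwise_append.1 h.2).1⟩

theorem exc_right {l₁ l₂ : List ℕ} (h : R.Exc (l₁ ++ l₂)) : R.Exc l₂ :=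
  ⟨fun i hi => h.1 i (List.mem_append_right _ hi), (List.pairwise_append.1 h.2).2.1⟩

/-- `mv (t i)` is the line of `β i` -/
theorem mv_t {i : ℕ} (h : i < N) : mv (R.t i).1 = Submodule.span ℚ {R.β i} := by
  ext u
  rw [mem_mv, Submodule.mem_span_singleton]
  constructor
  · rintro ⟨v, hv⟩
    refine ⟨-(R.B v (R.β i)), ?_⟩
    rw [← hv, R.t_apply h, neg_smul, sub_sub_cancel_left]
  · rintro ⟨a, ha⟩
    refine ⟨(-a / 2) • R.β i, ?_⟩
    rw [R.t_apply h, map_smul, LinearMap.smul_apply, R.B_norm h, sub_sub_cancel_left, ← neg_smul,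
      ← ha]
    congr 1
    rw [smul_eq_mul]
    ring

theorem r_t {i : ℕ} (h : i < N) : R.L.r (R.t i) = 1 := by
  rw [L_r, rr, R.mv_t h]
  apply finrank_span_singleton
  intro h0
  have h1 := R.norm i h
  rw [h0, map_zero] at h1
  exact zero_ne_one h1

/-- `rr_refl` for `w = x`, `s = t i`, and `mv_le_of_le` -/
theorem le_t {x : R.Gr} {i : ℕ} (h : i < N) : R.L.Le (R.t i) x ↔ R.β i ∈ mv x.1 := by
  constructor
  · intro hl
    have h1 : rr (R.t i).1 + rr ((R.t i).1⁻¹ * x.1) = rr x.1 := hl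
    refine mv_le_of_le h1 ?_
    rw [R.mv_t h]
    exact Submodule.mem_span_singleton_self _
  · intro hm
    have h1 : rr ((R.t i).1 * x.1) + 1 = rr x.1 :=
      rr_refl R.B R.B_symm R.B_pos x.2.1 (R.B_norm h) hm (fun v => R.t_apply h v)
    have h2 : R.L.r (R.t i) + R.L.r (R.t i * x) = R.L.r x := by
      rw [R.r_t h, add_comm]
      exact h1
    unfold LG.Le
    rw [R.t_inv]
    exact h2

/-- `le_t`, `mv c` is everything -/
theorem mem_t {i : ℕ} (h : i < N) : R.L.Mem (R.t i) := by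
  refine (R.le_t h).2 ((mem_mv_iff R.B R.B_symm R.B_pos R.L.c.2.1).2 ?_)
  intro f hf
  have h1 : f ∈ fx R.c.1 := hf
  rw [R.fx_c, Submodule.mem_bot] at h1
  rw [h1, map_zero]

/-- `exists_root` and `le_t` -/
theorem exists_t {x : R.Gr} (h : x ≠ 1) : ∃ i < N, R.L.Le (R.t i) x := by
  obtain ⟨i, hi, h1⟩ := R.exists_root h
  exact ⟨i, hi, (R.le_t hi).2 h1⟩

/-- if `r x = 1` and `t i ≤ x` then `r ((t i)⁻¹ x) = 0` -/
theorem eq_t {x : R.Gr} (h : R.L.r x = 1) : ∃ i < N, x = R.t i := by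
  have hx : x ≠ 1 := by
    rintro rfl
    rw [R.L.r_one] at h
    exact absurd h (by norm_num)
  obtain ⟨i, hi, h1⟩ := R.exists_t hx
  refine ⟨i, hi, ?_⟩
  unfold LG.Le at h1
  rw [R.r_t hi, h] at h1
  have h2 : (R.t i)⁻¹ * x = 1 := R.L.eq_one _ (by omega)
  exact (inv_mul_eq_one.1 h2).symm

theorem hasAtom : R.L.HasAtom := by
  intro x _ hx
  obtain ⟨i, hi, h1⟩ := R.exists_t hx
  exact ⟨R.t i, R.r_t hi, h1⟩

/-- Induction on `r x`: take `t i ≤ x`; `mv x = mv (t i) ⊔ mv ((t i)⁻¹ x)`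
(`mv_mul_of_add`), and the atoms below... `mv ((t i)⁻¹ x)` is the span of its roots, which are
in `mv x`. -/
theorem mv_span (x : R.Gr) : mv x.1 = Submodule.span ℚ {v | ∃ i < N, v = R.β i ∧ v ∈ mv x.1} := by
  refine le_antisymm ?_ (Submodule.span_le.2 ?_)
  · induction hk : R.L.r x using Nat.strong_induction_on generalizing x with
    | _ k ih =>
      by_cases hx : x = 1
      · have h0 : mv x.1 = ⊥ := by
          rw [hx]
          exact Submodule.finrank_eq_zero.1 rr_one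
        rw [h0]
        exact bot_le
      · obtain ⟨i, hi, h1⟩ := R.exists_t hx
        have h2 : rr (R.t i).1 + rr ((R.t i)⁻¹ * x).1 = rr x.1 := h1
        have h3 : (R.t i).1 * ((R.t i)⁻¹ * x).1 = x.1 :=
          congrArg Subtype.val (mul_inv_cancel_left (R.t i) x)
        have h4 : rr (R.t i).1 = 1 := R.r_t hi
        have h5 := (mv_mul_of_add (x := (R.t i).1) (y := ((R.t i)⁻¹ * x).1) (by rw [h3, h2])).1
        rw [h3] at h5
        have h6 : R.L.r ((R.t i)⁻¹ * x) < k := by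
          have h7 : R.L.r ((R.t i)⁻¹ * x) = rr ((R.t i)⁻¹ * x).1 := rfl
          have h8 : R.L.r x = rr x.1 := rfl
          omega
        have h9 := ih _ h6 ((R.t i)⁻¹ * x) rfl
        refine h5.le.trans (sup_le ?_ (h9.trans (Submodule.span_mono ?_)))
        · rw [R.mv_t hi, Submodule.span_singleton_le_iff_mem]
          exact Submodule.subset_span ⟨i, hi, rfl, (R.le_t hi).1 h1⟩
        · rintro v ⟨j, hj, hv, hm⟩
          exact ⟨j, hj, hv, h5.ge (le_sup_right (a := mv (R.t i).1) hm)⟩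
  · rintro v ⟨_, _, _, hv⟩
    exact hv

/-- `brady_watt` for simple elements -/
private theorem le_of_mv_le_D7 {x y : R.Gr} (hx : R.L.Mem x) (hy : R.L.Mem y)
    (h : mv x.1 ≤ mv y.1) : R.L.Le x y :=
  brady_watt (c := R.c.1) (x := x.1) (y := y.1) R.B R.B_symm R.B_pos x.2.1 y.2.1 R.fx_c hx hy h

/-- `mv_span`, `le_t` and `brady_watt` -/
theorem le_iff {x y : R.Gr} (hx : R.L.Mem x) (hy : R.L.Mem y) :
    R.L.Le x y ↔ ∀ i < N, R.L.Le (R.t i) x → R.L.Le (R.t i) y := by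
  refine ⟨fun h i _ h1 => R.L.le_trans h1 h, fun h => R.le_of_mv_le_D7 hx hy ?_⟩
  rw [R.mv_span x]
  refine Submodule.span_le.2 ?_
  rintro v ⟨i, hi, rfl, hv⟩
  exact (R.le_t hi).1 (h i hi ((R.le_t hi).2 hv))

/-- simple elements with the same atoms are equal -/
theorem ext_atoms {x y : R.Gr} (hx : R.L.Mem x) (hy : R.L.Mem y)
    (h : ∀ i < N, R.L.Le (R.t i) x ↔ R.L.Le (R.t i) y) : x = y :=
  R.L.le_antisymm ((R.le_iff hx hy).2 fun i hi => (h i hi).1)
    ((R.le_iff hy hx).2 fun i hi => (h i hi).2)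

/-- `v ↦ v - c⁻¹ v` is surjective -/
private theorem d8_surj (w : Fin n → ℚ) : ∃ v, v - R.c⁻¹.1 v = w := by
  have hT : Function.Injective
      ((LinearMap.id : (Fin n → ℚ) →ₗ[ℚ] (Fin n → ℚ)) -
        (R.c⁻¹.1 : (Fin n → ℚ) →ₗ[ℚ] (Fin n → ℚ))) := by
    rw [← LinearMap.ker_eq_bot, LinearMap.ker_eq_bot']
    intro v hv
    have h1 : v - R.c⁻¹.1 v = 0 := hv
    by_contra hne
    have h3 := R.E_c v v
    rw [h1, map_zero, LinearMap.zero_apply] at h3
    have h4 := R.B_pos v hne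
    rw [← h3] at h4
    exact lt_irrefl _ h4
  exact LinearMap.injective_iff_surjective.1 hT w

private theorem d8_span {i : ℕ} {S : Set (Fin n → ℚ)} (h : ∀ v ∈ S, R.E v (R.β i) = 0)
    {w : Fin n → ℚ} (hw : w ∈ Submodule.span ℚ S) : R.E w (R.β i) = 0 := by
  induction hw using Submodule.span_induction with
  | mem x hx => exact h x hx
  | zero => rw [map_zero, LinearMap.zero_apply]
  | add x y _ _ hx hy => rw [map_add, LinearMap.add_apply, hx, hy, add_zero]
  | smul a x _ hx => rw [map_smul, LinearMap.smul_apply, hx, smul_zero]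

private theorem d8_iff {x : R.Gr} (hx : R.L.Mem x) {i : ℕ} (hi : i < N) :
    R.L.Le (R.t i) x ↔ ∀ w ∈ mv (x⁻¹ * R.L.c).1, R.E w (R.β i) = 0 := by
  have hx' : rr x.1 + rr (x.1⁻¹ * R.c.1) = rr R.c.1 := hx
  rw [R.le_t hi, mem_mv_iff R.B R.B_symm R.B_pos x.2.1]
  constructor
  · intro h w hw
    obtain ⟨v, hv⟩ := R.d8_surj w
    have h1 : v - R.c.1⁻¹ v ∈ mv (x.1⁻¹ * R.c.1) := by
      have h2 : v - R.c.1⁻¹ v = w := hv
      rw [h2]
      exact hw
    have h2 : v ∈ fx x.1 := (mem_fx_iff_K R.fx_c hx').2 h1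
    rw [← hv, R.E_c, R.B_symm]
    exact h v h2
  · intro h f hf
    have h1 : f - R.c.1⁻¹ f ∈ mv (x.1⁻¹ * R.c.1) := (mem_fx_iff_K R.fx_c hx').1 hf
    have h2 : R.E (f - R.c⁻¹.1 f) (R.β i) = 0 := h _ h1
    rw [R.E_c] at h2
    rw [R.B_symm]
    exact h2

/-- `β i ∈ mv x` iff `B (β i) v = 0` for all `v ∈ fx x` (`mem_mv_iff`); `B (β i) v = B v (β i)
= E (v - c⁻¹ v) (β i)` (`E_c`), and `v ↦ v - c⁻¹ v` maps `fx x` onto `mv (x⁻¹ c)`
(`mem_fx_iff_K`; the map is bijective on the whole space), which is spanned by the roots of the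
atoms below `x⁻¹ c` (`mv_span`, `le_t`). -/
theorem le_iff_E {x : R.Gr} (hx : R.L.Mem x) {i : ℕ} (hi : i < N) :
    R.L.Le (R.t i) x ↔ ∀ u < N, R.L.Le (R.t u) (x⁻¹ * R.L.c) → R.E (R.β u) (R.β i) = 0 := by
  rw [R.d8_iff hx hi]
  constructor
  · intro h u hu hle
    exact h _ ((R.le_t hu).1 hle)
  · intro h w hw
    rw [R.mv_span (x⁻¹ * R.L.c)] at hw
    refine R.d8_span (i := i) ?_ hw
    rintro v ⟨u, hu, rfl, hv⟩
    exact h u hu ((R.le_t hu).2 hv)

/-- the same with `mv (x⁻¹ c) = sp l₂` (`exc_K`, `exc_mem`) for a full exceptional sequence -/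
theorem le_W {l₁ l₂ : List ℕ} (h : R.Exc (l₁ ++ l₂)) (hn : (l₁ ++ l₂).length = n) {i : ℕ}
    (hi : i < N) : R.L.Le (R.t i) (R.W l₁) ↔ ∀ u ∈ l₂, R.E (R.β u) (R.β i) = 0 := by
  rw [R.d8_iff (R.exc_mem (R.exc_left h)).1 hi, R.exc_K h hn,
    (R.exc_mem (R.exc_right h)).2.2]
  constructor
  · intro h1 u hu
    exact h1 _ (Submodule.subset_span ⟨u, hu, rfl⟩)
  · intro h1 w hw
    refine R.d8_span (i := i) ?_ hw
    rintro v ⟨u, hu, rfl⟩
    exact h1 u hu

/-- `mv (W l) = sp l ≤ mv y` iff all `β i`, `i ∈ l`, are in `mv y`; `brady_watt` -/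
theorem W_le {l : List ℕ} (h : R.Exc l) {y : R.Gr} (hy : R.L.Mem y) :
    R.L.Le (R.W l) y ↔ ∀ i ∈ l, R.L.Le (R.t i) y := by
  obtain ⟨h1, -, h3⟩ := R.exc_mem h
  constructor
  · intro h4 i hi
    have h5 : mv (R.W l).1 ≤ mv y.1 := mv_le_of_le h4
    rw [h3] at h5
    exact (R.le_t (h.1 i hi)).2 (h5 (Submodule.subset_span ⟨i, hi, rfl⟩))
  · intro h4
    refine R.le_of_mv_le_D7 h1 hy ?_
    rw [h3]
    refine Submodule.span_le.2 ?_
    rintro v ⟨i, hi, rfl⟩
    exact (R.le_t (h.1 i hi)).1 (h4 i hi)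

/-- Closure: if all the atoms of `A` are below `z`, and every `u` with `E (β u) (β i) = 0` for all
`i ∈ A` has `E (β u) (β j) = 0`, then `t j ≤ z` (`le_iff_E` twice). -/
theorem le_of_cl {z : R.Gr} (hz : R.L.Mem z) {A : List ℕ}
    (hA : ∀ i ∈ A, i < N ∧ R.L.Le (R.t i) z) {j : ℕ} (hj : j < N)
    (h : ∀ u < N, (∀ i ∈ A, R.E (R.β u) (R.β i) = 0) → R.E (R.β u) (R.β j) = 0) :
    R.L.Le (R.t j) z := by
  rw [R.le_iff_E hz hj]
  intro u hu hle
  exact h u hu fun i hi => (R.le_iff_E hz (hA i hi).1).mp (hA i hi).2 u hu hle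

/-- if no `u` has `E (β u) (β i) = 0` for all `i ∈ A` then the only simple element above `A` is
`c`: otherwise some `t u ≤ z⁻¹ c` (`exists_t`), and `le_iff_E` -/
theorem eq_c_of_cl {z : R.Gr} (hz : R.L.Mem z) {A : List ℕ}
    (hA : ∀ i ∈ A, i < N ∧ R.L.Le (R.t i) z)
    (h : ∀ u < N, ¬ ∀ i ∈ A, R.E (R.β u) (R.β i) = 0) : z = R.L.c := by
  by_contra hne
  have h1 : z⁻¹ * R.L.c ≠ 1 := fun h0 => hne (inv_mul_eq_one.mp h0)
  obtain ⟨u, hu, hle⟩ := R.exists_t h1
  exact h u hu fun i hi => (R.le_iff_E hz (hA i hi).1).mp (hA i hi).2 u hu hle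

/-- Conjugation of the reflection in `β a` by the one in `β b`, if
`β d = ± (β a - B (β a) (β b) • β b)`. -/
theorem conj_t {a b d : ℕ} (ha : a < N) (hb : b < N) (hd : d < N)
    (h : R.β d = R.β a - R.B (R.β a) (R.β b) • R.β b ∨
      R.β d = -(R.β a - R.B (R.β a) (R.β b) • R.β b)) :
    (R.t b)⁻¹ * R.t a * R.t b = R.t d := by
  rw [R.t_inv b]
  apply Subtype.ext
  apply LinearEquiv.ext
  intro v
  have e : (R.t b * R.t a * R.t b : R.Gr).1 v = (R.t b).1 ((R.t a).1 ((R.t b).1 v)) := rfl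
  have hba : R.B (R.β b) (R.β a) = R.B (R.β a) (R.β b) := R.B_symm _ _
  have hbb : R.B (R.β b) (R.β b) = 2 := R.B_norm hb
  rw [e, R.t_apply hb, R.t_apply ha, R.t_apply hb, R.t_apply hd]
  have key : ∀ x : ℚ, R.B (v - R.B v (R.β b) • R.β b - x • R.β a) (R.β b) =
      -R.B v (R.β b) - x * R.B (R.β a) (R.β b) := by
    intro x
    simp only [map_sub, map_smul, LinearMap.sub_apply, LinearMap.smul_apply, smul_eq_mul, hbb]
    ring
  rw [key]
  have k2 : R.B (v - R.B v (R.β b) • R.β b) (R.β a) =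
      R.B v (R.β a) - R.B v (R.β b) * R.B (R.β a) (R.β b) := by
    simp only [map_sub, map_smul, LinearMap.sub_apply, LinearMap.smul_apply, smul_eq_mul, hba]
  have k3 : R.B v (R.β a - R.B (R.β a) (R.β b) • R.β b) =
      R.B v (R.β a) - R.B v (R.β b) * R.B (R.β a) (R.β b) := by
    simp only [map_sub, map_smul, smul_eq_mul]
    ring
  have k4 : R.B v (R.β d) • R.β d =
      (R.B v (R.β a) - R.B v (R.β b) * R.B (R.β a) (R.β b)) •
        (R.β a - R.B (R.β a) (R.β b) • R.β b) := by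
    rcases h with h | h
    · rw [h, k3]
    · rw [h, map_neg, neg_smul_neg, k3]
  rw [k2, k4]
  module

private theorem tauT_zero {w : Fin n → ℚ} (h : ∀ k < n, R.E w (R.β k) = 0) : w = 0 := by
  have h0 : R.E w = 0 := by
    refine LinearMap.pi_ext' fun j => LinearMap.ext_ring ?_
    have h2 := h j j.2
    rw [R.simple j j.2] at h2
    simpa using h2
  by_contra hw
  have h3 := R.pos w hw
  rw [h0, LinearMap.zero_apply] at h3
  exact lt_irrefl _ h3

/-- Let `E (β b) (β k) = - E (β k) (β a)` for all simple `β k`, or `=` for all `k`.  Then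
`β b = ± c⁻¹ (β a)`: by `E_c`, `E (c⁻¹ v) u = E v u - B v u = - E u v`, so
`E (β b ∓ c⁻¹ (β a)) (β k) = 0` for all `k < n`, so for all vectors, and `pos`.  Then
`c⁻¹ * t a * c` is the reflection in `c⁻¹ (β a)`, that is `t b`. -/
theorem tau_t {a b : ℕ} (ha : a < N) (hb : b < N)
    (h : (∀ k < n, R.E (R.β b) (R.β k) = -R.E (R.β k) (R.β a)) ∨
      ∀ k < n, R.E (R.β b) (R.β k) = R.E (R.β k) (R.β a)) :
    (R.L.c)⁻¹ * R.t a * R.L.c = R.t b := by
  have hE : ∀ u, R.E (R.c⁻¹.1 (R.β a)) u = -R.E u (R.β a) := by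
    intro u
    have h1 := R.E_c (R.β a) u
    rw [map_sub, LinearMap.sub_apply, B_apply] at h1
    linarith
  have hb' : R.β b = R.c⁻¹.1 (R.β a) ∨ R.β b = -R.c⁻¹.1 (R.β a) := by
    rcases h with h | h
    · left
      rw [← sub_eq_zero]
      apply R.tauT_zero
      intro k hk
      rw [map_sub, LinearMap.sub_apply, hE, h k hk, sub_self]
    · right
      rw [← sub_eq_zero, sub_neg_eq_add]
      apply R.tauT_zero
      intro k hk
      rw [map_add, LinearMap.add_apply, hE, h k hk, add_neg_cancel]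
  apply Subtype.ext
  apply LinearEquiv.ext
  intro v
  have e : ((R.L.c)⁻¹ * R.t a * R.L.c : R.Gr).1 v = R.c⁻¹.1 ((R.t a).1 (R.c.1 v)) := rfl
  have h1 : R.c⁻¹.1 (R.c.1 v) = v := LinearEquiv.symm_apply_apply R.c.1 v
  have h2 : R.c.1 (R.c⁻¹.1 (R.β a)) = R.β a := LinearEquiv.apply_symm_apply R.c.1 (R.β a)
  have h3 : R.B (R.c.1 v) (R.β a) = R.B v (R.c⁻¹.1 (R.β a)) := by
    have h4 := R.c.2.1 v (R.c⁻¹.1 (R.β a))
    rw [h2] at h4
    exact h4
  rw [e, R.t_apply ha, R.t_apply hb, map_sub, map_smul, h1, h3]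
  rcases hb' with hb' | hb'
  · rw [hb']
  · rw [hb', map_neg, neg_smul_neg]

end RSys

end Pool.Agent.SPH.RG
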